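import Pool.Agent.Lib.MP_efea25_an.LW.Defs

/-! The action of integer polynomials by shifts: basic facts. -/

set_option autoImplicit false

namespace Pool.Agent.Lib.MP_efea25_an.LW

open Polynomial Finset fwdDiff_aux
open scoped Nat

section
variable {V : Type} [AddCommGroup V]

theorem act_apply (A : ℤ[X]) (f : ℤ → V) (x : ℤ) :
    act A f x = ∑ i ∈ range (A.natDegree + 1), A.coeff i • f (x + i) := by
  unfold act
  rw [aeval_eq_sum_range, LinearMap.sum_apply, Finset.sum_apply]
  refine Finset.sum_congr rfl fun i _ => ?_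
  rw [LinearMap.smul_apply, Pi.smul_apply, shiftₗ_pow_apply]
  simp

theorem act_mul (A B : ℤ[X]) (f : ℤ → V) : act (A * B) f = act A (act B f) := by
  unfold act
  rw [map_mul, Module.End.mul_apply]

theorem act_add (A B : ℤ[X]) (f : ℤ → V) : act (A + B) f = act A f + act B f := by
  unfold act
  rw [map_add, LinearMap.add_apply]

theorem act_sub_right (A : ℤ[X]) (f g : ℤ → V) : act A (f - g) = act A f - act A g := by
  unfold act
  rw [map_sub]

theorem act_congr (A : ℤ[X]) (f g : ℤ → V) (x : ℤ)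
    (h : ∀ y, x ≤ y → y ≤ x + A.natDegree → f y = g y) : act A f x = act A g x := by
  rw [act_apply, act_apply]
  refine Finset.sum_congr rfl fun i hi => ?_
  rw [mem_range] at hi
  rw [h (x + i) (by omega) (by omega)]

theorem act_X_pow (k : ℕ) (f : ℤ → V) (x : ℤ) : act (X ^ k) f x = f (x + k) := by
  unfold act
  rw [map_pow, aeval_X, shiftₗ_pow_apply]
  simp

/-- Integral functions are mapped to integral functions. -/
theorem act_intCast (A : ℤ[X]) (f : ℤ → ℤ) (x : ℤ) :
    act A (fun y => (f y : ℝ)) x = (act A f x : ℤ) := by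
  rw [act_apply, act_apply, Int.cast_sum]
  refine Finset.sum_congr rfl fun i _ => ?_
  rw [zsmul_eq_mul, smul_eq_mul, Int.cast_mul]

theorem act_zero_left (f : ℤ → V) (x : ℤ) : act (0 : ℤ[X]) f x = 0 := by
  unfold act
  rw [map_zero, LinearMap.zero_apply, Pi.zero_apply]

/-- If `B ∣ A` and all windows of `B` inside the window of `A` at `x` give `0`, then so does
`A`. -/
theorem act_eq_zero_of_dvd {A B : ℤ[X]} (h : B ∣ A) (f : ℤ → V) (x : ℤ)
    (hz : ∀ y, x ≤ y → y + B.natDegree ≤ x + A.natDegree → act B f y = 0) : act A f x = 0 := by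
  obtain ⟨D, rfl⟩ := h
  by_cases hB : B = 0
  · rw [hB, zero_mul]; exact act_zero_left f x
  by_cases hD : D = 0
  · rw [hD, mul_zero]; exact act_zero_left f x
  rw [natDegree_mul hB hD] at hz
  rw [mul_comm, act_mul, act_apply]
  refine Finset.sum_eq_zero fun i hi => ?_
  rw [mem_range] at hi
  rw [hz (x + i) (by omega) (by push_cast; omega), smul_zero]

/-- Reflection. -/
theorem act_reverse (A : ℤ[X]) (h0 : A.coeff 0 ≠ 0) (f : ℤ → V) (x : ℤ) :
    act A.reverse (fun y => f (-y)) x = act A f (-x - A.natDegree) := by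
  have hdeg : A.reverse.natDegree = A.natDegree := by
    rw [reverse_natDegree, natTrailingDegree_eq_zero_of_constantCoeff_ne_zero, Nat.sub_zero]
    rwa [constantCoeff_apply]
  rw [act_apply, act_apply, hdeg,
    ← Finset.sum_range_reflect (fun i => A.coeff i • f (-x - A.natDegree + i))]
  refine Finset.sum_congr rfl fun i hi => ?_
  rw [mem_range] at hi
  have hi' : i ≤ A.natDegree := by omega
  rw [coeff_reverse, revAt_le hi']
  have e1 : A.natDegree + 1 - 1 - i = A.natDegree - i := by omega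
  rw [e1]
  have e2 : (-(x + (i : ℤ))) = -x - (A.natDegree : ℤ) + ((A.natDegree - i : ℕ) : ℤ) := by
    rw [Nat.cast_sub hi']; ring
  rw [e2]
end

/-- Polynomial functions of degree `< m` are killed by the multiples of `(X - 1) ^ m`. -/
theorem act_poly_eq_zero {m : ℕ} (G : ℝ[X]) (hG : G.natDegree < m) (A : ℤ[X])
    (hA : (X - 1) ^ m ∣ A) (x : ℤ) : act A (fun y => G.eval (y : ℝ)) x = 0 := by
  have key : ∀ y : ℤ, act ((X - 1) ^ m : ℤ[X]) (fun y : ℤ => G.eval (y : ℝ)) y = 0 := by
    intro y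
    have h1 : act ((X - 1) ^ m : ℤ[X]) (fun y : ℤ => G.eval (y : ℝ)) =
        (fwdDiff (1 : ℤ))^[m] (fun y : ℤ => G.eval (y : ℝ)) := by
      unfold act
      rw [map_pow, map_sub, aeval_X, map_one]
      have : shiftₗ ℤ ℝ 1 - 1 = fwdDiffₗ ℤ ℝ 1 := by
        unfold shiftₗ; simp
      rw [this, ← coe_fwdDiffₗ_pow]
    rw [h1, fwdDiff_iter_eq_sum_shift]
    have h2 := congrFun (Polynomial.fwdDiff_iter_eq_zero_of_degree_lt hG) (y : ℝ)
    rw [fwdDiff_iter_eq_sum_shift, Pi.zero_apply] at h2
    rw [← h2]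
    refine Finset.sum_congr rfl fun k _ => ?_
    have e : ((y + k • (1 : ℤ) : ℤ) : ℝ) = (y : ℝ) + k • (1 : ℝ) := by simp
    rw [e]
  exact act_eq_zero_of_dvd hA _ x fun y _ _ => key y

end Pool.Agent.Lib.MP_efea25_an.LW
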