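import Pool.Agent.Lib.MP_efea25_an.LW.Defs

/-! The product of all `X ^ (j - i) - 1`: degree, divisibilities, and the bound by the determinant
of Vandermonde. -/

set_option autoImplicit false

namespace Pool.Agent.Lib.MP_efea25_an.LW

open Polynomial Finset fwdDiff_aux
open scoped Nat

theorem bP_monic (n : ℕ) : (bP n).Monic := by
  unfold bP
  refine monic_prod_of_monic _ _ fun i _ => monic_prod_of_monic _ _ fun j hj => ?_
  have h : (j : ℕ) - (i : ℕ) ≠ 0 := by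
    have h1 : (i : ℕ) < (j : ℕ) := Fin.lt_def.1 (mem_Ioi.1 hj)
    omega
  have h2 := monic_X_pow_sub_C (1 : ℤ) h
  rwa [C_1] at h2

theorem bP_coeff_zero (n : ℕ) : IsUnit ((bP n).coeff 0) := by
  rw [coeff_zero_eq_eval_zero]
  unfold bP
  rw [eval_prod]
  refine Finset.prod_induction _ IsUnit (fun _ _ => IsUnit.mul) isUnit_one fun i _ => ?_
  rw [eval_prod]
  refine Finset.prod_induction _ IsUnit (fun _ _ => IsUnit.mul) isUnit_one fun j hj => ?_
  have h : (j : ℕ) - (i : ℕ) ≠ 0 := by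
    have h1 : (i : ℕ) < (j : ℕ) := Fin.lt_def.1 (mem_Ioi.1 hj)
    omega
  rw [eval_sub, eval_pow, eval_X, eval_one, zero_pow h]
  rw [zero_sub]
  exact isUnit_one.neg

theorem bP_natDegree (n : ℕ) : (bP n).natDegree ≤ n ^ 3 := by
  unfold bP
  refine (natDegree_prod_le _ _).trans ?_
  have h1 : ∀ i : Fin n, (∏ j ∈ Ioi i, (X ^ ((j : ℕ) - (i : ℕ)) - 1 : ℤ[X])).natDegree ≤
      n * n := by
    intro i
    refine (natDegree_prod_le _ _).trans ?_
    have h2 : ∀ j ∈ Ioi i, (X ^ ((j : ℕ) - (i : ℕ)) - 1 : ℤ[X]).natDegree ≤ n := by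
      intro j _
      have h3 : (X ^ ((j : ℕ) - (i : ℕ)) - 1 : ℤ[X]).natDegree = (j : ℕ) - (i : ℕ) := by
        have h4 := natDegree_X_pow_sub_C (R := ℤ) (n := (j : ℕ) - (i : ℕ)) (r := 1)
        rwa [C_1] at h4
      rw [h3]
      have := j.2
      omega
    refine (Finset.sum_le_card_nsmul _ _ _ h2).trans ?_
    rw [smul_eq_mul]
    refine Nat.mul_le_mul_right _ ?_
    exact (Finset.card_le_univ _).trans (by rw [Fintype.card_fin])
  refine (Finset.sum_le_card_nsmul _ _ _ fun i _ => h1 i).trans ?_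
  rw [Finset.card_univ, Fintype.card_fin, smul_eq_mul]
  exact le_of_eq (by ring)

private theorem b2_pairs (n : ℕ) : ∑ i : Fin n, (Ioi i).card = n.choose 2 := by
  have h1 : ∀ i : Fin n, (Ioi i).card = n - 1 - (i : ℕ) := fun i => Fin.card_Ioi i
  rw [Finset.sum_congr rfl fun i _ => h1 i, Fin.sum_univ_eq_sum_range (fun i => n - 1 - i) n,
    Finset.sum_range_reflect (fun i => i) n, Finset.sum_range_id, Nat.choose_two_right]

private theorem b2_const (n : ℕ) (p : ℤ[X]) :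
    ∏ i : Fin n, ∏ _j ∈ Ioi i, p = p ^ n.choose 2 := by
  rw [← b2_pairs, ← Finset.prod_pow_eq_pow_sum]
  refine Finset.prod_congr rfl fun i _ => ?_
  rw [Finset.prod_const]

theorem dvd_bP (n : ℕ) : (X - 1) ^ (n.choose 2) ∣ bP n := by
  rw [← b2_const]
  unfold bP
  refine Finset.prod_dvd_prod_of_dvd _ _ fun i _ => Finset.prod_dvd_prod_of_dvd _ _ fun j _ => ?_
  have h := sub_dvd_pow_sub_pow (X : ℤ[X]) 1 ((j : ℕ) - (i : ℕ))
  rwa [one_pow] at h

theorem bP_dvd (n : ℕ) : bP n ∣ (X ^ (n !) - 1) ^ (n.choose 2) := by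
  rw [← b2_const]
  unfold bP
  refine Finset.prod_dvd_prod_of_dvd _ _ fun i _ => Finset.prod_dvd_prod_of_dvd _ _ fun j hj => ?_
  have h1 : (i : ℕ) < (j : ℕ) := Fin.lt_def.1 (mem_Ioi.1 hj)
  have h2 : (j : ℕ) - (i : ℕ) ∣ n ! := Nat.dvd_factorial (by omega) (by have := j.2; omega)
  obtain ⟨q, hq⟩ := h2
  have h := sub_dvd_pow_sub_pow ((X : ℤ[X]) ^ ((j : ℕ) - (i : ℕ))) 1 q
  rwa [one_pow, ← pow_mul, ← hq] at h

/-- `X ^ s * bP n` is the determinant of Vandermonde. -/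
private theorem b2_det (n : ℕ) :
    X ^ (∑ i : Fin n, ∑ _j ∈ Ioi i, (i : ℕ)) * bP n =
      ∑ σ : Equiv.Perm (Fin n), (Equiv.Perm.sign σ : ℤ) •
        (X : ℤ[X]) ^ (∑ i : Fin n, (σ i : ℕ) * (i : ℕ)) := by
  have h1 : (Matrix.vandermonde fun i : Fin n => (X : ℤ[X]) ^ (i : ℕ)).det =
      X ^ (∑ i : Fin n, ∑ _j ∈ Ioi i, (i : ℕ)) * bP n := by
    rw [Matrix.det_vandermonde]
    unfold bP
    rw [← Finset.prod_pow_eq_pow_sum, ← Finset.prod_mul_distrib]
    refine Finset.prod_congr rfl fun i _ => ?_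
    rw [← Finset.prod_pow_eq_pow_sum, ← Finset.prod_mul_distrib]
    refine Finset.prod_congr rfl fun j hj => ?_
    have h2 : (i : ℕ) < (j : ℕ) := Fin.lt_def.1 (mem_Ioi.1 hj)
    rw [mul_sub, ← pow_add, mul_one, Nat.add_sub_cancel' h2.le]
  rw [← h1, Matrix.det_apply]
  refine Finset.sum_congr rfl fun σ _ => ?_
  rw [Units.smul_def]
  congr 1
  rw [← Finset.prod_pow_eq_pow_sum]
  refine Finset.prod_congr rfl fun i _ => ?_
  rw [Matrix.vandermonde_apply, ← pow_mul]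

private theorem b2_pow {V : Type} [AddCommGroup V] (k : ℕ) (f : ℤ → V) (x : ℤ) :
    act (X ^ k) f x = f (x + k) := by
  unfold act
  rw [map_pow, aeval_X, shiftₗ_pow_apply]
  simp

private theorem b2_mul {V : Type} [AddCommGroup V] (A B : ℤ[X]) (f : ℤ → V) :
    act (A * B) f = act A (act B f) := by
  unfold act
  rw [map_mul]
  rfl

/-- The bound by the determinant of Vandermonde: `X ^ s * bP n = det (X ^ (i j))`, and Leibniz. -/
theorem act_bP_lt (n : ℕ) (f : ℤ → ℝ) (x : ℤ) (K : ℝ)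
    (h : ∀ y, x - (n : ℤ) ^ 3 ≤ y → y ≤ x + (n : ℤ) ^ 3 → |f y| < K) :
    |act (bP n) f x| < n ! * K := by
  set s : ℕ := ∑ i : Fin n, ∑ _j ∈ Ioi i, (i : ℕ) with hs
  have hsle : s ≤ n ^ 3 := by
    have h1 : ∀ i : Fin n, ∑ _j ∈ Ioi i, (i : ℕ) ≤ n * n := by
      intro i
      rw [Finset.sum_const, smul_eq_mul]
      exact Nat.mul_le_mul ((Finset.card_le_univ _).trans (by rw [Fintype.card_fin])) i.2.le
    refine (Finset.sum_le_card_nsmul _ _ _ fun i _ => h1 i).trans ?_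
    rw [Finset.card_univ, Fintype.card_fin, smul_eq_mul]
    exact le_of_eq (by ring)
  have hσle : ∀ σ : Equiv.Perm (Fin n), ∑ i : Fin n, (σ i : ℕ) * (i : ℕ) ≤ n ^ 3 := by
    intro σ
    refine (Finset.sum_le_card_nsmul _ _ (n * n) fun i _ =>
      Nat.mul_le_mul (σ i).2.le i.2.le).trans ?_
    rw [Finset.card_univ, Fintype.card_fin, smul_eq_mul]
    exact le_of_eq (by ring)
  have h1 : act (bP n) f x = ∑ σ : Equiv.Perm (Fin n), ((Equiv.Perm.sign σ : ℤ) : ℝ) *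
      f (x - s + (∑ i : Fin n, (σ i : ℕ) * (i : ℕ) : ℕ)) := by
    have h2 : act (bP n) f x = act (X ^ s * bP n) f (x - s) := by
      rw [b2_mul, b2_pow, sub_add_cancel]
    rw [h2, b2_det]
    unfold act
    rw [map_sum, LinearMap.sum_apply, Finset.sum_apply]
    refine Finset.sum_congr rfl fun σ _ => ?_
    rw [map_zsmul, LinearMap.smul_apply, Pi.smul_apply, zsmul_eq_mul]
    congr 1
    exact b2_pow _ f _
  rw [h1]
  have hcard : ((n ! : ℕ) : ℝ) * K = ∑ _σ : Equiv.Perm (Fin n), K := by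
    rw [Finset.sum_const, Finset.card_univ, Fintype.card_perm, Fintype.card_fin, nsmul_eq_mul]
  rw [hcard]
  refine (Finset.abs_sum_le_sum_abs _ _).trans_lt
    (Finset.sum_lt_sum_of_nonempty ⟨1, mem_univ _⟩ fun σ _ => ?_)
  have hsign : |((Equiv.Perm.sign σ : ℤ) : ℝ)| = 1 := by
    rcases Int.units_eq_one_or (Equiv.Perm.sign σ) with h3 | h3 <;> rw [h3] <;> simp
  rw [abs_mul, hsign, one_mul]
  have h4 := hσle σ
  have h5 : ((s : ℕ) : ℤ) ≤ (n : ℤ) ^ 3 := by exact_mod_cast hsle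
  have h6 : ((∑ i : Fin n, (σ i : ℕ) * (i : ℕ) : ℕ) : ℤ) ≤ (n : ℤ) ^ 3 := by exact_mod_cast h4
  refine h _ ?_ ?_
  · have h7 : (0 : ℤ) ≤ ((∑ i : Fin n, (σ i : ℕ) * (i : ℕ) : ℕ) : ℤ) := Int.natCast_nonneg _
    linarith
  · have h7 : (0 : ℤ) ≤ ((s : ℕ) : ℤ) := Int.natCast_nonneg _
    linarith

/-- The sum of the absolute values of the coefficients. -/
theorem bP_l1 (n : ℕ) :
    ∑ i ∈ range ((bP n).natDegree + 1), |(bP n).coeff i| ≤ ((n ! : ℕ) : ℤ) := by
  set s : ℕ := ∑ i : Fin n, ∑ _j ∈ Ioi i, (i : ℕ) with hs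
  have h1 : ∀ i, |(bP n).coeff i| ≤ ∑ σ : Equiv.Perm (Fin n),
      (if s + i = ∑ i : Fin n, (σ i : ℕ) * (i : ℕ) then (1 : ℤ) else 0) := by
    intro i
    have h2 : (bP n).coeff i = (X ^ s * bP n).coeff (i + s) := (coeff_X_pow_mul _ _ _).symm
    rw [h2, b2_det, finsetSum_coeff]
    refine (Finset.abs_sum_le_sum_abs _ _).trans (Finset.sum_le_sum fun σ _ => ?_)
    have hsign : |((Equiv.Perm.sign σ : ℤˣ) : ℤ)| = 1 := by
      rcases Int.units_eq_one_or (Equiv.Perm.sign σ) with h3 | h3 <;> rw [h3] <;> simp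
    rw [coeff_smul, coeff_X_pow, smul_eq_mul, abs_mul, hsign, one_mul, add_comm i s]
    split_ifs <;> simp
  calc ∑ i ∈ range ((bP n).natDegree + 1), |(bP n).coeff i|
      ≤ ∑ i ∈ range ((bP n).natDegree + 1), ∑ σ : Equiv.Perm (Fin n),
        (if s + i = ∑ i : Fin n, (σ i : ℕ) * (i : ℕ) then (1 : ℤ) else 0) :=
        Finset.sum_le_sum fun i _ => h1 i
    _ = ∑ σ : Equiv.Perm (Fin n), ∑ i ∈ range ((bP n).natDegree + 1),
        (if s + i = ∑ i : Fin n, (σ i : ℕ) * (i : ℕ) then (1 : ℤ) else 0) :=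
        Finset.sum_comm
    _ ≤ ∑ _σ : Equiv.Perm (Fin n), (1 : ℤ) := by
        refine Finset.sum_le_sum fun σ _ => ?_
        rw [Finset.sum_boole]
        have h2 : ((range ((bP n).natDegree + 1)).filter fun i =>
            s + i = ∑ i : Fin n, (σ i : ℕ) * (i : ℕ)).card ≤ 1 := by
          refine Finset.card_le_one.2 fun a ha b hb => ?_
          have h3 := (Finset.mem_filter.1 ha).2
          have h4 := (Finset.mem_filter.1 hb).2
          omega
        exact_mod_cast h2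
    _ = ((n ! : ℕ) : ℤ) := by
        rw [Finset.sum_const, Finset.card_univ, Fintype.card_perm, Fintype.card_fin,
          nsmul_eq_mul, mul_one]

end Pool.Agent.Lib.MP_efea25_an.LW
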