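import Mathlib

/-! The action of integer polynomials by shifts, and the product of all `X ^ (j - i) - 1`. -/

set_option autoImplicit false

namespace Pool.Agent.Lib.MP_efea25_an.LW

open Polynomial Finset fwdDiff_aux

/-- The action of integer polynomials on functions on the integers by shifts:
`(act A f) x = ∑ A_i f (x + i)`. -/
noncomputable def act {V : Type} [AddCommGroup V] (A : ℤ[X]) (f : ℤ → V) : ℤ → V :=
  aeval (shiftₗ ℤ V 1) A f

/-- The product of all `X ^ (j - i) - 1` with `0 ≤ i < j < n`. -/
noncomputable def bP (n : ℕ) : ℤ[X] :=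
  ∏ i : Fin n, ∏ j ∈ Ioi i, (X ^ ((j : ℕ) - (i : ℕ)) - 1)

end Pool.Agent.Lib.MP_efea25_an.LW
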