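import Pool.Agent.Lib.MP_efea25_an.LW.Defs

/-! L3: the polynomials `∑ (-1)^i C(2M, M+i) X^(s i^2)` are divisible by `(X - 1)^M`. -/

set_option autoImplicit false

namespace Pool.Agent.Lib.MP_efea25_an.LW

open Polynomial Finset fwdDiff_aux
open scoped Nat fwdDiff

/-- `P_s`. -/
noncomputable def sqP (M s : ℕ) : ℤ[X] :=
  C ((2 * M).choose M : ℤ) +
    2 * ∑ i ∈ Icc 1 M, C ((-1) ^ i * ((2 * M).choose (M + i) : ℤ)) * X ^ (s * i ^ 2)

/-- the symmetric sum as a sum over `range (2 M + 1)` -/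
private theorem sq_sym {A : Type} [AddCommMonoid A] (M : ℕ) (f : ℕ → A) (g : ℕ → A)
    (h1 : ∀ i < M, f (M - 1 - i) = g (i + 1)) (h2 : ∀ i < M, f (M + (i + 1)) = g (i + 1)) :
    ∑ j ∈ range (2 * M + 1), f j = f M + (∑ i ∈ Icc 1 M, g i + ∑ i ∈ Icc 1 M, g i) := by
  have e1 : ∑ i ∈ Icc 1 M, g i = ∑ i ∈ range M, g (i + 1) := by
    rw [Finset.range_eq_Ico, Finset.sum_Ico_add' g 0 M 1]
    rfl
  have e2 : 2 * M + 1 = M + (M + 1) := by omega
  rw [e2, Finset.sum_range_add, Finset.sum_range_succ', e1, Nat.add_zero]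
  have e3 : ∑ i ∈ range M, f (M + (i + 1)) = ∑ i ∈ range M, g (i + 1) :=
    Finset.sum_congr rfl fun i hi => h2 i (Finset.mem_range.1 hi)
  have e4 : ∑ j ∈ range M, f j = ∑ i ∈ range M, g (i + 1) := by
    rw [← Finset.sum_range_reflect]
    exact Finset.sum_congr rfl fun i hi => h1 i (Finset.mem_range.1 hi)
  rw [e3, e4, add_comm (∑ i ∈ range M, g (i + 1)) (f M), ← add_assoc, ← add_assoc,
    add_comm (f M)]

private theorem sq_eq (M s : ℕ) : sqP M s = ∑ j ∈ range (2 * M + 1),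
    C ((-1) ^ (M + j) * ((2 * M).choose j : ℤ)) * X ^ (s * ((j : ℤ) - M).natAbs ^ 2) := by
  rw [sq_sym M (fun j => C ((-1) ^ (M + j) * ((2 * M).choose j : ℤ)) *
      X ^ (s * ((j : ℤ) - M).natAbs ^ 2))
    (fun i => C ((-1) ^ i * ((2 * M).choose (M + i) : ℤ)) * X ^ (s * i ^ 2))]
  · unfold sqP
    rw [two_mul (∑ i ∈ Icc 1 M, _)]
    congr 1
    have h1 : ((-1 : ℤ)) ^ (M + M) = 1 := Even.neg_one_pow ⟨M, rfl⟩
    simp [h1]
  · intro i hi
    have h1 : (((M - 1 - i : ℕ) : ℤ) - M).natAbs = i + 1 := by omega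
    have h2 : (2 * M).choose (M - 1 - i) = (2 * M).choose (M + (i + 1)) := by
      rw [← Nat.choose_symm (n := 2 * M) (k := M + (i + 1)) (by omega)]
      congr 1
      omega
    have h3 : ((-1 : ℤ)) ^ (M + (M - 1 - i)) = (-1) ^ (i + 1) := by
      have : M + (M - 1 - i) + 2 * (i + 1) = 2 * M + (i + 1) := by omega
      have h4 : ((-1 : ℤ)) ^ (M + (M - 1 - i)) * (-1) ^ (2 * (i + 1)) =
          (-1) ^ (2 * M) * (-1) ^ (i + 1) := by rw [← pow_add, ← pow_add, this]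
      rw [pow_mul, pow_mul, neg_one_sq, one_pow, one_pow, mul_one, one_mul] at h4
      exact h4
    simp only [h1, h2, h3]
  · intro i hi
    have h1 : (((M + (i + 1) : ℕ) : ℤ) - M).natAbs = i + 1 := by omega
    have h3 : ((-1 : ℤ)) ^ (M + (M + (i + 1))) = (-1) ^ (i + 1) := by
      rw [← add_assoc, pow_add, Even.neg_one_pow ⟨M, rfl⟩, one_mul]
    simp only [h1, h3]

private theorem sq_diff (M s k : ℕ) (hk : k < M) :
    ∑ j ∈ range (2 * M + 1), ((-1 : ℤ) ^ (M + j) * ((2 * M).choose j : ℤ)) *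
      ((s * ((j : ℤ) - M).natAbs ^ 2).choose k : ℤ) = 0 := by
  set P : ℤ[X] := (descPochhammer ℤ k).comp (C (s : ℤ) * (X - C (M : ℤ)) ^ 2) with hP
  have hdeg : P.natDegree < 2 * M := by
    rw [hP]
    refine lt_of_le_of_lt natDegree_comp_le ?_
    rw [descPochhammer_natDegree]
    have h1 : (C (s : ℤ) * (X - C (M : ℤ)) ^ 2).natDegree ≤ 2 := by
      refine (natDegree_C_mul_le _ _).trans ?_
      rw [natDegree_pow, natDegree_X_sub_C]
    calc k * (C (s : ℤ) * (X - C (M : ℤ)) ^ 2).natDegree ≤ k * 2 := Nat.mul_le_mul_left _ h1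
      _ < 2 * M := by omega
  have h1 := congrFun (Polynomial.fwdDiff_iter_eq_zero_of_degree_lt hdeg) (0 : ℤ)
  rw [fwdDiff_iter_eq_sum_shift] at h1
  have hev : ∀ j : ℕ, P.eval ((0 : ℤ) + j • (1 : ℤ)) =
      (k ! : ℤ) * ((s * ((j : ℤ) - M).natAbs ^ 2).choose k : ℤ) := by
    intro j
    have e1 : (C (s : ℤ) * (X - C (M : ℤ)) ^ 2).eval ((0 : ℤ) + j • (1 : ℤ)) =
        ((s * ((j : ℤ) - M).natAbs ^ 2 : ℕ) : ℤ) := by
      push_cast
      rw [sq_abs]
      simp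
    rw [hP, eval_comp, e1, descPochhammer_eval_eq_descFactorial, Nat.descFactorial_eq_factorial_mul_choose]
    push_cast
    ring
  have h2 : (k ! : ℤ) * ∑ j ∈ range (2 * M + 1), ((-1 : ℤ) ^ (M + j) * ((2 * M).choose j : ℤ)) *
      ((s * ((j : ℤ) - M).natAbs ^ 2).choose k : ℤ) = (-1) ^ M *
      ∑ j ∈ range (2 * M + 1), ((-1 : ℤ) ^ (2 * M - j) * ((2 * M).choose j : ℤ)) •
        P.eval ((0 : ℤ) + j • (1 : ℤ)) := by
    rw [Finset.mul_sum, Finset.mul_sum]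
    refine Finset.sum_congr rfl fun j hj => ?_
    rw [hev, smul_eq_mul]
    have hj' : j ≤ 2 * M := Nat.lt_succ_iff.1 (Finset.mem_range.1 hj)
    have e1 : ((-1 : ℤ)) ^ (2 * M - j) = (-1) ^ j := by
      have h4 : ((-1 : ℤ)) ^ (2 * M - j) * (-1) ^ j = 1 := by
        rw [← pow_add, Nat.sub_add_cancel hj', pow_mul, neg_one_sq, one_pow]
      have h5 : ((-1 : ℤ)) ^ j * (-1) ^ j = 1 := by
        rw [← pow_add, Even.neg_one_pow ⟨j, rfl⟩]
      have h6 : ((-1 : ℤ)) ^ j ≠ 0 := by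
        intro h
        rw [h, mul_zero] at h5
        exact zero_ne_one h5
      exact mul_right_cancel₀ h6 (h4.trans h5.symm)
    rw [e1, pow_add]
    ring
  rw [h1, Pi.zero_apply, mul_zero] at h2
  have h3 : (k ! : ℤ) ≠ 0 := by exact_mod_cast Nat.factorial_ne_zero k
  exact (mul_eq_zero.1 h2).resolve_left h3

/-- Derivatives at `1`: `2M`-th differences of polynomials of degree `< 2M` in `i`. -/
theorem sqP_dvd (M s : ℕ) : (X - 1) ^ M ∣ sqP M s := by
  rw [← C_1, X_sub_C_pow_dvd_iff, X_pow_dvd_iff]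
  intro k hk
  rw [← taylor_apply, taylor_coeff, sq_eq, map_sum, eval_finsetSum]
  rw [← sq_diff M s k hk]
  refine Finset.sum_congr rfl fun j _ => ?_
  rw [C_mul_X_pow_eq_monomial, hasseDeriv_monomial, eval_monomial, one_pow, mul_one, mul_comm]

end Pool.Agent.Lib.MP_efea25_an.LW
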