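import Pool.Agent.Lib.MP_efea25_an.LW.Act
import Pool.Agent.Lib.MP_efea25_an.LW.Sq

/-! Extrapolation: Step 4 of the proof. -/

set_option autoImplicit false

namespace Pool.Agent.Lib.MP_efea25_an.LW

open Polynomial Finset fwdDiff_aux
open scoped Nat

/-- Value of the action of `P_s(X^Q)`. -/
theorem l4_act (M Q s : ℕ) (f : ℤ → ℝ) (x : ℤ) :
    act ((sqP M s).comp (X ^ Q)) f x = ((2 * M).choose M : ℝ) * f x +
      2 * ∑ i ∈ Icc 1 M, ((-1) ^ i * ((2 * M).choose (M + i) : ℝ)) *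
        f (x + Q * ((s * i ^ 2 : ℕ) : ℤ)) := by
  have hmon : ∀ (c : ℤ) (k : ℕ), act (C c * X ^ k) f x = (c : ℝ) * f (x + k) := by
    intro c k
    have h1 : act (C c * X ^ k) f = c • act (X ^ k) f := by
      simp only [act, map_mul, Polynomial.aeval_C, Algebra.algebraMap_eq_smul_one, smul_mul_assoc, one_mul, LinearMap.smul_apply]
    rw [h1]
    simp only [Pi.smul_apply, act_X_pow, zsmul_eq_mul]
  have hsum : ∀ (t : Finset ℕ) (g : ℕ → ℤ[X]), act (∑ i ∈ t, g i) f x = ∑ i ∈ t, act (g i) f x := by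
    intro t g
    simp only [act, map_sum, LinearMap.sum_apply, Finset.sum_apply]
  have hcomp : (sqP M s).comp (X ^ Q) = C ((2 * M).choose M : ℤ) * X ^ 0 +
      ∑ i ∈ Icc 1 M, C (2 * ((-1) ^ i * ((2 * M).choose (M + i) : ℤ))) * X ^ (Q * (s * i ^ 2)) := by
    unfold sqP
    have h2 : (2 : ℤ[X]) = C 2 := by simp
    rw [add_comp, C_comp, mul_comp, pow_zero, mul_one, h2, C_comp, Polynomial.sum_comp, mul_sum]
    congr 1
    refine sum_congr rfl fun i _ => ?_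
    rw [mul_comp, C_comp, X_pow_comp, ← pow_mul, C_mul (a := 2), mul_assoc]
  rw [hcomp, act_add, Pi.add_apply, hmon, hsum, mul_sum]
  congr 1
  · simp
  · refine sum_congr rfl fun i _ => ?_
    rw [hmon]
    push_cast
    ring

/-- Degree of `P_s(X^Q)`. -/
theorem l4_natDegree (M Q s : ℕ) : ((sqP M s).comp (X ^ Q)).natDegree ≤ Q * (s * M ^ 2) := by
  have h1 : (sqP M s).natDegree ≤ s * M ^ 2 := by
    unfold sqP
    refine (natDegree_add_le _ _).trans (max_le (by simp) ?_)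
    refine (natDegree_mul_le).trans ?_
    have h2 : (2 : ℤ[X]).natDegree = 0 := by
      have : (2 : ℤ[X]) = C 2 := by simp
      rw [this, natDegree_C]
    rw [h2, zero_add]
    refine natDegree_sum_le_of_forall_le _ _ fun i hi => ?_
    refine (natDegree_C_mul_X_pow_le _ _).trans ?_
    exact Nat.mul_le_mul_left _ (Nat.pow_le_pow_left (mem_Icc.mp hi).2 2)
  refine natDegree_comp_le.trans ?_
  rw [natDegree_X_pow, Nat.mul_comm]
  exact Nat.mul_le_mul_left _ h1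

/-- The window identity gives the bound for one `s`. -/
theorem l4_one {M Q s S : ℕ} (hs : s ≤ S) (B : ℤ[X]) (hB : B ∣ (X ^ Q - 1) ^ M)
    (f : ℤ → ℝ) (x : ℤ)
    (h : ∀ y : ℤ, x ≤ y → y + B.natDegree ≤ x + Q * (S * M ^ 2) → act B f y = 0) :
    f x ^ 2 ≤ 4 * (M : ℝ) * ∑ i ∈ Icc 1 M, f (x + Q * ((s * i ^ 2 : ℕ) : ℤ)) ^ 2 := by
  have hdvd : B ∣ (sqP M s).comp (X ^ Q) := by
    refine hB.trans ?_
    obtain ⟨q, hq⟩ := sqP_dvd M s
    rw [hq, mul_comp, pow_comp, sub_comp, X_comp, one_comp]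
    exact Dvd.intro _ rfl
  have h0 : act ((sqP M s).comp (X ^ Q)) f x = 0 := by
    refine act_eq_zero_of_dvd hdvd f x fun y hy hy2 => h y hy (hy2.trans ?_)
    have h3 : (((sqP M s).comp (X ^ Q)).natDegree : ℤ) ≤ Q * (s * M ^ 2) := by
      exact_mod_cast l4_natDegree M Q s
    have h4 : (Q : ℤ) * (s * M ^ 2) ≤ Q * (S * M ^ 2) := by
      have : (s : ℤ) ≤ S := by exact_mod_cast hs
      have h5 : (0 : ℤ) ≤ (M : ℤ) ^ 2 := by positivity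
      exact mul_le_mul_of_nonneg_left (mul_le_mul_of_nonneg_right this h5) (by positivity)
    linarith
  rw [l4_act] at h0
  set c : ℝ := ((2 * M).choose M : ℝ) with hc
  have hcpos : 0 < c := by
    rw [hc]; exact_mod_cast Nat.choose_pos (by omega)
  have habs : c * |f x| ≤ 2 * (c * ∑ i ∈ Icc 1 M, |f (x + Q * ((s * i ^ 2 : ℕ) : ℤ))|) := by
    have h6 : c * f x = -(2 * ∑ i ∈ Icc 1 M, ((-1) ^ i * ((2 * M).choose (M + i) : ℝ)) *
        f (x + Q * ((s * i ^ 2 : ℕ) : ℤ))) := by linarith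
    have h7 : c * |f x| = |c * f x| := by rw [abs_mul, abs_of_pos hcpos]
    rw [h7, h6, abs_neg, abs_mul, abs_of_pos (by norm_num : (0:ℝ) < 2)]
    refine mul_le_mul_of_nonneg_left ?_ (by norm_num)
    refine (abs_sum_le_sum_abs _ _).trans ?_
    rw [mul_sum]
    refine sum_le_sum fun i _ => ?_
    rw [abs_mul, abs_mul, abs_pow, abs_neg, abs_one, one_pow, one_mul,
      abs_of_nonneg (by positivity : (0:ℝ) ≤ ((2 * M).choose (M + i) : ℝ))]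
    refine mul_le_mul_of_nonneg_right ?_ (abs_nonneg _)
    rw [hc]
    have := Nat.choose_le_centralBinom (M + i) M
    rw [Nat.centralBinom] at this
    exact_mod_cast this
  have habs2 : |f x| ≤ 2 * ∑ i ∈ Icc 1 M, |f (x + Q * ((s * i ^ 2 : ℕ) : ℤ))| := by
    have : c * |f x| ≤ c * (2 * ∑ i ∈ Icc 1 M, |f (x + Q * ((s * i ^ 2 : ℕ) : ℤ))|) := by
      linarith
    exact le_of_mul_le_mul_left this hcpos
  have hCS : (∑ i ∈ Icc 1 M, |f (x + Q * ((s * i ^ 2 : ℕ) : ℤ))|) ^ 2 ≤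
      (M : ℝ) * ∑ i ∈ Icc 1 M, f (x + Q * ((s * i ^ 2 : ℕ) : ℤ)) ^ 2 := by
    have h8 := sq_sum_le_card_mul_sum_sq (s := Icc 1 M)
      (f := fun i : ℕ => |f (x + Q * ((s * i ^ 2 : ℕ) : ℤ))|)
    simp only [Nat.card_Icc, add_tsub_cancel_right, sq_abs] at h8
    exact h8
  calc f x ^ 2 = |f x| ^ 2 := (sq_abs _).symm
    _ ≤ (2 * ∑ i ∈ Icc 1 M, |f (x + Q * ((s * i ^ 2 : ℕ) : ℤ))|) ^ 2 :=
        pow_le_pow_left₀ (abs_nonneg _) habs2 2
    _ = 4 * (∑ i ∈ Icc 1 M, |f (x + Q * ((s * i ^ 2 : ℕ) : ℤ))|) ^ 2 := by ring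
    _ ≤ 4 * ((M : ℝ) * ∑ i ∈ Icc 1 M, f (x + Q * ((s * i ^ 2 : ℕ) : ℤ)) ^ 2) :=
        mul_le_mul_of_nonneg_left hCS (by norm_num)
    _ = _ := by ring

/-- Extrapolation: a function killed by `B` on the windows to the right of `x` is bounded at `x`
by its square mean along `x + Q t`. -/
theorem extrap {M Q S : ℕ} (hM : 0 < M) (hQ : 0 < Q) (B : ℤ[X]) (hB : B ∣ (X ^ Q - 1) ^ M)
    (f : ℤ → ℝ) (x : ℤ)
    (h : ∀ y : ℤ, x ≤ y → y + B.natDegree ≤ x + Q * (S * M ^ 2) → act B f y = 0) :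
    (S : ℝ) * f x ^ 2 ≤ 4 * (M : ℝ) ^ 2 * ∑ t ∈ Icc 1 (S * M ^ 2), f (x + Q * t) ^ 2 := by
  have h1 : (S : ℝ) * f x ^ 2 = ∑ s ∈ Icc 1 S, f x ^ 2 := by
    simp [sum_const]
  have h2 : ∑ s ∈ Icc 1 S, f x ^ 2 ≤
      ∑ s ∈ Icc 1 S, 4 * (M : ℝ) * ∑ i ∈ Icc 1 M, f (x + Q * ((s * i ^ 2 : ℕ) : ℤ)) ^ 2 :=
    sum_le_sum fun s hs => l4_one (mem_Icc.mp hs).2 B hB f x h
  have h3 : ∀ i ∈ Icc 1 M, ∑ s ∈ Icc 1 S, f (x + Q * ((s * i ^ 2 : ℕ) : ℤ)) ^ 2 ≤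
      ∑ t ∈ Icc 1 (S * M ^ 2), f (x + Q * (t : ℤ)) ^ 2 := by
    intro i hi
    obtain ⟨hi1, hi2⟩ := mem_Icc.mp hi
    have hinj : Set.InjOn (fun s : ℕ => s * i ^ 2) (Icc 1 S : Finset ℕ) := by
      intro a _ b _ hab
      exact Nat.eq_of_mul_eq_mul_right (by positivity) hab
    rw [← sum_image (f := fun t : ℕ => f (x + Q * (t : ℤ)) ^ 2) (g := fun s : ℕ => s * i ^ 2) hinj]
    refine sum_le_sum_of_subset_of_nonneg ?_ fun t _ _ => sq_nonneg _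
    intro t ht
    obtain ⟨s, hs, rfl⟩ := mem_image.mp ht
    obtain ⟨hs1, hs2⟩ := mem_Icc.mp hs
    refine mem_Icc.mpr ⟨?_, Nat.mul_le_mul hs2 (Nat.pow_le_pow_left hi2 2)⟩
    exact Nat.mul_pos hs1 (by positivity)
  calc (S : ℝ) * f x ^ 2 = ∑ s ∈ Icc 1 S, f x ^ 2 := h1
    _ ≤ _ := h2
    _ = 4 * (M : ℝ) * ∑ i ∈ Icc 1 M, ∑ s ∈ Icc 1 S, f (x + Q * ((s * i ^ 2 : ℕ) : ℤ)) ^ 2 := by
        rw [← mul_sum, sum_comm]
    _ ≤ 4 * (M : ℝ) * ∑ i ∈ Icc 1 M, ∑ t ∈ Icc 1 (S * M ^ 2), f (x + Q * (t : ℤ)) ^ 2 :=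
        mul_le_mul_of_nonneg_left (sum_le_sum h3) (by positivity)
    _ = 4 * (M : ℝ) ^ 2 * ∑ t ∈ Icc 1 (S * M ^ 2), f (x + Q * t) ^ 2 := by
        rw [sum_const, Nat.card_Icc, add_tsub_cancel_right, nsmul_eq_mul]
        ring

end Pool.Agent.Lib.MP_efea25_an.LW
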