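import Pool.Agent.Lib.MP_efea25_an.LW.Sharp

/-!
The exact order of the largest multiplicity: for all large `D` some Littlewood polynomial of degree less than `D` has a zero
of multiplicity `≥ c log^2 D / log log D` at `1`; for all `m ≥ 2` multiplicity `m` is reached with `N ≤ exp (C sqrt (m log m))`
coefficients.
-/

set_option autoImplicit false

namespace Pool.Agent.Lib.MP_efea25_an.LW

open Polynomial Finset

theorem sharp_all : ∃ c : ℝ, 0 < c ∧ ∃ D₀ : ℕ, ∀ D ≥ D₀, ∃ (N : ℕ) (a : ℕ → ℤ),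
    2 ≤ N ∧ N ≤ D ∧ (∀ j, a j = 1 ∨ a j = -1) ∧
    c * Real.log D ^ 2 / Real.log (Real.log D) ≤
      ((∑ j ∈ range N, C (a j : ℝ) * X ^ j : ℝ[X]).rootMultiplicity 1 : ℝ) := by
  refine ⟨1 / 179776, by norm_num, ⌈Real.exp 3392⌉₊, fun D hD => ?_⟩
  have hD1 : Real.exp 3392 ≤ (D : ℝ) := (Nat.le_ceil _).trans (by exact_mod_cast hD)
  have hD0 : (0 : ℝ) < D := lt_of_lt_of_le (Real.exp_pos _) hD1
  have hlogD : 3392 ≤ Real.log D := (Real.le_log_iff_exp_le hD0).2 hD1
  have hex : ∃ K : ℕ, Real.log D < 53 * ((K * 2 ^ K : ℕ) : ℝ) := by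
    obtain ⟨K, hK⟩ := exists_nat_gt (Real.log D)
    refine ⟨K, hK.trans_le ?_⟩
    have h1 : K ≤ K * 2 ^ K := Nat.le_mul_of_pos_right _ (by positivity)
    have h2 : (K : ℝ) ≤ ((K * 2 ^ K : ℕ) : ℝ) := by exact_mod_cast h1
    have h3 : (0 : ℝ) ≤ ((K * 2 ^ K : ℕ) : ℝ) := by positivity
    linarith
  classical
  have hspec := Nat.find_spec hex
  have hmin := fun k (hk : k < Nat.find hex) => Nat.find_min hex hk
  set K' := Nat.find hex with hK'
  have hK5 : 5 ≤ K' := by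
    by_contra hcon
    push Not at hcon
    have h1 : K' * 2 ^ K' ≤ 4 * 2 ^ 4 :=
      Nat.mul_le_mul (by omega) (Nat.pow_le_pow_right (by norm_num) (by omega))
    have h2 : ((K' * 2 ^ K' : ℕ) : ℝ) ≤ 64 := by exact_mod_cast h1
    linarith
  obtain ⟨K, hKK⟩ : ∃ K, K' = K + 1 := ⟨K' - 1, by omega⟩
  have hK4 : 4 ≤ K := by omega
  have hlow := hmin K (by omega)
  rw [not_lt] at hlow
  rw [hKK] at hspec
  obtain ⟨N, a, hN0, ha, hmult, hlogN, hlogN2⟩ := sh_family K hK4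
  have hNR : (0 : ℝ) < N := by exact_mod_cast hN0
  have hn1 : 1 ≤ K * 2 ^ K := Nat.mul_pos (by omega) (by positivity)
  refine ⟨N, a, ?_, ?_, ha, ?_⟩
  · by_contra hcon
    have h1 : N = 1 := by omega
    rw [h1] at hlogN2
    have h2 : (1 : ℝ) ≤ ((K * 2 ^ K : ℕ) : ℝ) := by exact_mod_cast hn1
    rw [Nat.cast_one, Real.log_one] at hlogN2
    linarith
  · have h1 : Real.log N ≤ Real.log D := hlogN.trans hlow
    have h2 := (Real.log_le_log_iff hNR hD0).1 h1
    exact_mod_cast h2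
  · set x : ℝ := (2 : ℝ) ^ K with hx
    have hx0 : 0 < x := by positivity
    have hKR : (4 : ℝ) ≤ K := by exact_mod_cast hK4
    have e1 : ((K * 2 ^ K : ℕ) : ℝ) = K * x := by push_cast; rfl
    have e2 : (((K + 1) * 2 ^ (K + 1) : ℕ) : ℝ) = (K + 1) * (2 * x) := by
      push_cast
      rw [hx, pow_succ]
      ring
    rw [e1] at hlow
    rw [e2] at hspec
    have hup : Real.log D ≤ 212 * (K * x) := by
      have h1 : ((K : ℝ) + 1) * (2 * x) ≤ 4 * (K * x) := by nlinarith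
      linarith
    have hll : (K : ℝ) ≤ 2 * Real.log (Real.log D) := by
      have h1 : x ≤ Real.log D := by nlinarith
      have h2 : Real.log x ≤ Real.log (Real.log D) := Real.log_le_log hx0 h1
      rw [hx, Real.log_pow] at h2
      have h3 := Real.log_two_gt_d9
      nlinarith
    have hll0 : 0 < Real.log (Real.log D) := by linarith
    have hm1 : (K : ℝ) * x ^ 2 / 2 ≤
        ((∑ j ∈ range N, C (a j : ℝ) * X ^ j : ℝ[X]).rootMultiplicity 1 : ℝ) := by
      have h1 := sM_ge K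
      have h2 : K * (2 ^ K) ^ 2 ≤
          2 * (∑ j ∈ range N, C (a j : ℝ) * X ^ j : ℝ[X]).rootMultiplicity 1 := by omega
      have h3 : ((K * (2 ^ K) ^ 2 : ℕ) : ℝ) ≤
          ((2 * (∑ j ∈ range N, C (a j : ℝ) * X ^ j : ℝ[X]).rootMultiplicity 1 : ℕ) : ℝ) := by
        exact_mod_cast h2
      push_cast at h3
      rw [← hx] at h3
      linarith
    refine le_trans ?_ hm1
    rw [div_le_iff₀ hll0]
    have h4 : Real.log D ^ 2 ≤ (212 * (K * x)) ^ 2 := pow_le_pow_left₀ (by linarith) hup 2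
    calc 1 / 179776 * Real.log D ^ 2 ≤ 1 / 179776 * (212 * (K * x)) ^ 2 := by
          apply mul_le_mul_of_nonneg_left h4 (by norm_num)
      _ = K * x ^ 2 / 4 * K := by ring
      _ ≤ K * x ^ 2 / 4 * (2 * Real.log (Real.log D)) := by
          apply mul_le_mul_of_nonneg_left hll (by positivity)
      _ = K * x ^ 2 / 2 * Real.log (Real.log D) := by ring

theorem mult_all : ∃ c : ℝ, 0 < c ∧ ∀ m : ℕ, 2 ≤ m → ∃ (N : ℕ) (a : ℕ → ℤ),
    2 ≤ N ∧ (∀ j, a j = 1 ∨ a j = -1) ∧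
    m ≤ (∑ j ∈ range N, C (a j : ℝ) * X ^ j : ℝ[X]).rootMultiplicity 1 ∧
    Real.log N ≤ c * Real.sqrt (m * Real.log m) := by
  refine ⟨3392, by norm_num, fun m hm => ?_⟩
  have hmR : (2 : ℝ) ≤ m := by exact_mod_cast hm
  have hl2 := Real.log_two_gt_d9
  have hlm : 1 / 2 ≤ Real.log m := by
    have h1 : Real.log 2 ≤ Real.log m := Real.log_le_log (by norm_num) hmR
    linarith
  have hs1 : 1 ≤ Real.sqrt (m * Real.log m) := by
    rw [Real.one_le_sqrt]
    nlinarith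
  have hex : ∃ K : ℕ, 2 * m ≤ K * (2 ^ K) ^ 2 := by
    refine ⟨2 * m, Nat.le_mul_of_pos_right _ (by positivity)⟩
  classical
  have hspec := Nat.find_spec hex
  have hmin := fun k (hk : k < Nat.find hex) => Nat.find_min hex hk
  set K' := Nat.find hex with hK'
  have fin : ∀ K, 4 ≤ K → 2 * m ≤ K * (2 ^ K) ^ 2 →
      53 * ((K * 2 ^ K : ℕ) : ℝ) ≤ 3392 * Real.sqrt (m * Real.log m) → ∃ (N : ℕ) (a : ℕ → ℤ),
      2 ≤ N ∧ (∀ j, a j = 1 ∨ a j = -1) ∧
      m ≤ (∑ j ∈ range N, C (a j : ℝ) * X ^ j : ℝ[X]).rootMultiplicity 1 ∧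
      Real.log N ≤ 3392 * Real.sqrt (m * Real.log m) := by
    intro K hK4 h1 h2
    obtain ⟨N, a, hN0, ha, hmult, hlogN, hlogN2⟩ := sh_family K hK4
    have hn1 : 1 ≤ K * 2 ^ K := Nat.mul_pos (by omega) (by positivity)
    refine ⟨N, a, ?_, ha, ?_, hlogN.trans h2⟩
    · by_contra hcon
      have h1 : N = 1 := by omega
      rw [h1] at hlogN2
      have h2 : (1 : ℝ) ≤ ((K * 2 ^ K : ℕ) : ℝ) := by exact_mod_cast hn1
      rw [Nat.cast_one, Real.log_one] at hlogN2
      linarith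
    · have h3 := sM_ge K
      omega
  rcases Nat.lt_or_ge K' 5 with hsm | hbig
  · refine fin 4 le_rfl (hspec.trans ?_) ?_
    · exact Nat.mul_le_mul (by omega) (Nat.pow_le_pow_left
        (Nat.pow_le_pow_right (by norm_num) (by omega)) 2)
    · have e : ((4 * 2 ^ 4 : ℕ) : ℝ) = 64 := by norm_num
      rw [e]
      linarith
  · obtain ⟨K, hKK⟩ : ∃ K, K' = K + 1 := ⟨K' - 1, by omega⟩
    have hK4 : 4 ≤ K := by omega
    have hlow := hmin K (by omega)
    rw [not_le] at hlow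
    refine fin K' (by omega) hspec ?_
    rw [hKK]
    set x : ℝ := (2 : ℝ) ^ K with hx
    have hx0 : 0 < x := by positivity
    have hKR : (4 : ℝ) ≤ K := by exact_mod_cast hK4
    have e2 : (((K + 1) * 2 ^ (K + 1) : ℕ) : ℝ) = (K + 1) * (2 * x) := by
      push_cast
      rw [hx, pow_succ]
      ring
    rw [e2]
    have hlowR : (K : ℝ) * x ^ 2 < 2 * m := by
      have h1 : ((K * (2 ^ K) ^ 2 : ℕ) : ℝ) < ((2 * m : ℕ) : ℝ) := by exact_mod_cast hlow
      push_cast at h1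
      exact h1
    have hKlog : (K : ℝ) ≤ 2 * Real.log m := by
      have h1 : x ^ 2 < m := by nlinarith
      have h2 : Real.log (x ^ 2) ≤ Real.log m := Real.log_le_log (by positivity) h1.le
      rw [Real.log_pow, hx, Real.log_pow] at h2
      push_cast at h2
      nlinarith
    have h5 : ((K : ℝ) * x) ^ 2 ≤ 4 * (m * Real.log m) := by
      calc ((K : ℝ) * x) ^ 2 = K * x ^ 2 * K := by ring
        _ ≤ (2 * m) * (2 * Real.log m) :=
            mul_le_mul hlowR.le hKlog (by positivity) (by positivity)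
        _ = _ := by ring
    have h6 : (K : ℝ) * x ≤ 2 * Real.sqrt (m * Real.log m) := by
      have h7 : (2 * Real.sqrt (m * Real.log m)) ^ 2 = 4 * (m * Real.log m) := by
        rw [mul_pow, Real.sq_sqrt (by positivity)]
        norm_num
      rw [← h7] at h5
      exact le_of_sq_le_sq h5 (by positivity)
    have h8 : ((K : ℝ) + 1) * (2 * x) ≤ 4 * (K * x) := by nlinarith
    linarith

end Pool.Agent.Lib.MP_efea25_an.LW
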