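import Pool.Agent.Lib.MP_efea25_an.LW.Defs

/-! # L8: finite Fourier analysis -/

set_option autoImplicit false

namespace Pool.Agent.Lib.MP_efea25_an.LW

open Polynomial Finset
open scoped Nat

private lemma four_bound {N m i : ℕ} (hi : i < m) (a : Fin N → ℤ) (ha : ∀ j, a j = 1 ∨ a j = -1) :
    |∑ j : Fin N, a j * (((j : ℕ).descFactorial i : ℕ) : ℤ)| ≤ (N : ℤ) ^ m := by
  refine (abs_sum_le_sum_abs _ _).trans ?_
  have h1 : ∀ j : Fin N, |a j * (((j : ℕ).descFactorial i : ℕ) : ℤ)| ≤ (N : ℤ) ^ i := by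
    intro j
    have h2 : |a j| = 1 := by
      rcases ha j with h | h <;> rw [h] <;> simp
    rw [abs_mul, h2, one_mul, abs_of_nonneg (by positivity)]
    have h3 : (j : ℕ).descFactorial i ≤ N ^ i :=
      (Nat.descFactorial_le_pow _ _).trans (Nat.pow_le_pow_left j.2.le _)
    exact_mod_cast h3
  refine (Finset.sum_le_sum fun j _ => h1 j).trans ?_
  rw [Finset.sum_const, Finset.card_univ, Fintype.card_fin, nsmul_eq_mul]
  have h4 : N * N ^ i ≤ N ^ m := by
    rcases Nat.eq_zero_or_pos N with rfl | hN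
    · simp
    · calc N * N ^ i = N ^ (i + 1) := by ring
        _ ≤ N ^ m := Nat.pow_le_pow_right hN hi
  exact_mod_cast h4

private lemma four_geom {P : ℕ} (hP : 0 < P) {X : ℤ} (hX : X ≠ 0) (hXP : |X| < P) :
    ∑ k ∈ range P, Complex.exp (2 * Real.pi * Complex.I * X / P) ^ k = 0 := by
  set z := Complex.exp (2 * Real.pi * Complex.I * X / P) with hz
  have hP0 : (P : ℂ) ≠ 0 := by exact_mod_cast hP.ne'
  have hzP : z ^ P = 1 := by
    rw [hz, ← Complex.exp_nat_mul]
    rw [show (P : ℂ) * (2 * Real.pi * Complex.I * X / P) = X * (2 * Real.pi * Complex.I) by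
      field_simp]
    exact Complex.exp_int_mul_two_pi_mul_I X
  have hz1 : z ≠ 1 := by
    intro h
    rw [hz, Complex.exp_eq_one_iff] at h
    obtain ⟨n, hn⟩ := h
    have h1 : (X : ℂ) = n * P := by
      have h2 : (2 * Real.pi * Complex.I : ℂ) ≠ 0 := Complex.two_pi_I_ne_zero
      field_simp at hn
      have h3 : (2 * Real.pi * Complex.I : ℂ) * X = (2 * Real.pi * Complex.I : ℂ) * (n * P) := by
        linear_combination (2 * Real.pi * Complex.I : ℂ) * hn
      exact mul_left_cancel₀ h2 h3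
    have h2 : X = n * P := by exact_mod_cast h1
    have h3 : (P : ℤ) ∣ X := ⟨n, by rw [h2]; ring⟩
    exact hX (Int.eq_zero_of_abs_lt_dvd h3 hXP)
  have h := mul_neg_geom_sum z P
  rw [hzP, sub_self] at h
  exact (mul_eq_zero.mp h).resolve_left (sub_ne_zero.mpr hz1.symm)

theorem exists_signs {N m : ℕ} (δ : ℝ) (hδ : ((N : ℝ) ^ m + 1) ^ m * δ < 1)
    (h : ∀ G : ℝ[X], G.natDegree < m →
      -δ ≤ ∏ j ∈ range N, Real.cos (Real.pi * G.eval (j : ℝ))) (hm : 0 < m) (hN : 0 < N) :
    ∃ a : ℕ → ℤ, (∀ j, a j = 1 ∨ a j = -1) ∧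
      ∀ i < m, ∑ j ∈ range N, a j * (j.descFactorial i : ℤ) = 0 := by
  classical
  set P : ℕ := N ^ m + 1 with hP
  have hP0 : 0 < P := by omega
  have hPC : (P : ℂ) ≠ 0 := by exact_mod_cast hP0.ne'
  have hPR : (P : ℝ) ≠ 0 := by exact_mod_cast hP0.ne'
  set X : (Fin N → ℤ) → Fin m → ℤ := fun a i =>
    ∑ j : Fin N, a j * (((j : ℕ).descFactorial i : ℕ) : ℤ) with hX
  set T : Finset (Fin N → ℤ) := Fintype.piFinset fun _ => {1, -1} with hT
  set U : Finset (Fin m → ℕ) := Fintype.piFinset fun _ => range P with hU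
  have hTmem : ∀ a ∈ T, ∀ j, a j = 1 ∨ a j = -1 := by
    intro a ha j
    have := Fintype.mem_piFinset.mp ha j
    simpa using this
  by_contra hcon
  -- no vector of signs is good
  have hbad : ∀ a ∈ T, ∃ i, X a i ≠ 0 := by
    intro a ha
    by_contra hall
    push Not at hall
    apply hcon
    refine ⟨fun j => if hj : j < N then a ⟨j, hj⟩ else 1, fun j => ?_, fun i hi => ?_⟩
    · by_cases hj : j < N
      · simp only [dif_pos hj]
        exact hTmem a ha _
      · simp only [dif_neg hj]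
        exact Or.inl trivial
    · have h1 := hall ⟨i, hi⟩
      rw [hX] at h1
      simp only at h1
      rw [← h1, Finset.sum_range]
      refine Finset.sum_congr rfl fun j _ => ?_
      simp only [dif_pos j.2]
  set z : (Fin N → ℤ) → Fin m → ℂ := fun a i =>
    Complex.exp (2 * Real.pi * Complex.I * X a i / P) with hz
  have hzero : ∑ a ∈ T, ∑ k ∈ U, ∏ i, z a i ^ k i = 0 := by
    refine Finset.sum_eq_zero fun a ha => ?_
    rw [hU, ← Finset.prod_univ_sum (fun _ : Fin m => range P) (fun i k => z a i ^ k)]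
    obtain ⟨i, hi⟩ := hbad a ha
    refine Finset.prod_eq_zero (Finset.mem_univ i) ?_
    refine four_geom hP0 hi ?_
    have h1 := four_bound i.2 a (hTmem a ha)
    have h2 : ((P : ℕ) : ℤ) = (N : ℤ) ^ m + 1 := by rw [hP]; push_cast; ring
    rw [h2]
    simp only [hX]
    linarith
  -- the angles
  set θ : (Fin m → ℕ) → ℕ → ℝ := fun k j =>
    2 * Real.pi / P * ∑ i : Fin m, (k i : ℝ) * (j.descFactorial i : ℝ) with hθ
  have hsum : ∀ k : Fin m → ℕ, ∑ a ∈ T, ∏ i, z a i ^ k i =
      ((∏ j : Fin N, (2 * Real.cos (θ k j)) : ℝ) : ℂ) := by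
    intro k
    have h1 : ∀ a : Fin N → ℤ, ∏ i, z a i ^ k i =
        ∏ j : Fin N, Complex.exp (a j * ((θ k j : ℝ) * Complex.I)) := by
      intro a
      rw [← Complex.exp_sum]
      have h2 : ∀ i, z a i ^ k i = Complex.exp (k i * (2 * Real.pi * Complex.I * X a i / P)) := by
        intro i
        rw [hz, Complex.exp_nat_mul]
      simp_rw [h2]
      rw [← Complex.exp_sum]
      congr 1
      simp only [hθ, hX]
      push_cast
      simp_rw [Finset.mul_sum, Finset.sum_mul, Finset.sum_div, Finset.mul_sum]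
      rw [Finset.sum_comm]
      refine Finset.sum_congr rfl fun j _ => Finset.sum_congr rfl fun i _ => ?_
      ring
    simp_rw [h1]
    rw [hT, ← Finset.prod_univ_sum (fun _ : Fin N => ({1, -1} : Finset ℤ))
      (fun j s => Complex.exp (s * ((θ k j : ℝ) * Complex.I)))]
    push_cast
    refine Finset.prod_congr rfl fun j _ => ?_
    rw [Finset.sum_pair (by norm_num), Complex.two_cos]
    push_cast
    congr 2
    · ring
    · ring
  rw [Finset.sum_comm] at hzero
  simp_rw [hsum] at hzero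
  have hzero' : ∑ k ∈ U, ∏ j : Fin N, (2 * Real.cos (θ k j)) = 0 := by exact_mod_cast hzero
  have hzero2 : ∑ k ∈ U, ∏ j : Fin N, Real.cos (θ k j) = 0 := by
    have h1 : ∀ k : Fin m → ℕ, ∏ j : Fin N, (2 * Real.cos (θ k j)) =
        2 ^ N * ∏ j : Fin N, Real.cos (θ k j) := by
      intro k
      rw [Finset.prod_mul_distrib, Finset.prod_const, Finset.card_univ, Fintype.card_fin]
    simp_rw [h1] at hzero'
    rw [← Finset.mul_sum] at hzero'
    exact (mul_eq_zero.mp hzero').resolve_left (by positivity)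
  have hterm : ∀ k : Fin m → ℕ, -δ ≤ ∏ j : Fin N, Real.cos (θ k j) := by
    intro k
    have h1 := h (∑ i : Fin m, C (2 * (k i : ℝ) / P) * descPochhammer ℝ i) (by
      refine lt_of_le_of_lt (Polynomial.natDegree_sum_le_of_forall_le (n := m - 1) _ _ ?_)
        (by omega)
      intro i _
      refine (Polynomial.natDegree_C_mul_le _ _).trans ?_
      rw [descPochhammer_natDegree]
      have := i.2
      omega)
    rw [Finset.prod_range] at h1
    refine h1.trans (le_of_eq (Finset.prod_congr rfl fun j _ => ?_))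
    congr 1
    rw [Polynomial.eval_finsetSum, hθ]
    simp only [Polynomial.eval_mul, Polynomial.eval_C, descPochhammer_eval_eq_descFactorial]
    rw [Finset.mul_sum, Finset.mul_sum]
    refine Finset.sum_congr rfl fun i _ => ?_
    ring
  have h0 : (0 : Fin m → ℕ) ∈ U := by
    rw [hU, Fintype.mem_piFinset]
    intro i
    rw [Finset.mem_range]
    exact hP0
  have h0' : ∏ j : Fin N, Real.cos (θ 0 j) = 1 := by
    refine Finset.prod_eq_one fun j _ => ?_
    simp [hθ]
  have hUcard : U.card = P ^ m := by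
    rw [hU, Fintype.card_piFinset, Finset.prod_const, Finset.card_range, Finset.card_univ,
      Fintype.card_fin]
  rw [← Finset.add_sum_erase U _ h0, h0'] at hzero2
  have h3 : ((U.erase 0).card : ℝ) * (-δ) ≤ ∑ k ∈ U.erase 0, ∏ j : Fin N, Real.cos (θ k j) := by
    rw [← nsmul_eq_mul]
    exact Finset.card_nsmul_le_sum _ _ _ fun k _ => hterm k
  have h4 : ((U.erase 0).card : ℝ) ≤ ((N : ℝ) ^ m + 1) ^ m := by
    have h5 : (U.erase 0).card ≤ P ^ m := by
      rw [← hUcard]
      exact Finset.card_le_card (Finset.erase_subset _ _)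
    have h6 : (((P ^ m : ℕ)) : ℝ) = ((N : ℝ) ^ m + 1) ^ m := by
      rw [hP]; push_cast; ring
    rw [← h6]
    exact_mod_cast h5
  have h7 : (0 : ℝ) ≤ ((U.erase 0).card : ℝ) := Nat.cast_nonneg _
  rcases le_or_gt 0 δ with hδ0 | hδ0
  · have h8 : ((U.erase 0).card : ℝ) * δ ≤ ((N : ℝ) ^ m + 1) ^ m * δ :=
      mul_le_mul_of_nonneg_right h4 hδ0
    linarith
  · nlinarith

end Pool.Agent.Lib.MP_efea25_an.LW
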