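import Pool.Agent.Lib.MP_efea25_an.LW.Defs

/-! L9: the multiplicity of the root `1` -/

set_option autoImplicit false

namespace Pool.Agent.Lib.MP_efea25_an.LW

open Polynomial Finset

theorem rootMultiplicity_ge {N m : ℕ} (hN : 0 < N) (a : ℕ → ℤ) (ha : ∀ j, a j = 1 ∨ a j = -1)
    (h : ∀ i < m, ∑ j ∈ range N, a j * (j.descFactorial i : ℤ) = 0) :
    m ≤ (∑ j ∈ range N, C (a j : ℝ) * X ^ j : ℝ[X]).rootMultiplicity 1 := by
  rcases m with _ | k
  · exact Nat.zero_le _
  have hne : (∑ j ∈ range N, C (a j : ℝ) * X ^ j : ℝ[X]) ≠ 0 := by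
    intro h0
    have h1 := congrArg (fun p : ℝ[X] => p.coeff 0) h0
    simp only [finsetSum_coeff, coeff_C_mul, coeff_X_pow, coeff_zero] at h1
    rw [Finset.sum_eq_single 0] at h1
    · rw [if_pos rfl, mul_one] at h1
      have h2 : a 0 = 0 := by exact_mod_cast h1
      rcases ha 0 with h3 | h3 <;> omega
    · intro j _ hj
      rw [if_neg (Ne.symm hj), mul_zero]
    · intro h2
      exact absurd (mem_range.2 hN) h2
  refine lt_rootMultiplicity_of_isRoot_iterate_derivative hne fun i hi => ?_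
  have h1 : derivative^[i] (∑ j ∈ range N, C (a j : ℝ) * X ^ j : ℝ[X]) =
      ∑ j ∈ range N, C (a j : ℝ) * (((j.descFactorial i : ℕ) : ℝ[X]) * X ^ (j - i)) := by
    rw [iterate_derivative_sum]
    refine Finset.sum_congr rfl fun j _ => ?_
    rw [iterate_derivative_C_mul, iterate_derivative_X_pow_eq_natCast_mul]
  rw [IsRoot.def, h1, eval_finsetSum]
  have h2 : ∀ j ∈ range N, eval 1 (C (a j : ℝ) * (((j.descFactorial i : ℕ) : ℝ[X]) *
      X ^ (j - i))) = ((a j * (j.descFactorial i : ℤ) : ℤ) : ℝ) := by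
    intro j _
    rw [eval_mul, eval_mul, eval_C, eval_natCast, eval_pow, eval_X, one_pow, mul_one]
    push_cast
    ring
  rw [Finset.sum_congr rfl h2, ← Int.cast_sum, h i (by omega), Int.cast_zero]

end Pool.Agent.Lib.MP_efea25_an.LW
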