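import Pool.Agent.Lib.MP_efea25_an.LW.Defs
import Pool.Agent.Lib.MP_efea25_an.LW.Act

/-! Parity: if all windows of `B` in `[0, N)` annihilate `nn`, then the sum of `nn` over `[0, N)` is
even. -/

set_option autoImplicit false

namespace Pool.Agent.Lib.MP_efea25_an.LW

open Polynomial Finset fwdDiff_aux
open scoped Nat

private theorem par_dvd {M Q s N : ℕ} (B : ℤ[X])
    (hB : B ∣ (X ^ Q - 1) ^ M) (hs : M + 1 ≤ 2 ^ s) (hN : Q * 2 ^ s ∣ N) :
    B.map (Int.castRingHom (ZMod 2)) ∣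
      (∑ j ∈ range N, X ^ j : ℤ[X]).map (Int.castRingHom (ZMod 2)) := by
  have : Fact (Nat.Prime 2) := ⟨Nat.prime_two⟩
  have h1 : B.map (Int.castRingHom (ZMod 2)) ∣ ((X : (ZMod 2)[X]) ^ Q - 1) ^ M := by
    have := Polynomial.map_dvd (Int.castRingHom (ZMod 2)) hB
    simpa using this
  have h2 : ((X : (ZMod 2)[X]) - 1) ∣ (X : (ZMod 2)[X]) ^ Q - 1 := by
    simpa using sub_dvd_pow_sub_pow (X : (ZMod 2)[X]) 1 Q
  have h3 : B.map (Int.castRingHom (ZMod 2)) * ((X : (ZMod 2)[X]) - 1) ∣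
      ((X : (ZMod 2)[X]) ^ Q - 1) ^ (M + 1) := by
    rw [pow_succ]
    exact mul_dvd_mul h1 h2
  have h4 : ((X : (ZMod 2)[X]) ^ Q - 1) ^ (2 ^ s) = X ^ (Q * 2 ^ s) - 1 := by
    rw [sub_pow_char_pow, one_pow, pow_mul]
  have h5 : (X : (ZMod 2)[X]) ^ (Q * 2 ^ s) - 1 ∣ (X : (ZMod 2)[X]) ^ N - 1 := by
    obtain ⟨k, rfl⟩ := hN
    rw [pow_mul (X : (ZMod 2)[X]) (Q * 2 ^ s) k]
    simpa using sub_dvd_pow_sub_pow ((X : (ZMod 2)[X]) ^ (Q * 2 ^ s)) 1 k
  have h6 : (∑ j ∈ range N, X ^ j : ℤ[X]).map (Int.castRingHom (ZMod 2)) *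
      ((X : (ZMod 2)[X]) - 1) = (X : (ZMod 2)[X]) ^ N - 1 := by
    rw [Polynomial.map_sum]
    simp only [Polynomial.map_pow, Polynomial.map_X]
    exact geom_sum_mul _ _
  have h7 : B.map (Int.castRingHom (ZMod 2)) * ((X : (ZMod 2)[X]) - 1) ∣
      (∑ j ∈ range N, X ^ j : ℤ[X]).map (Int.castRingHom (ZMod 2)) *
      ((X : (ZMod 2)[X]) - 1) := by
    rw [h6]
    exact (h3.trans (pow_dvd_pow _ hs)).trans (h4 ▸ h5)
  exact (mul_dvd_mul_iff_right (X_sub_C_ne_zero (1 : ZMod 2))).1 (by simpa using h7)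

theorem parity {M Q s N : ℕ} (hQ : 0 < Q) (B : ℤ[X]) (h1 : B.Monic)
    (hB : B ∣ (X ^ Q - 1) ^ M) (hs : M + 1 ≤ 2 ^ s) (hN : Q * 2 ^ s ∣ N) (nn : ℤ → ℤ)
    (hz : ∀ y : ℤ, 0 ≤ y → y + B.natDegree < N → act B nn y = 0) :
    Even (∑ j ∈ range N, nn j) := by
  have _ := hQ
  rcases Nat.eq_zero_or_pos N with hN0 | hN0
  · subst hN0
    simp
  set G : ℤ[X] := ∑ j ∈ range N, X ^ j with hG
  have hdvd := par_dvd B hB hs hN
  rw [← hG] at hdvd
  have hmod : (G %ₘ B).map (Int.castRingHom (ZMod 2)) = 0 := by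
    rw [Polynomial.map_modByMonic _ h1]
    exact (Polynomial.modByMonic_eq_zero_iff_dvd (h1.map _)).2 hdvd
  have hC : C (2 : ℤ) ∣ G %ₘ B := by
    rw [Polynomial.C_dvd_iff_dvd_coeff]
    intro i
    have h2 := congrArg (fun p => Polynomial.coeff p i) hmod
    simp only [Polynomial.coeff_map, Polynomial.coeff_zero, eq_intCast] at h2
    exact_mod_cast (ZMod.intCast_zmod_eq_zero_iff_dvd _ 2).1 h2
  obtain ⟨H, hH⟩ := hC
  have hGe : G = (G /ₘ B) * B + C (2 : ℤ) * H := by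
    rw [← hH, mul_comm (G /ₘ B) B, add_comm]
    exact (Polynomial.modByMonic_add_div G B).symm
  have hsum : act G nn 0 = ∑ j ∈ range N, nn j := by
    have h3 : act G nn = ∑ j ∈ range N, act (X ^ j) nn := by
      rw [hG]
      simp only [act, map_sum, LinearMap.sum_apply]
    rw [h3, Finset.sum_apply]
    apply Finset.sum_congr rfl
    intro j _
    rw [act_X_pow, zero_add]
  have hGdeg : G.natDegree ≤ N - 1 := by
    rw [hG]
    apply Polynomial.natDegree_sum_le_of_forall_le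
    intro j hj
    rw [Polynomial.natDegree_X_pow]
    have := Finset.mem_range.1 hj
    omega
  have hfirst : act ((G /ₘ B) * B) nn 0 = 0 := by
    rw [act_mul]
    by_cases hq : G /ₘ B = 0
    · rw [hq]
      simp [act]
    · have hdeg : B.natDegree ≤ G.natDegree := by
        by_contra hlt
        apply hq
        rw [Polynomial.divByMonic_eq_zero_iff h1]
        exact Polynomial.degree_lt_degree (by omega)
      have hqd : (G /ₘ B).natDegree = G.natDegree - B.natDegree :=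
        Polynomial.natDegree_divByMonic G h1
      rw [act_congr (G /ₘ B) (act B nn) 0 0]
      · simp [act]
      · intro y hy0 hy1
        rw [hz y hy0]
        · rfl
        · rw [hqd] at hy1
          have h4 : ((G.natDegree - B.natDegree : ℕ) : ℤ) = G.natDegree - B.natDegree := by
            push_cast [Nat.cast_sub hdeg]
            ring
          rw [h4] at hy1
          omega
  have hsecond : act (C (2 : ℤ) * H) nn 0 = 2 * act H nn 0 := by
    rw [act_mul]
    simp only [act, Polynomial.aeval_C]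
    simp
  rw [← hsum, hGe, act_add]
  rw [Pi.add_apply, hfirst, hsecond, zero_add]
  exact even_two_mul _

end Pool.Agent.Lib.MP_efea25_an.LW
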