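import Pool.Agent.Lib.MP_efea25_an.LW.Left

/-! The propagation: from one long interval to all windows in `[0, N)`. -/

set_option autoImplicit false

namespace Pool.Agent.Lib.MP_efea25_an.LW

open Polynomial Finset fwdDiff_aux

/-- A sum of nonnegative numbers over different integers in `[0, N)`. -/
private theorem l6_sum {N m : ℕ} (g : ℤ → ℝ) (hg : ∀ y, 0 ≤ g y) (φ : ℕ → ℤ)
    (hφ : Function.Injective φ) (h : ∀ t ∈ Icc 1 m, 0 ≤ φ t ∧ φ t < N) :
    ∑ t ∈ Icc 1 m, g (φ t) ≤ ∑ j ∈ range N, g j := by
  have h1 : ∑ t ∈ Icc 1 m, g (φ t) = ∑ j ∈ (Icc 1 m).image (fun t => (φ t).toNat), g j := by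
    rw [Finset.sum_image]
    · refine Finset.sum_congr rfl fun t ht => ?_
      rw [Int.toNat_of_nonneg (h t ht).1]
    · intro t ht t' ht' he
      apply hφ
      have h2 := (h t ht).1
      have h3 := (h t' ht').1
      have he' : (φ t).toNat = (φ t').toNat := he
      omega
  rw [h1]
  apply Finset.sum_le_sum_of_subset_of_nonneg
  · intro j hj
    obtain ⟨t, ht, rfl⟩ := Finset.mem_image.mp hj
    have h2 := (h t ht).1
    have h3 := (h t ht).2
    rw [Finset.mem_range]
    omega
  · intro j _ _
    exact hg j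

theorem all_windows {M Q S N : ℕ} (hM : 0 < M) (hQ : 0 < Q) (B : ℤ[X])
    (hB : B ∣ (X ^ Q - 1) ^ M) (h0 : IsUnit (B.coeff 0)) (h1 : B.Monic) (R : ℤ → ℝ)
    (nn : ℤ → ℤ) (hR : ∀ x, act B R x = 0) (hF : ∀ x, |R x - nn x| ≤ 1 / 2)
    (hlen : B.natDegree ≤ Q * (S * M ^ 2))
    (hsum : 16 * (M : ℝ) ^ 2 * ∑ j ∈ range N, (R j - nn j) ^ 2 < S)
    (u : ℕ) (hu : u + Q * (S * M ^ 2) < N)
    (hz : ∀ y : ℤ, u ≤ y → y + B.natDegree ≤ u + Q * (S * M ^ 2) →
      act B (fun y => R y - nn y) y = 0)
    (y : ℤ) (hy : 0 ≤ y) (hy' : y + B.natDegree < N) :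
    act B (fun y => R y - nn y) y = 0 := by
  have hu' : (u : ℤ) + Q * (S * M ^ 2) < N := by exact_mod_cast hu
  -- `Q * t` is between `0` and the length
  have hQt : ∀ t ∈ Icc 1 (S * M ^ 2), 0 ≤ (Q : ℤ) * t ∧ (Q : ℤ) * t ≤ Q * (S * M ^ 2) := by
    intro t ht
    rw [Finset.mem_Icc] at ht
    have h2 : (t : ℤ) ≤ S * M ^ 2 := by exact_mod_cast ht.2
    exact ⟨by positivity, mul_le_mul_of_nonneg_left h2 (by positivity)⟩
  have hinj : ∀ x : ℤ, Function.Injective (fun t : ℕ => x + (Q : ℤ) * t) := by
    intro x t t' he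
    have he' : x + (Q : ℤ) * t = x + (Q : ℤ) * t' := he
    have h2 : (Q : ℤ) * t = (Q : ℤ) * t' := by linarith
    have h3 : (Q : ℤ) ≠ 0 := by exact_mod_cast hQ.ne'
    exact_mod_cast mul_left_cancel₀ h3 h2
  have hinj' : ∀ x : ℤ, Function.Injective (fun t : ℕ => x - (Q : ℤ) * t) := by
    intro x t t' he
    have he' : x - (Q : ℤ) * t = x - (Q : ℤ) * t' := he
    apply hinj x
    show x + (Q : ℤ) * t = x + (Q : ℤ) * t'
    linarith
  -- to the left
  have left : ∀ k : ℕ, ∀ y : ℤ, (u : ℤ) - k ≤ y → 0 ≤ y →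
      y + B.natDegree ≤ u + Q * (S * M ^ 2) → act B (fun y => R y - nn y) y = 0 := by
    intro k
    induction k with
    | zero =>
      intro y h2 _ h3
      exact hz y (by simpa using h2) h3
    | succ k ih =>
      intro y h2 h3 h4
      by_cases h5 : (u : ℤ) - k ≤ y
      · exact ih y h5 h3 h4
      · have h6 : y = u - (k + 1 : ℕ) := by
          push_cast at h2 ⊢
          omega
        have h6' : y < u := by
          rw [h6]
          push_cast
          omega
        refine ext_left hM hQ B hB h0 R nn hR hF y hlen ?_ ?_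
        · refine lt_of_le_of_lt (mul_le_mul_of_nonneg_left ?_ (by positivity)) hsum
          refine l6_sum (fun z => (R z - nn z) ^ 2) (fun z => sq_nonneg _)
            (fun t => y + (Q : ℤ) * t) (hinj y) ?_
          intro t ht
          have h7 := hQt t ht
          exact ⟨by linarith [h7.1], by linarith [h7.2]⟩
        · intro z hz1 hz2
          apply ih z
          · rw [h6] at hz1
            push_cast at hz1
            omega
          · linarith
          · linarith
  -- to the right
  have right : ∀ k : ℕ, ∀ y : ℤ, 0 ≤ y → y + B.natDegree ≤ u + Q * (S * M ^ 2) + k →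
      y + B.natDegree < N → act B (fun y => R y - nn y) y = 0 := by
    intro k
    induction k with
    | zero =>
      intro y h2 h3 _
      exact left u y (by linarith) h2 (by simpa using h3)
    | succ k ih =>
      intro y h2 h3 h4
      by_cases h5 : y + B.natDegree ≤ u + Q * (S * M ^ 2) + k
      · exact ih y h2 h5 h4
      · have h6 : y + B.natDegree = u + Q * (S * M ^ 2) + k + 1 := by
          push_cast at h3
          omega
        have hk : (0 : ℤ) ≤ k := Int.natCast_nonneg k
        have hu0 : (0 : ℤ) ≤ u := Int.natCast_nonneg u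
        have h7 := ext_right hM hQ B hB h0 h1 R nn hR hF (y + B.natDegree) hlen ?_ ?_
        · rw [add_sub_cancel_right] at h7
          exact h7
        · refine lt_of_le_of_lt (mul_le_mul_of_nonneg_left ?_ (by positivity)) hsum
          refine l6_sum (fun z => (R z - nn z) ^ 2) (fun z => sq_nonneg _)
            (fun t => y + B.natDegree - (Q : ℤ) * t) (hinj' _) ?_
          intro t ht
          have h7 := hQt t ht
          refine ⟨?_, by linarith [h7.1]⟩
          linarith [h7.2]
        · intro z hz1 hz2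
          apply ih z
          · linarith
          · linarith
          · linarith
  refine right (N : ℕ) y hy ?_ hy'
  have h2 : (0 : ℤ) ≤ u + Q * (S * M ^ 2) := by positivity
  linarith

end Pool.Agent.Lib.MP_efea25_an.LW
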