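import Pool.Agent.Lib.MP_efea25_an.LW.Act
import Pool.Agent.Lib.MP_efea25_an.LW.Prop
import Pool.Agent.Lib.MP_efea25_an.LW.Par
import Pool.Agent.Lib.MP_efea25_an.LW.Four
import Pool.Agent.Lib.MP_efea25_an.LW.Mult

/-! The key lemma: the products of cosines are not very negative, and the engine: from an integer
polynomial `B` divisible by `(X - 1) ^ m`, dividing `(X ^ Q - 1) ^ m` and with small coefficients
to a Littlewood polynomial with a zero of multiplicity at least `m` at `1`. -/

set_option autoImplicit false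

namespace Pool.Agent.Lib.MP_efea25_an.LW

open Polynomial Finset fwdDiff_aux
open scoped Nat

private theorem key_cos (x : ℝ) (n : ℤ) :
    Real.cos (Real.pi * x) = (-1) ^ n * Real.cos (Real.pi * (x - n)) := by
  have h : Real.pi * x = Real.pi * (x - n) + n * Real.pi := by ring
  rw [h, Real.cos_add_int_mul_pi]

private theorem key_cos_nonneg (x : ℝ) (hx : |x| ≤ 1 / 2) : 0 ≤ Real.cos (Real.pi * x) := by
  have h := abs_le.1 hx
  refine Real.cos_nonneg_of_neg_pi_div_two_le_of_le ?_ ?_
  · nlinarith [Real.pi_pos]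
  · nlinarith [Real.pi_pos]

private theorem key_cos_le (x : ℝ) (hx : |x| ≤ 1 / 2) :
    Real.cos (Real.pi * x) ≤ Real.exp (-(2 * x ^ 2)) := by
  have hpi := Real.pi_pos
  have h1 : |Real.pi * x| ≤ Real.pi := by
    rw [abs_mul, abs_of_pos hpi]
    nlinarith
  have h3 : Real.cos (Real.pi * x) ≤ 1 - 2 / Real.pi ^ 2 * (Real.pi * x) ^ 2 :=
    Real.cos_le_one_sub_mul_cos_sq h1
  have h4 : 2 / Real.pi ^ 2 * (Real.pi * x) ^ 2 = 2 * x ^ 2 := by
    field_simp
  rw [h4] at h3
  have h5 := Real.add_one_le_exp (-(2 * x ^ 2))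
  linarith

/-- Blocks with a bad point cost something. -/
private theorem key_blocks (f : ℕ → ℝ) (l : ℕ) (c : ℝ) (b : ℕ)
    (h : ∀ i < b, ∃ t < l, c ≤ f (i * l + t) ^ 2) :
    b * c ≤ ∑ j ∈ range (b * l), f j ^ 2 := by
  induction b with
  | zero => simp
  | succ b ih =>
    have h1 := ih fun i hi => h i (by omega)
    obtain ⟨t, ht, hc⟩ := h b (by omega)
    rw [add_mul, one_mul, sum_range_add]
    have h2 : c ≤ ∑ x ∈ range l, f (b * l + x) ^ 2 :=
      hc.trans (single_le_sum (f := fun x => f (b * l + x) ^ 2) (fun _ _ => sq_nonneg _)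
        (mem_range.2 ht))
    push_cast
    linarith

theorem key {m Q S S₀ K r N : ℕ} (B : ℤ[X]) (hm : 0 < m) (hQ : 0 < Q) (h1 : B.Monic)
    (h0 : IsUnit (B.coeff 0)) (hdvd : (X - 1) ^ m ∣ B) (hB : B ∣ (X ^ Q - 1) ^ m)
    (hK : ∑ i ∈ range (B.natDegree + 1), |B.coeff i| ≤ (K : ℤ)) (hr : m + 1 ≤ 2 ^ r)
    (hN : Q * 2 ^ r ∣ N) (hS0 : 0 < S₀) (hS : 16 * m ^ 2 * S₀ ≤ S)
    (hb : (Q * (S * m ^ 2) + 1) * (S₀ * K ^ 2 + 1) ≤ N) (G : ℝ[X]) (hG : G.natDegree < m) :
    -Real.exp (-(2 * S₀)) ≤ ∏ j ∈ range N, Real.cos (Real.pi * G.eval (j : ℝ)) := by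
  classical
  set R : ℤ → ℝ := fun y => G.eval (y : ℝ) with hRdef
  set nn : ℤ → ℤ := fun y => round (R y) with hnn
  have hF : ∀ x, |R x - nn x| ≤ 1 / 2 := fun x => abs_sub_round (R x)
  have hR : ∀ x, act B R x = 0 := fun x => act_poly_eq_zero G hG B hdvd x
  -- `K` is positive
  have hK1 : 1 ≤ K := by
    have h2 : (1 : ℤ) ≤ ∑ i ∈ range (B.natDegree + 1), |B.coeff i| := by
      have h3 : |B.coeff B.natDegree| ≤ ∑ i ∈ range (B.natDegree + 1), |B.coeff i| :=
        single_le_sum (f := fun i => |B.coeff i|) (fun _ _ => abs_nonneg _)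
          (mem_range.2 (Nat.lt_succ_self _))
      rw [h1.coeff_natDegree, abs_one] at h3
      exact h3
    have h4 := h2.trans hK
    exact_mod_cast h4
  have hK0 : (0 : ℝ) < K := by exact_mod_cast hK1
  have hprod : ∏ j ∈ range N, Real.cos (Real.pi * G.eval (j : ℝ)) =
      (∏ j ∈ range N, (-1 : ℝ) ^ nn j) *
        ∏ j ∈ range N, Real.cos (Real.pi * (R j - nn j)) := by
    rw [← prod_mul_distrib]
    refine prod_congr rfl fun j _ => ?_
    have h2 : G.eval (j : ℝ) = R j := by simp [hRdef]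
    rw [h2]
    exact key_cos _ _
  have hsign : (∏ j ∈ range N, (-1 : ℝ) ^ nn j) = (-1) ^ ∑ j ∈ range N, nn j := by
    have h2 : ∀ N : ℕ, (∏ j ∈ range N, (-1 : ℝ) ^ nn j) = (-1) ^ ∑ j ∈ range N, nn j := by
      intro N
      induction N with
      | zero => simp
      | succ N ih => rw [prod_range_succ, sum_range_succ, ih, zpow_add₀ (by norm_num)]
    exact h2 N
  have hcos0 : 0 ≤ ∏ j ∈ range N, Real.cos (Real.pi * (R j - nn j)) :=
    prod_nonneg fun j _ => key_cos_nonneg _ (hF j)
  rw [hprod, hsign]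
  by_cases hcase : (S₀ : ℝ) ≤ ∑ j ∈ range N, (R j - nn j) ^ 2
  · -- large deviation: the product is small
    have h2 : ∏ j ∈ range N, Real.cos (Real.pi * (R j - nn j)) ≤ Real.exp (-(2 * S₀)) := by
      calc ∏ j ∈ range N, Real.cos (Real.pi * (R j - nn j))
          ≤ ∏ j ∈ range N, Real.exp (-(2 * (R j - nn j) ^ 2)) :=
            prod_le_prod (fun j _ => key_cos_nonneg _ (hF j)) fun j _ => key_cos_le _ (hF j)
        _ = Real.exp (-(2 * ∑ j ∈ range N, (R j - nn j) ^ 2)) := by
            rw [← Real.exp_sum, sum_neg_distrib, mul_sum]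
        _ ≤ Real.exp (-(2 * S₀)) := by
            refine Real.exp_le_exp.2 ?_
            linarith
    rcases Int.even_or_odd (∑ j ∈ range N, nn j) with he | ho
    · rw [he.neg_one_zpow, one_mul]
      have := Real.exp_pos (-(2 * (S₀ : ℝ)))
      linarith
    · rw [ho.neg_one_zpow]
      linarith
  · push Not at hcase
    have heven : Even (∑ j ∈ range N, nn j) := by
      -- integrality
      have hint : ∀ y, act B (fun y => R y - nn y) y = -((act B nn y : ℤ) : ℝ) := by
        intro y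
        have h2 := congrFun (act_sub_right B R fun y => (nn y : ℝ)) y
        rw [Pi.sub_apply, hR, zero_sub, act_intCast] at h2
        exact h2
      -- the good block
      set l : ℕ := Q * (S * m ^ 2) + 1 with hl
      obtain ⟨i, hi, hgood⟩ : ∃ i < S₀ * K ^ 2 + 1, ∀ t < l,
          (R ((i * l + t : ℕ) : ℤ) - nn ((i * l + t : ℕ) : ℤ)) ^ 2 < 1 / (K : ℝ) ^ 2 := by
        by_contra hcon
        push Not at hcon
        have h2 := key_blocks (fun j => R (j : ℤ) - nn (j : ℤ)) l (1 / (K : ℝ) ^ 2)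
          (S₀ * K ^ 2 + 1) fun i hi => by
            obtain ⟨t, ht, hc⟩ := hcon i hi
            exact ⟨t, ht, hc⟩
        have h3 : ∑ j ∈ range ((S₀ * K ^ 2 + 1) * l), (R (j : ℤ) - nn (j : ℤ)) ^ 2 ≤
            ∑ j ∈ range N, (R (j : ℤ) - nn (j : ℤ)) ^ 2 := by
          refine sum_le_sum_of_subset_of_nonneg ?_ fun _ _ _ => sq_nonneg _
          refine range_subset_range.2 ?_
          rw [mul_comm]; exact hb
        have h4 : (S₀ : ℝ) < ((S₀ * K ^ 2 + 1 : ℕ) : ℝ) * (1 / (K : ℝ) ^ 2) := by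
          push_cast
          have h5 : ((S₀ : ℝ) * (K : ℝ) ^ 2 + 1) * (1 / (K : ℝ) ^ 2) =
              S₀ + 1 / (K : ℝ) ^ 2 := by
            field_simp
          rw [h5]
          have : 0 < 1 / (K : ℝ) ^ 2 := by positivity
          linarith
        linarith
      have hgood' : ∀ y : ℤ, ((i * l : ℕ) : ℤ) ≤ y → y ≤ ((i * l : ℕ) : ℤ) + (l - 1 : ℕ) →
          |R y - nn y| < 1 / K := by
        intro y hy1 hy2
        obtain ⟨t, ht⟩ := Int.eq_ofNat_of_zero_le (sub_nonneg.2 hy1)
        have ht' : t < l := by omega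
        have h2 := hgood t ht'
        have h3 : ((i * l + t : ℕ) : ℤ) = y := by
          rw [Nat.cast_add]; omega
        rw [h3] at h2
        have h4 : (1 : ℝ) / (K : ℝ) ^ 2 = (1 / K) ^ 2 := by rw [div_pow, one_pow]
        rw [h4] at h2
        have h5 : |R y - nn y| < |(1 : ℝ) / K| := sq_lt_sq.1 h2
        rwa [abs_of_pos (by positivity : (0 : ℝ) < 1 / K)] at h5
      have hm2 : (0 : ℝ) < m := by exact_mod_cast hm
      have hSpos : 0 < S := lt_of_lt_of_le (by positivity) hS
      -- all windows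
      have hwin : ∀ y : ℤ, 0 ≤ y → y + B.natDegree < N → act B (fun y => R y - nn y) y = 0 := by
        refine fun y hy hy' => all_windows (S := S) hm hQ B hB h0 h1 R nn hR hF ?_ ?_ (i * l) ?_ ?_ y hy hy'
        · -- the degree
          have h2 : B.natDegree ≤ Q * m := by
            have h3 : ((X ^ Q - 1) ^ m : ℤ[X]).Monic := by
              have h4 := (monic_X_pow_sub_C (1 : ℤ) hQ.ne').pow m
              rwa [C_1] at h4
            have h5 := natDegree_le_of_dvd hB h3.ne_zero
            have h6 : ((X ^ Q - 1) ^ m : ℤ[X]).natDegree = m * Q := by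
              have h7 := natDegree_X_pow_sub_C (R := ℤ) (n := Q) (r := 1)
              rw [C_1] at h7
              rw [natDegree_pow, h7]
            rw [h6] at h5
            linarith
          refine h2.trans (Nat.mul_le_mul_left _ ?_)
          calc m = 1 * m ^ 1 := by ring
            _ ≤ S * m ^ 2 := Nat.mul_le_mul hSpos (Nat.pow_le_pow_right hm (by norm_num))
        · have h2 : 16 * (m : ℝ) ^ 2 * ∑ j ∈ range N, (R j - nn j) ^ 2 <
              16 * (m : ℝ) ^ 2 * S₀ := mul_lt_mul_of_pos_left hcase (by positivity)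
          have h3 : 16 * (m : ℝ) ^ 2 * S₀ ≤ S := by exact_mod_cast hS
          linarith
        · -- the block is inside
          have h2 : (i + 1) * l ≤ (S₀ * K ^ 2 + 1) * l := Nat.mul_le_mul_right _ hi
          have h3 : (S₀ * K ^ 2 + 1) * l ≤ N := by rw [mul_comm]; exact hb
          have h4 : (i + 1) * l = i * l + l := by ring
          omega
        · intro z hz1 hz2
          have hz2' : z + B.natDegree ≤ ((i * l : ℕ) : ℤ) + (l - 1 : ℕ) := by
            have : ((l - 1 : ℕ) : ℤ) = (Q * (S * m ^ 2) : ℕ) := by rw [hl]; simp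
            rw [this]; push_cast at hz2 ⊢; exact hz2
          have h2 : |act B (fun y => R y - nn y) z| < 1 := by
            rw [act_apply]
            calc |∑ i ∈ range (B.natDegree + 1), B.coeff i • (R (z + i) - nn (z + i))|
                ≤ ∑ i ∈ range (B.natDegree + 1), |B.coeff i • (R (z + i) - nn (z + i))| :=
                  abs_sum_le_sum_abs _ _
              _ < ∑ i ∈ range (B.natDegree + 1), |((B.coeff i : ℤ) : ℝ)| * (1 / K) := by
                  refine sum_lt_sum (fun i hi => ?_) ⟨B.natDegree, mem_range.2 (by omega), ?_⟩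
                  · rw [zsmul_eq_mul, abs_mul]
                    rw [mem_range] at hi
                    exact mul_le_mul_of_nonneg_left (hgood' _ (by omega) (by omega)).le
                      (abs_nonneg _)
                  · rw [zsmul_eq_mul, abs_mul, h1.coeff_natDegree]
                    exact mul_lt_mul_of_pos_left (hgood' _ (by omega) (by omega))
                      (by norm_num)
              _ = (∑ i ∈ range (B.natDegree + 1), |B.coeff i| : ℤ) * (1 / K) := by
                  rw [← sum_mul]; push_cast; rfl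
              _ ≤ K * (1 / K) := by
                  refine mul_le_mul_of_nonneg_right ?_ (by positivity)
                  exact_mod_cast hK
              _ = 1 := by field_simp
          rw [hint, abs_neg, ← Int.cast_abs] at h2
          have h3 : |act B nn z| < 1 := by exact_mod_cast h2
          rw [hint, Int.abs_lt_one_iff.1 h3]
          simp
      refine parity hQ B h1 hB hr hN nn fun y hy hy' => ?_
      have h2 := hwin y hy hy'
      rw [hint] at h2
      have h3 : ((act B nn y : ℤ) : ℝ) = 0 := by linarith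
      exact_mod_cast h3
    rw [heven.neg_one_zpow, one_mul]
    have := Real.exp_pos (-(2 * (S₀ : ℝ)))
    linarith

/-- The engine. -/
theorem engine {m Q S₀ K r N : ℕ} (B : ℤ[X]) (hm : 0 < m) (hQ : 0 < Q) (h1 : B.Monic)
    (h0 : IsUnit (B.coeff 0)) (hdvd : (X - 1) ^ m ∣ B) (hB : B ∣ (X ^ Q - 1) ^ m)
    (hK : ∑ i ∈ range (B.natDegree + 1), |B.coeff i| ≤ (K : ℤ)) (hr : m + 1 ≤ 2 ^ r)
    (hN : Q * 2 ^ r ∣ N) (hS0 : 0 < S₀)
    (hb : (16 * Q * m ^ 4 * S₀ + 1) * (S₀ * K ^ 2 + 1) ≤ N)
    (hP : ((N : ℝ) ^ m + 1) ^ m * Real.exp (-(2 * S₀)) < 1) :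
    ∃ a : ℕ → ℤ, (∀ j, a j = 1 ∨ a j = -1) ∧
      m ≤ (∑ j ∈ range N, C (a j : ℝ) * X ^ j : ℝ[X]).rootMultiplicity 1 := by
  have hN0 : 0 < N := lt_of_lt_of_le (by positivity) hb
  have h2 : ∀ G : ℝ[X], G.natDegree < m →
      -Real.exp (-(2 * S₀)) ≤ ∏ j ∈ range N, Real.cos (Real.pi * G.eval (j : ℝ)) := by
    intro G hG
    refine key (S := 16 * m ^ 2 * S₀) B hm hQ h1 h0 hdvd hB hK hr hN hS0 le_rfl ?_ G hG
    have h3 : Q * (16 * m ^ 2 * S₀ * m ^ 2) + 1 = 16 * Q * m ^ 4 * S₀ + 1 := by ring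
    rw [h3]
    exact hb
  obtain ⟨a, ha, ha'⟩ := exists_signs (N := N) (m := m) _ hP h2 hm hN0
  exact ⟨a, ha, rootMultiplicity_ge hN0 a ha ha'⟩

end Pool.Agent.Lib.MP_efea25_an.LW
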