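import Pool.Agent.Lib.MP_efea25_an.LW.Prop
import Pool.Agent.Lib.MP_efea25_an.LW.Par

/-!
The key lemma for a general polynomial `B`: `(X - 1)^M ∣ B ∣ (X^Q - 1)^M`, monic, constant term `± 1`, sum of the absolute
values of the coefficients at most `Λ`.
-/

set_option autoImplicit false

namespace Pool.Agent.Lib.MP_efea25_an.LW

open Polynomial Finset

theorem kg_cos_le (x : ℝ) (hx : |x| ≤ 1 / 2) :
    0 ≤ Real.cos (Real.pi * x) ∧ Real.cos (Real.pi * x) ≤ Real.exp (-(2 * x ^ 2)) := by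
  have hpi := Real.pi_pos
  obtain ⟨hx1, hx2⟩ := abs_le.1 hx
  constructor
  · apply Real.cos_nonneg_of_mem_Icc
    constructor <;> nlinarith
  · have h1 : Real.cos (Real.pi * x) = 1 - 2 * Real.sin (Real.pi * x / 2) ^ 2 := by
      have h := Real.cos_two_mul (Real.pi * x / 2)
      have h' := Real.sin_sq_add_cos_sq (Real.pi * x / 2)
      have e : 2 * (Real.pi * x / 2) = Real.pi * x := by ring
      rw [e] at h
      linarith
    have h2 : |x| ≤ Real.sin (Real.pi * |x| / 2) := by
      have h := Real.mul_le_sin (x := Real.pi * |x| / 2) (by positivity) (by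
        have : |x| ≤ 1 := by linarith
        nlinarith)
      have e : 2 / Real.pi * (Real.pi * |x| / 2) = |x| := by
        field_simp
      rwa [e] at h
    have h3 : x ^ 2 ≤ Real.sin (Real.pi * x / 2) ^ 2 := by
      have h4 : Real.sin (Real.pi * |x| / 2) ^ 2 = Real.sin (Real.pi * x / 2) ^ 2 := by
        rcases abs_cases x with ⟨e, _⟩ | ⟨e, _⟩
        · rw [e]
        · rw [e]
          have e2 : Real.pi * -x / 2 = -(Real.pi * x / 2) := by ring
          rw [e2, Real.sin_neg, neg_sq]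
      rw [← h4, ← sq_abs x]
      exact pow_le_pow_left₀ (abs_nonneg x) h2 2
    have h5 := Real.add_one_le_exp (-(2 * x ^ 2))
    linarith

theorem kg_cos_eq (r : ℝ) (k : ℤ) :
    Real.cos (Real.pi * r) = (-1) ^ k * Real.cos (Real.pi * (r - k)) := by
  have e : Real.pi * r = Real.pi * (r - k) + k * Real.pi := by ring
  rw [e, Real.cos_add_int_mul_pi]

theorem kg_prod_zpow (N : ℕ) (nn : ℤ → ℤ) :
    ∏ j ∈ range N, ((-1 : ℝ) ^ (nn (j : ℤ))) = (-1) ^ (∑ j ∈ range N, nn (j : ℤ)) := by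
  induction N with
  | zero => simp
  | succ N ih =>
    rw [prod_range_succ, sum_range_succ, ih, zpow_add₀ (by norm_num)]

theorem keyG {M Q S S₀ N s b : ℕ} (Λ : ℝ) (B : ℤ[X]) (hM : 0 < M) (hQ : 0 < Q)
    (h0 : IsUnit (B.coeff 0)) (h1 : B.Monic) (hB : B ∣ (X ^ Q - 1) ^ M)
    (hB1 : (X - 1) ^ M ∣ B) (hΛ : ∑ i ∈ range (B.natDegree + 1), |(B.coeff i : ℝ)| ≤ Λ)
    (hs : M + 1 ≤ 2 ^ s) (hN : Q * 2 ^ s ∣ N) (hS : 16 * M ^ 2 * S₀ ≤ S)
    (hlen : B.natDegree ≤ Q * (S * M ^ 2)) (hb : (S₀ : ℝ) * Λ ^ 2 ≤ b)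
    (hbN : (Q * (S * M ^ 2) + 1) * b ≤ N) (G : ℝ[X]) (hG : G.natDegree < M) :
    -Real.exp (-(2 * S₀)) ≤ ∏ j ∈ range N, Real.cos (Real.pi * G.eval (j : ℝ)) := by
  set R : ℤ → ℝ := fun x => G.eval (x : ℝ) with hR
  set nn : ℤ → ℤ := fun x => round (R x) with hnn
  have hF : ∀ x, |R x - nn x| ≤ 1 / 2 := fun x => abs_sub_round (R x)
  have hprod : ∏ j ∈ range N, Real.cos (Real.pi * G.eval (j : ℝ)) =
      (-1) ^ (∑ j ∈ range N, nn (j : ℤ)) *
        ∏ j ∈ range N, Real.cos (Real.pi * (R (j : ℤ) - nn (j : ℤ))) := by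
    rw [← kg_prod_zpow, ← prod_mul_distrib]
    refine prod_congr rfl fun j _ => ?_
    have e : G.eval (j : ℝ) = R (j : ℤ) := by
      simp [hR]
    rw [e, ← kg_cos_eq]
  have hc0 : 0 ≤ ∏ j ∈ range N, Real.cos (Real.pi * (R (j : ℤ) - nn (j : ℤ))) :=
    prod_nonneg fun j _ => (kg_cos_le _ (hF _)).1
  have hc1 : ∏ j ∈ range N, Real.cos (Real.pi * (R (j : ℤ) - nn (j : ℤ))) ≤
      Real.exp (-(2 * ∑ j ∈ range N, (R (j : ℤ) - nn (j : ℤ)) ^ 2)) := by
    rw [mul_sum, ← sum_neg_distrib, Real.exp_sum]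
    exact prod_le_prod (fun j _ => (kg_cos_le _ (hF _)).1) fun j _ => (kg_cos_le _ (hF _)).2
  rw [hprod]
  rcases le_or_gt (S₀ : ℝ) (∑ j ∈ range N, (R (j : ℤ) - nn (j : ℤ)) ^ 2) with hbig | hsmall
  · have h2 : ∏ j ∈ range N, Real.cos (Real.pi * (R (j : ℤ) - nn (j : ℤ))) ≤
        Real.exp (-(2 * S₀)) := by
      refine hc1.trans (Real.exp_le_exp.2 ?_)
      linarith
    rcases Int.even_or_odd (∑ j ∈ range N, nn (j : ℤ)) with he | ho
    · rw [he.neg_one_zpow, one_mul]
      have := Real.exp_pos (-(2 * (S₀ : ℝ)))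
      linarith
    · rw [ho.neg_one_zpow]
      linarith
  · have hR0 : ∀ x, act B R x = 0 := fun x => act_poly_eq_zero G hG B hB1 x
    have hΛ1 : 1 ≤ Λ := by
      refine le_trans ?_ hΛ
      have h2 : |(B.coeff B.natDegree : ℝ)| = 1 := by
        rw [coeff_natDegree, h1.leadingCoeff]
        simp
      rw [← h2]
      exact single_le_sum (f := fun i => |(B.coeff i : ℝ)|) (fun i _ => abs_nonneg _)
        (mem_range.2 (Nat.lt_succ_self _))
    have hsub : (fun y => R y - nn y : ℤ → ℝ) = R - fun y => ((nn y : ℤ) : ℝ) := rfl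
    have hact : ∀ y, act B (fun y => R y - nn y) y = -((act B nn y : ℤ) : ℝ) := by
      intro y
      rw [hsub, act_sub_right, Pi.sub_apply, hR0, act_intCast, zero_sub]
    -- a good block
    have hblock : ∃ i < b, ∀ j : ℕ, (Q * (S * M ^ 2) + 1) * i ≤ j →
        j < (Q * (S * M ^ 2) + 1) * (i + 1) → |R (j : ℤ) - nn (j : ℤ)| < 1 / Λ := by
      by_contra hcon
      push Not at hcon
      choose! g hg1 hg2 hg3 using hcon
      have hinj : Set.InjOn g (range b : Set ℕ) := by
        intro i hi j hj hij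
        have hi' := mem_range.1 (mem_coe.1 hi)
        have hj' := mem_range.1 (mem_coe.1 hj)
        have a1 := hg1 i hi'
        have a2 := hg2 i hi'
        have b1 := hg1 j hj'
        have b2 := hg2 j hj'
        rw [hij] at a1 a2
        have c1 : i < j + 1 := lt_of_mul_lt_mul_left (a1.trans_lt b2) (Nat.zero_le _)
        have c2 : j < i + 1 := lt_of_mul_lt_mul_left (b1.trans_lt a2) (Nat.zero_le _)
        omega
      have hsub2 : (range b).image g ⊆ range N := by
        intro j hj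
        obtain ⟨i, hi, rfl⟩ := mem_image.1 hj
        have hi' := mem_range.1 hi
        rw [mem_range]
        refine lt_of_lt_of_le (hg2 i hi') (le_trans (Nat.mul_le_mul_left _ ?_) hbN)
        exact hi'
      have h3 : (b : ℝ) * (1 / Λ) ^ 2 ≤ ∑ j ∈ range N, (R (j : ℤ) - nn (j : ℤ)) ^ 2 := by
        calc (b : ℝ) * (1 / Λ) ^ 2 = ∑ _i ∈ range b, (1 / Λ) ^ 2 := by
              rw [sum_const, card_range, nsmul_eq_mul]
          _ ≤ ∑ i ∈ range b, (R (g i : ℤ) - nn (g i : ℤ)) ^ 2 := by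
              refine sum_le_sum fun i hi => ?_
              rw [← sq_abs (R (g i : ℤ) - nn (g i : ℤ))]
              exact pow_le_pow_left₀ (by positivity) (hg3 i (mem_range.1 hi)) 2
          _ = ∑ j ∈ (range b).image g, (R (j : ℤ) - nn (j : ℤ)) ^ 2 := by
              rw [sum_image hinj]
          _ ≤ _ := sum_le_sum_of_subset_of_nonneg hsub2 fun _ _ _ => by positivity
      have h4 : (S₀ : ℝ) ≤ (b : ℝ) * (1 / Λ) ^ 2 := by
        rw [one_div, inv_pow, ← div_eq_mul_inv, le_div_iff₀ (by positivity)]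
        exact hb
      linarith
    obtain ⟨i, hib, hi⟩ := hblock
    set u : ℕ := (Q * (S * M ^ 2) + 1) * i with hu
    have hgood : ∀ y : ℤ, (u : ℤ) ≤ y → y + B.natDegree ≤ (u : ℤ) + (Q : ℤ) * (S * (M : ℤ) ^ 2) →
        act B (fun y => R y - nn y) y = 0 := by
      intro y hy1 hy2
      have hlt : |act B (fun y => R y - nn y) y| < 1 := by
        rw [act_apply]
        have h5 : ∀ k ∈ range (B.natDegree + 1),
            |B.coeff k • (R (y + k) - nn (y + k))| ≤ |(B.coeff k : ℝ)| * (1 / Λ) ∧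
            (B.coeff k ≠ 0 →
              |B.coeff k • (R (y + k) - nn (y + k))| < |(B.coeff k : ℝ)| * (1 / Λ)) := by
          intro k hk
          have hk' := mem_range.1 hk
          have hjj : ∃ j : ℕ, (j : ℤ) = y + k := ⟨(y + k).toNat, Int.toNat_of_nonneg (by omega)⟩
          obtain ⟨j, hj⟩ := hjj
          have hj1 : (Q * (S * M ^ 2) + 1) * i ≤ j := by
            rw [← hu]
            omega
          have hj2 : j < (Q * (S * M ^ 2) + 1) * (i + 1) := by
            have e1 : (Q * (S * M ^ 2) + 1) * (i + 1) = u + (Q * (S * M ^ 2) + 1) := by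
              rw [hu]; ring
            rw [e1]
            have e2 : ((Q * (S * M ^ 2) : ℕ) : ℤ) = (Q : ℤ) * (S * (M : ℤ) ^ 2) := by push_cast; ring
            omega
          have h6 := hi j hj1 hj2
          rw [hj] at h6
          rw [zsmul_eq_mul, abs_mul]
          refine ⟨mul_le_mul_of_nonneg_left h6.le (abs_nonneg _), fun hne => ?_⟩
          apply mul_lt_mul_of_pos_left h6
          rw [abs_pos]
          exact_mod_cast hne
        calc |∑ k ∈ range (B.natDegree + 1), B.coeff k • (R (y + k) - nn (y + k))|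
            ≤ ∑ k ∈ range (B.natDegree + 1), |B.coeff k • (R (y + k) - nn (y + k))| :=
              abs_sum_le_sum_abs _ _
          _ < ∑ k ∈ range (B.natDegree + 1), |(B.coeff k : ℝ)| * (1 / Λ) := by
              refine sum_lt_sum (fun k hk => (h5 k hk).1) ⟨B.natDegree, mem_range.2
                (Nat.lt_succ_self _), (h5 _ (mem_range.2 (Nat.lt_succ_self _))).2 ?_⟩
              rw [coeff_natDegree, h1.leadingCoeff]
              exact one_ne_zero
          _ = (∑ k ∈ range (B.natDegree + 1), |(B.coeff k : ℝ)|) * (1 / Λ) := by rw [sum_mul]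
          _ ≤ Λ * (1 / Λ) := by
              apply mul_le_mul_of_nonneg_right hΛ (by positivity)
          _ = 1 := by field_simp
      rw [hact, abs_neg] at hlt
      rw [hact]
      have h7 : |act B nn y| < 1 := by exact_mod_cast hlt
      rw [Int.abs_lt_one_iff.1 h7]
      simp
    have hNu : u + Q * (S * M ^ 2) < N := by
      refine lt_of_lt_of_le ?_ hbN
      calc u + Q * (S * M ^ 2) < (Q * (S * M ^ 2) + 1) * (i + 1) := by rw [hu]; linarith
        _ ≤ (Q * (S * M ^ 2) + 1) * b := Nat.mul_le_mul_left _ hib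
    have hsum : 16 * (M : ℝ) ^ 2 * ∑ j ∈ range N, (R j - nn j) ^ 2 < S := by
      have hM' : (0 : ℝ) < M := by exact_mod_cast hM
      calc 16 * (M : ℝ) ^ 2 * ∑ j ∈ range N, (R j - nn j) ^ 2 < 16 * (M : ℝ) ^ 2 * (S₀ : ℝ) := by
            apply mul_lt_mul_of_pos_left hsmall
            positivity
        _ ≤ (S : ℝ) := by exact_mod_cast hS
    have hall := all_windows hM hQ B hB h0 h1 R nn hR0 hF hlen hsum u hNu hgood
    have hev := parity (M := M) (s := s) (N := N) hQ B h1 hB hs hN nn (fun y hy hy' => by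
      have h8 := hall y hy hy'
      rw [hact, neg_eq_zero] at h8
      exact_mod_cast h8)
    rw [hev.neg_one_zpow, one_mul]
    have := Real.exp_pos (-(2 * (S₀ : ℝ)))
    linarith

end Pool.Agent.Lib.MP_efea25_an.LW
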