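import Pool.Agent.Lib.MP_efea25_an.LW.Ext

/-! One step of the propagation. -/

set_option autoImplicit false

namespace Pool.Agent.Lib.MP_efea25_an.LW

open Polynomial Finset fwdDiff_aux
open scoped Nat

private lemma left_update (B : ℤ[X]) (f : ℤ → ℝ) (x : ℤ) (c : ℝ) :
    act B (Function.update f x (f x - c)) x = act B f x - (B.coeff 0 : ℝ) * c := by
  rw [act_apply, act_apply, Finset.sum_range_succ', Finset.sum_range_succ' _ B.natDegree]
  have h1 : ∑ i ∈ range B.natDegree, B.coeff (i + 1) •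
      Function.update f x (f x - c) (x + ((i + 1 : ℕ) : ℤ)) =
      ∑ i ∈ range B.natDegree, B.coeff (i + 1) • f (x + ((i + 1 : ℕ) : ℤ)) := by
    refine Finset.sum_congr rfl fun i _ => ?_
    rw [Function.update_of_ne]
    push_cast
    omega
  rw [h1]
  simp only [Nat.cast_zero, add_zero, Function.update_self, zsmul_eq_mul]
  ring

theorem ext_left {M Q S : ℕ} (hM : 0 < M) (hQ : 0 < Q) (B : ℤ[X]) (hB : B ∣ (X ^ Q - 1) ^ M)
    (h0 : IsUnit (B.coeff 0)) (R : ℤ → ℝ) (nn : ℤ → ℤ) (hR : ∀ x, act B R x = 0)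
    (hF : ∀ x, |R x - nn x| ≤ 1 / 2) (x : ℤ) (hlen : B.natDegree ≤ Q * (S * M ^ 2))
    (hsum : 16 * (M : ℝ) ^ 2 * ∑ t ∈ Icc 1 (S * M ^ 2), (R (x + Q * t) - nn (x + Q * t)) ^ 2 < S)
    (hz : ∀ y : ℤ, x < y → y + B.natDegree ≤ x + Q * (S * M ^ 2) →
      act B (fun y => R y - nn y) y = 0) :
    act B (fun y => R y - nn y) x = 0 := by
  set F : ℤ → ℝ := fun y => R y - nn y with hFdef
  -- the value is an integer
  obtain ⟨k, hk⟩ : ∃ k : ℤ, act B F x = (k : ℝ) := by
    refine ⟨-act B nn x, ?_⟩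
    have h1 : F = R - fun y => (nn y : ℝ) := rfl
    rw [h1, act_sub_right, Pi.sub_apply, hR, act_intCast]
    push_cast
    ring
  obtain ⟨l, hl⟩ : ∃ l : ℤ, act B F x = (B.coeff 0 : ℝ) * (l : ℝ) := by
    rcases Int.isUnit_iff.1 h0 with h1 | h1
    · exact ⟨k, by rw [h1, hk]; push_cast; ring⟩
    · exact ⟨-k, by rw [h1, hk]; push_cast; ring⟩
  set f : ℤ → ℝ := Function.update F x (F x - l) with hf
  have hfx : f x = F x - l := by rw [hf, Function.update_self]
  have hfy : ∀ y, y ≠ x → f y = F y := by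
    intro y hy
    rw [hf, Function.update_of_ne hy]
  have hfact : act B f x = 0 := by
    rw [hf, left_update, hl, sub_self]
  have hext := extrap hM hQ B hB f x (S := S) (by
    intro y hy hy'
    rcases eq_or_lt_of_le hy with h1 | h1
    · rw [← h1]
      exact hfact
    · rw [act_congr B f F y fun z hz1 hz2 => hfy z (by omega)]
      exact hz y h1 hy')
  have hsum' : ∑ t ∈ Icc 1 (S * M ^ 2), f (x + Q * t) ^ 2 =
      ∑ t ∈ Icc 1 (S * M ^ 2), (R (x + Q * t) - nn (x + Q * t)) ^ 2 := by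
    refine Finset.sum_congr rfl fun t ht => ?_
    rw [Finset.mem_Icc] at ht
    rw [hfy]
    have h1 : 0 < (Q : ℤ) * (t : ℤ) := by
      have h2 : 0 < Q * t := Nat.mul_pos hQ (by omega)
      exact_mod_cast h2
    omega
  rw [hsum'] at hext
  have hS : (0 : ℝ) < S := by
    refine lt_of_le_of_lt ?_ hsum
    exact mul_nonneg (by positivity) (Finset.sum_nonneg fun t _ => sq_nonneg _)
  have h1 : (S : ℝ) * f x ^ 2 < S * (1 / 4) := by
    refine lt_of_le_of_lt hext ?_
    linarith
  have h2 : f x ^ 2 < (1 / 2) ^ 2 := by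
    have := lt_of_mul_lt_mul_left h1 hS.le
    linarith
  have h3 : |f x| < 1 / 2 := by
    rw [← abs_of_pos (by norm_num : (0 : ℝ) < 1 / 2)]
    exact sq_lt_sq.1 h2
  have h4 : |(l : ℝ)| < 1 := by
    have h5 : (l : ℝ) = F x - f x := by rw [hfx]; ring
    rw [h5]
    have h6 := abs_sub (F x) (f x)
    have h7 : |F x| ≤ 1 / 2 := hF x
    linarith
  have h5 : l = 0 := by
    rw [← Int.abs_lt_one_iff]
    exact_mod_cast h4
  rw [hl, h5]
  push_cast
  ring

/-- By reflection from `ext_left`. -/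
theorem ext_right {M Q S : ℕ} (hM : 0 < M) (hQ : 0 < Q) (B : ℤ[X]) (hB : B ∣ (X ^ Q - 1) ^ M)
    (h0 : IsUnit (B.coeff 0)) (h1 : B.Monic) (R : ℤ → ℝ) (nn : ℤ → ℤ) (hR : ∀ x, act B R x = 0)
    (hF : ∀ x, |R x - nn x| ≤ 1 / 2) (x : ℤ) (hlen : B.natDegree ≤ Q * (S * M ^ 2))
    (hsum : 16 * (M : ℝ) ^ 2 * ∑ t ∈ Icc 1 (S * M ^ 2), (R (x - Q * t) - nn (x - Q * t)) ^ 2 < S)
    (hz : ∀ y : ℤ, y + B.natDegree < x → x - Q * (S * M ^ 2) ≤ y →
      act B (fun y => R y - nn y) y = 0) :
    act B (fun y => R y - nn y) (x - B.natDegree) = 0 := by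
  have hc0 : B.coeff 0 ≠ 0 := h0.ne_zero
  have hdeg : B.reverse.natDegree = B.natDegree := by
    rw [Polynomial.reverse_natDegree, Polynomial.natTrailingDegree_eq_zero.2 (Or.inr hc0),
      Nat.sub_zero]
  have hrev : B.reverse ∣ (X ^ Q - 1) ^ M := by
    obtain ⟨A, hA⟩ := hB
    have h2 : ((X ^ Q - 1 : ℤ[X]) ^ M).reverse = B.reverse * A.reverse := by
      rw [hA, Polynomial.reverse_mul_of_domain]
    have h3 : (X ^ Q - 1 : ℤ[X]).reverse = -(X ^ Q - 1) := by
      have h4 : (X ^ Q - 1 : ℤ[X]) = X ^ Q + C (-1) := by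
        rw [map_neg, map_one]
        ring
      have h5 : (X ^ Q - 1 : ℤ[X]).natDegree = Q := by
        have := Polynomial.natDegree_X_pow_sub_C (R := ℤ) (n := Q) (r := 1)
        rwa [map_one] at this
      ext i
      rw [Polynomial.coeff_reverse, h5]
      simp only [coeff_sub, coeff_X_pow, coeff_one, coeff_neg]
      by_cases hi : i ≤ Q
      · rw [Polynomial.revAt_le hi]
        by_cases h6 : i = 0
        · subst h6
          simp [hQ.ne', hQ.ne]
        · by_cases h7 : i = Q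
          · subst h7
            simp [hQ.ne', hQ.ne]
          · have h8 : Q - i ≠ Q := by omega
            have h9 : Q - i ≠ 0 := by omega
            simp [h6, h7, h8, h9]
      · rw [Polynomial.revAt_eq_self_of_lt (by omega)]
        have h6 : i ≠ 0 := by omega
        have h7 : i ≠ Q := by omega
        simp [h6, h7]
    have h4 : ∀ k : ℕ, ((X ^ Q - 1 : ℤ[X]) ^ k).reverse = (-(X ^ Q - 1)) ^ k := by
      intro k
      induction k with
      | zero =>
        rw [pow_zero, pow_zero, ← C_1, Polynomial.reverse_C]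
      | succ k ih => rw [pow_succ, Polynomial.reverse_mul_of_domain, ih, h3, pow_succ]
    rw [h4, neg_pow] at h2
    have h5 : (X ^ Q - 1 : ℤ[X]) ^ M = B.reverse * (A.reverse * (-1) ^ M) := by
      rw [← mul_assoc, ← h2, mul_comm ((-1 : ℤ[X]) ^ M), mul_assoc, ← mul_pow]
      norm_num
    exact ⟨_, h5⟩
  have hact : ∀ (g : ℤ → ℝ) (y : ℤ), act B.reverse (fun z => g (-z)) y =
      act B g (-y - B.natDegree) := fun g y => act_reverse B hc0 g y
  have key := ext_left hM hQ B.reverse hrev (S := S)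
    (by
      rw [Polynomial.coeff_zero_reverse, h1.leadingCoeff]
      exact isUnit_one)
    (fun y => R (-y)) (fun y => nn (-y)) (fun y => by rw [hact R]; exact hR _)
    (fun y => hF (-y)) (-x) (by rw [hdeg]; exact hlen)
    (by
      refine lt_of_eq_of_lt ?_ hsum
      congr 1
      refine Finset.sum_congr rfl fun t _ => ?_
      have h2 : -(-x + (Q : ℤ) * (t : ℤ)) = x - Q * t := by ring
      rw [h2])
    (by
      intro y hy hy'
      rw [hdeg] at hy'
      have h2 := hact (fun y => R y - nn y) y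
      rw [h2]
      apply hz
      · omega
      · linarith)
  have h2 := hact (fun y => R y - nn y) (-x)
  rw [neg_neg] at h2
  rw [← h2]
  exact key

end Pool.Agent.Lib.MP_efea25_an.LW
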