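import Mathlib

/-! Numerical facts. -/

set_option autoImplicit false

namespace Pool.Agent.Lib.MP_efea25_an.LW

open Filter
open scoped Nat

private theorem n11_fac (n : ℕ) : n ! ≤ n ^ n := Nat.factorial_le_pow n

private theorem n11_choose (n : ℕ) : 2 * n.choose 2 ≤ n ^ 2 := by
  rw [Nat.choose_two_right]
  calc 2 * (n * (n - 1) / 2) ≤ n * (n - 1) := Nat.mul_div_le _ _
    _ ≤ n * n := Nat.mul_le_mul_left _ (Nat.sub_le _ _)
    _ = n ^ 2 := by ring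

private theorem n11_log {n N : ℕ} (hn : 4 ≤ n) (hN : N = 2 ^ n * (n !) ^ 4) :
    ((N : ℝ) ^ (n.choose 2) + 1) ^ (n.choose 2) * Real.exp (-(2 * ((n ^ 7 : ℕ) : ℝ))) < 1 := by
  set c := n.choose 2 with hc
  have hc1 : 2 * c ≤ n ^ 2 := n11_choose n
  have hcR : (c : ℝ) ≤ (n : ℝ) ^ 2 := by
    have h : c ≤ n ^ 2 := by omega
    exact_mod_cast h
  have hn4 : (4 : ℝ) ≤ n := by exact_mod_cast hn
  have hN1 : (1 : ℝ) ≤ N := by
    have h : 1 ≤ N := by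
      rw [hN]
      exact Nat.mul_pos (by positivity) (pow_pos (Nat.factorial_pos n) 4)
    exact_mod_cast h
  -- `N ≤ exp (5 n ^ 2)`
  have h2e : (2 : ℝ) ≤ Real.exp 1 := by
    have := Real.add_one_le_exp (1 : ℝ)
    linarith
  have hNe : (N : ℝ) ≤ Real.exp (5 * n ^ 2) := by
    have h1 : ((n ! : ℕ) : ℝ) ≤ Real.exp ((n : ℝ) ^ 2) := by
      have h3 : ((n ! : ℕ) : ℝ) ≤ (n : ℝ) ^ n := by exact_mod_cast n11_fac n
      have h4 : (n : ℝ) ≤ Real.exp n := by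
        have := Real.add_one_le_exp (n : ℝ)
        linarith
      calc ((n ! : ℕ) : ℝ) ≤ (n : ℝ) ^ n := h3
        _ ≤ (Real.exp n) ^ n := pow_le_pow_left₀ (Nat.cast_nonneg _) h4 n
        _ = Real.exp ((n : ℝ) ^ 2) := by
            rw [← Real.exp_nat_mul]
            congr 1
            ring
    have h5 : ((2 : ℝ)) ^ n ≤ Real.exp n := by
      calc ((2 : ℝ)) ^ n ≤ (Real.exp 1) ^ n := pow_le_pow_left₀ (by norm_num) h2e n
        _ = Real.exp n := by rw [← Real.exp_nat_mul, mul_one]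
    have h6 : (N : ℝ) = 2 ^ n * ((n ! : ℕ) : ℝ) ^ 4 := by
      rw [hN]
      push_cast
      rfl
    rw [h6]
    calc (2 : ℝ) ^ n * ((n ! : ℕ) : ℝ) ^ 4 ≤ Real.exp n * (Real.exp ((n : ℝ) ^ 2)) ^ 4 := by
          refine mul_le_mul h5 (pow_le_pow_left₀ (Nat.cast_nonneg _) h1 4) (by positivity)
            (Real.exp_pos _).le
      _ = Real.exp (n + 4 * (n : ℝ) ^ 2) := by
          rw [← Real.exp_nat_mul, ← Real.exp_add]
          norm_num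
      _ ≤ Real.exp (5 * n ^ 2) := by
          apply Real.exp_le_exp.2
          nlinarith
  have h1 : (N : ℝ) ^ c + 1 ≤ Real.exp 1 * Real.exp (5 * n ^ 2 * c) := by
    have h3 : (N : ℝ) ^ c ≤ Real.exp (5 * n ^ 2 * c) := by
      calc (N : ℝ) ^ c ≤ (Real.exp (5 * n ^ 2)) ^ c :=
            pow_le_pow_left₀ (Nat.cast_nonneg _) hNe c
        _ = Real.exp (5 * n ^ 2 * c) := by
            rw [← Real.exp_nat_mul]
            congr 1
            ring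
    have h4 : (1 : ℝ) ≤ Real.exp (5 * n ^ 2 * c) := Real.one_le_exp (by positivity)
    have h5 := mul_le_mul_of_nonneg_right h2e (Real.exp_pos (5 * (n : ℝ) ^ 2 * c)).le
    linarith
  have h2 : ((N : ℝ) ^ c + 1) ^ c ≤ Real.exp (6 * n ^ 6) := by
    calc ((N : ℝ) ^ c + 1) ^ c ≤ (Real.exp 1 * Real.exp (5 * n ^ 2 * c)) ^ c :=
          pow_le_pow_left₀ (by positivity) h1 c
      _ = Real.exp (c * (1 + 5 * n ^ 2 * c)) := by
          rw [← Real.exp_add, ← Real.exp_nat_mul]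
      _ ≤ Real.exp (6 * n ^ 6) := by
          apply Real.exp_le_exp.2
          have h3 : (c : ℝ) * c ≤ (n : ℝ) ^ 2 * (n : ℝ) ^ 2 :=
            mul_le_mul hcR hcR (Nat.cast_nonneg _) (by positivity)
          have h4 : 5 * (n : ℝ) ^ 2 * ((c : ℝ) * c) ≤ 5 * (n : ℝ) ^ 2 * ((n : ℝ) ^ 2 * n ^ 2) :=
            mul_le_mul_of_nonneg_left h3 (by positivity)
          have h5 : (n : ℝ) ^ 2 ≤ (n : ℝ) ^ 6 :=
            pow_le_pow_right₀ (by linarith) (by norm_num)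
          calc (c : ℝ) * (1 + 5 * n ^ 2 * c) = c + 5 * (n : ℝ) ^ 2 * ((c : ℝ) * c) := by ring
            _ ≤ (n : ℝ) ^ 6 + 5 * (n : ℝ) ^ 2 * ((n : ℝ) ^ 2 * n ^ 2) := by linarith
            _ = 6 * n ^ 6 := by ring
  calc ((N : ℝ) ^ c + 1) ^ c * Real.exp (-(2 * ((n ^ 7 : ℕ) : ℝ)))
      ≤ Real.exp (6 * n ^ 6) * Real.exp (-(2 * ((n ^ 7 : ℕ) : ℝ))) :=
        mul_le_mul_of_nonneg_right h2 (Real.exp_pos _).le
    _ = Real.exp (6 * n ^ 6 - 2 * (n : ℝ) ^ 7) := by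
        rw [← Real.exp_add]
        congr 1
        push_cast
        ring
    _ < 1 := by
        rw [Real.exp_lt_one_iff]
        have h3 : (0 : ℝ) < (n : ℝ) ^ 6 := by positivity
        have h4 : 2 * (n : ℝ) ^ 7 = 2 * n * (n : ℝ) ^ 6 := by ring
        rw [h4]
        nlinarith

theorem num : ∃ n₀ : ℕ, ∀ n ≥ n₀, ∀ N : ℕ, N = 2 ^ n * (n !) ^ 4 → ∃ S₀ : ℕ,
    2 ≤ n ∧ n.choose 2 + 1 ≤ 2 ^ n ∧ 0 < S₀ ∧
    (16 * n ! * (n.choose 2) ^ 4 * S₀ + 1) * (S₀ * (n !) ^ 2 + 1) ≤ N ∧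
    ((N : ℝ) ^ (n.choose 2) + 1) ^ (n.choose 2) * Real.exp (-(2 * S₀)) < 1 := by
  have h := tendsto_pow_const_div_const_pow_of_one_lt 22 (r := (2 : ℝ)) one_lt_two
  have h1 := h.eventually (Iic_mem_nhds (by norm_num : (0 : ℝ) < 1 / 4))
  obtain ⟨n₁, hn₁⟩ := eventually_atTop.1 h1
  refine ⟨max n₁ 4, fun n hn N hN => ?_⟩
  have hn1 : n₁ ≤ n := (le_max_left _ _).trans hn
  have hn4 : 4 ≤ n := (le_max_right _ _).trans hn
  have h2 : 4 * n ^ 22 ≤ 2 ^ n := by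
    have h3 : (n : ℝ) ^ 22 / 2 ^ n ≤ 1 / 4 := hn₁ n hn1
    rw [div_le_iff₀ (by positivity)] at h3
    have h4 : (4 : ℝ) * (n : ℝ) ^ 22 ≤ 2 ^ n := by linarith
    exact_mod_cast h4
  set c := n.choose 2 with hc
  have hc1 : 2 * c ≤ n ^ 2 := n11_choose n
  have hf : 1 ≤ n ! := Nat.factorial_pos n
  have hn0 : 1 ≤ n := by omega
  have hc4 : 16 * c ^ 4 ≤ n ^ 8 := by
    have h3 := Nat.pow_le_pow_left hc1 4
    calc 16 * c ^ 4 = (2 * c) ^ 4 := by ring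
      _ ≤ (n ^ 2) ^ 4 := h3
      _ = n ^ 8 := by ring
  refine ⟨n ^ 7, by omega, ?_, by positivity, ?_, n11_log hn4 hN⟩
  · have h3 : n ^ 2 ≤ n ^ 22 := Nat.pow_le_pow_right hn0 (by norm_num)
    have h4 : 1 ≤ n ^ 22 := Nat.one_le_pow _ _ hn0
    omega
  · have h4 : 16 * n ! * c ^ 4 * n ^ 7 + 1 ≤ n ! * (2 * n ^ 15) := by
      have h5 : 16 * n ! * c ^ 4 * n ^ 7 ≤ n ! * n ^ 15 := by
        calc 16 * n ! * c ^ 4 * n ^ 7 = 16 * c ^ 4 * (n ! * n ^ 7) := by ring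
          _ ≤ n ^ 8 * (n ! * n ^ 7) := Nat.mul_le_mul_right _ hc4
          _ = n ! * n ^ 15 := by ring
      have h6 : 1 ≤ n ! * n ^ 15 := Nat.mul_pos hf (Nat.one_le_pow _ _ hn0)
      calc 16 * n ! * c ^ 4 * n ^ 7 + 1 ≤ n ! * n ^ 15 + n ! * n ^ 15 := by omega
        _ = n ! * (2 * n ^ 15) := by ring
    have h5 : n ^ 7 * (n !) ^ 2 + 1 ≤ 2 * n ^ 7 * (n !) ^ 2 := by
      have h6 : 1 ≤ n ^ 7 * (n !) ^ 2 :=
        Nat.mul_pos (Nat.one_le_pow _ _ hn0) (Nat.one_le_pow _ _ hf)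
      calc n ^ 7 * (n !) ^ 2 + 1 ≤ n ^ 7 * (n !) ^ 2 + n ^ 7 * (n !) ^ 2 := by omega
        _ = 2 * n ^ 7 * (n !) ^ 2 := by ring
    calc (16 * n ! * c ^ 4 * n ^ 7 + 1) * (n ^ 7 * (n !) ^ 2 + 1)
        ≤ (n ! * (2 * n ^ 15)) * (2 * n ^ 7 * (n !) ^ 2) := Nat.mul_le_mul h4 h5
      _ = 4 * n ^ 22 * (n !) ^ 3 := by ring
      _ ≤ 2 ^ n * (n !) ^ 3 := Nat.mul_le_mul_right _ h2
      _ ≤ 2 ^ n * (n !) ^ 4 :=
          Nat.mul_le_mul_left _ (Nat.pow_le_pow_right hf (by norm_num))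
      _ = N := hN.symm

/-- The growth of `log N`. -/
theorem log_bound (n N : ℕ) (hn : 3 ≤ n) (hN : N = 2 ^ n * (n !) ^ 4) :
    Real.log N ≤ 5 * n * Real.log n := by
  have hn0 : (0 : ℝ) < n := by exact_mod_cast (by omega : 0 < n)
  have hf : (0 : ℝ) < ((n ! : ℕ) : ℝ) := by exact_mod_cast Nat.factorial_pos n
  have h1 : (N : ℝ) = 2 ^ n * ((n ! : ℕ) : ℝ) ^ 4 := by
    rw [hN]
    push_cast
    rfl
  have h2 : Real.log ((n ! : ℕ) : ℝ) ≤ n * Real.log n := by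
    have h3 : ((n ! : ℕ) : ℝ) ≤ (n : ℝ) ^ n := by exact_mod_cast n11_fac n
    calc Real.log ((n ! : ℕ) : ℝ) ≤ Real.log ((n : ℝ) ^ n) := Real.log_le_log hf h3
      _ = n * Real.log n := Real.log_pow _ _
  have h4 : Real.log 2 ≤ Real.log n :=
    Real.log_le_log (by norm_num) (by exact_mod_cast (by omega : 2 ≤ n))
  rw [h1, Real.log_mul (by positivity) (by positivity), Real.log_pow, Real.log_pow]
  push_cast
  nlinarith [mul_le_mul_of_nonneg_left h4 hn0.le]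

end Pool.Agent.Lib.MP_efea25_an.LW
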