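import Pool.Agent.Lib.MP_efea25_an.LW.Defs

/-! # The `r`-th root of the product of Vandermonde -/

set_option autoImplicit false

namespace Pool.Agent.Lib.MP_efea25_an.LW

open Polynomial Finset
open scoped Nat

/-- The exponents `⌈(K - 1 - k) / r⌉`. -/
def rE (K r k : ℕ) : ℕ := (K - 1 - k + (r - 1)) / r

/-- The product of all `(X ^ (k + 1) - 1) ^ ⌈(K - 1 - k) / r⌉`, `k < K`: the `r`-th root of the
product of all `X ^ (j - i) - 1`, `0 ≤ i < j < K`, with the exponents rounded up. -/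
noncomputable def rP (K r : ℕ) : ℤ[X] := ∏ k ∈ range K, (X ^ (k + 1) - 1) ^ rE K r k

/-- The number of factors. -/
def rM (K r : ℕ) : ℕ := ∑ k ∈ range K, rE K r k

theorem rE_ge {K r k : ℕ} (hr : 0 < r) : K - 1 - k ≤ r * rE K r k := by
  unfold rE
  have h1 := Nat.div_add_mod (K - 1 - k + (r - 1)) r
  have h2 := Nat.mod_lt (K - 1 - k + (r - 1)) hr
  omega

theorem rE_mul_le (K r k : ℕ) : r * rE K r k ≤ K - 1 - k + (r - 1) := Nat.mul_div_le _ _

theorem rE_le {K r k : ℕ} (hr : 0 < r) : rE K r k ≤ K - 1 - k := by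
  unfold rE
  rcases Nat.eq_zero_or_pos (K - 1 - k) with h | h
  · rw [h, Nat.div_eq_of_lt (by omega)]
  · refine Nat.div_le_of_le_mul ?_
    obtain ⟨a, ha⟩ : ∃ a, K - 1 - k = a + 1 := ⟨K - 1 - k - 1, by omega⟩
    obtain ⟨s, rfl⟩ : ∃ s, r = s + 1 := ⟨r - 1, by omega⟩
    rw [ha]
    simp only [Nat.add_sub_cancel]
    nlinarith [Nat.zero_le (s * a)]

theorem rM_ge {K r : ℕ} (hr : 0 < r) : K * (K - 1) ≤ 2 * (r * rM K r) := by
  have h1 : ∑ k ∈ range K, (K - 1 - k) ≤ r * rM K r := by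
    unfold rM
    rw [Finset.mul_sum]
    exact Finset.sum_le_sum fun k _ => rE_ge hr
  have h2 : ∑ k ∈ range K, (K - 1 - k) = ∑ k ∈ range K, k := Finset.sum_range_reflect (fun k => k) K
  have h3 := Finset.sum_range_id_mul_two K
  omega

theorem rM_le {K r : ℕ} (hr : 0 < r) : rM K r ≤ K * K := by
  unfold rM
  calc ∑ k ∈ range K, rE K r k ≤ ∑ _k ∈ range K, K :=
        Finset.sum_le_sum fun k _ => (rE_le hr).trans (by omega)
    _ = K * K := by rw [Finset.sum_const, Finset.card_range, smul_eq_mul]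

theorem rP_monic (K r : ℕ) : (rP K r).Monic := by
  refine Polynomial.monic_prod_of_monic _ _ fun k _ => Monic.pow ?_ _
  have := monic_X_pow_sub_C (1 : ℤ) (n := k + 1) (by omega)
  rwa [C_1] at this

theorem rP_coeff_zero (K r : ℕ) : IsUnit ((rP K r).coeff 0) := by
  rw [coeff_zero_eq_eval_zero, rP, eval_prod]
  refine Finset.prod_induction _ IsUnit (fun a b => IsUnit.mul) isUnit_one fun k _ => ?_
  rw [eval_pow]
  refine IsUnit.pow _ ?_
  simp

theorem rP_natDegree {K r : ℕ} (hr : 0 < r) : (rP K r).natDegree ≤ K ^ 3 := by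
  refine (natDegree_prod_le _ _).trans ?_
  calc ∑ k ∈ range K, (((X : ℤ[X]) ^ (k + 1) - 1) ^ rE K r k).natDegree ≤
        ∑ _k ∈ range K, K * K := by
        refine Finset.sum_le_sum fun k hk => ?_
        rw [Finset.mem_range] at hk
        refine (natDegree_pow_le).trans ?_
        have h1 : ((X : ℤ[X]) ^ (k + 1) - 1).natDegree = k + 1 := by
          have := natDegree_X_pow_sub_C (R := ℤ) (n := k + 1) (r := 1)
          rwa [C_1] at this
        rw [h1]
        exact Nat.mul_le_mul ((rE_le hr).trans (by omega)) (by omega)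
    _ = K ^ 3 := by
        rw [Finset.sum_const, Finset.card_range, smul_eq_mul]
        ring

theorem dvd_rP (K r : ℕ) : (X - 1) ^ rM K r ∣ rP K r := by
  unfold rM rP
  rw [← Finset.prod_pow_eq_pow_sum]
  refine Finset.prod_dvd_prod_of_dvd _ _ fun k _ => pow_dvd_pow_of_dvd ?_ _
  have := sub_dvd_pow_sub_pow (X : ℤ[X]) 1 (k + 1)
  rwa [one_pow] at this

theorem rP_dvd (K r : ℕ) {Q : ℕ} (hQ : ∀ k < K, k + 1 ∣ Q) : rP K r ∣ (X ^ Q - 1) ^ rM K r := by
  unfold rM rP
  rw [← Finset.prod_pow_eq_pow_sum]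
  refine Finset.prod_dvd_prod_of_dvd _ _ fun k hk => pow_dvd_pow_of_dvd ?_ _
  obtain ⟨t, rfl⟩ := hQ k (Finset.mem_range.mp hk)
  have := sub_dvd_pow_sub_pow ((X : ℤ[X]) ^ (k + 1)) 1 t
  rwa [one_pow, ← pow_mul] at this

/-! ### The bound on the unit circle -/

private theorem root_prod (g : ℕ → ℝ) : ∀ K : ℕ,
    ∏ i : Fin K, ∏ j ∈ Ioi i, g ((j : ℕ) - (i : ℕ)) = ∏ k ∈ range K, g (k + 1) ^ (K - 1 - k) := by
  intro K
  induction K with
  | zero => simp
  | succ K ih =>
    rw [Fin.prod_univ_succ, Fin.prod_Ioi_zero]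
    have h1 : ∀ i : Fin K, ∏ j ∈ Ioi i.succ, g ((j : ℕ) - ((i.succ : Fin (K + 1)) : ℕ)) =
        ∏ j ∈ Ioi i, g ((j : ℕ) - (i : ℕ)) := by
      intro i
      rw [Fin.prod_Ioi_succ (fun j : Fin (K + 1) => g ((j : ℕ) - ((i.succ : Fin (K + 1)) : ℕ)))]
      refine Finset.prod_congr rfl fun j _ => ?_
      congr 1
      simp only [Fin.val_succ]
      omega
    simp_rw [h1]
    rw [ih]
    have h2 : ∏ j : Fin K, g (((j.succ : Fin (K + 1)) : ℕ) - ((0 : Fin (K + 1)) : ℕ)) =
        ∏ k ∈ range K, g (k + 1) := by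
      rw [Finset.prod_range]
      refine Finset.prod_congr rfl fun j _ => ?_
      simp
    rw [h2, ← Finset.prod_mul_distrib, Finset.prod_range_succ]
    have h3 : K + 1 - 1 - K = 0 := by omega
    rw [h3, pow_zero, mul_one]
    refine Finset.prod_congr rfl fun k hk => ?_
    rw [Finset.mem_range] at hk
    rw [← pow_succ']
    congr 1
    omega

private theorem root_vand (K : ℕ) (z : ℂ) (hz : ‖z‖ = 1) :
    ∏ k ∈ range K, ‖z ^ (k + 1) - 1‖ ^ (K - 1 - k) ≤ K ! := by
  rw [← root_prod (fun k => ‖z ^ k - 1‖) K]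
  have h1 : ∏ i : Fin K, ∏ j ∈ Ioi i, ‖z ^ ((j : ℕ) - (i : ℕ)) - 1‖ =
      ‖(Matrix.vandermonde fun i : Fin K => z ^ (i : ℕ)).det‖ := by
    rw [Matrix.det_vandermonde, norm_prod]
    refine Finset.prod_congr rfl fun i _ => ?_
    rw [norm_prod]
    refine Finset.prod_congr rfl fun j hj => ?_
    rw [Finset.mem_Ioi] at hj
    have h2 : z ^ (j : ℕ) - z ^ (i : ℕ) = z ^ (i : ℕ) * (z ^ ((j : ℕ) - (i : ℕ)) - 1) := by
      have h3 : (j : ℕ) = (i : ℕ) + ((j : ℕ) - (i : ℕ)) := by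
        have : (i : ℕ) < (j : ℕ) := hj
        omega
      conv_lhs => rw [h3, pow_add]
      ring
    rw [h2, norm_mul, norm_pow, hz, one_pow, one_mul]
  rw [h1]
  have h4 := Matrix.det_le (A := Matrix.vandermonde fun i : Fin K => z ^ (i : ℕ))
    (abv := NormedField.toAbsoluteValue ℂ) (x := 1) (fun i j => by
      show ‖(Matrix.vandermonde fun i : Fin K => z ^ (i : ℕ)) i j‖ ≤ 1
      rw [Matrix.vandermonde_apply, norm_pow, norm_pow, hz, one_pow, one_pow])
  rw [one_pow, Fintype.card_fin, nsmul_eq_mul, mul_one] at h4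
  exact h4

theorem norm_rP_le {K r : ℕ} (hr : 0 < r) (hK : K ≤ 2 ^ r) (z : ℂ) (hz : ‖z‖ = 1) :
    ‖aeval z (rP K r)‖ ≤ 4 ^ K := by
  have h1 : aeval z (rP K r) = ∏ k ∈ range K, (z ^ (k + 1) - 1) ^ rE K r k := by
    rw [rP, map_prod]
    refine Finset.prod_congr rfl fun k _ => ?_
    simp
  have hx : ∀ k, ‖z ^ k - 1‖ ≤ 2 := by
    intro k
    refine (norm_sub_le _ _).trans ?_
    rw [norm_pow, hz, one_pow, norm_one]
    norm_num
  have h2 : ‖aeval z (rP K r)‖ ^ r ≤ (4 ^ K) ^ r := by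
    rw [h1, norm_prod, ← Finset.prod_pow]
    calc ∏ k ∈ range K, ‖(z ^ (k + 1) - 1) ^ rE K r k‖ ^ r ≤
          ∏ k ∈ range K, (‖z ^ (k + 1) - 1‖ ^ (K - 1 - k) * 2 ^ r) := by
          refine Finset.prod_le_prod (fun k _ => by positivity) fun k _ => ?_
          rw [norm_pow, ← pow_mul]
          obtain ⟨e, he⟩ : ∃ e, rE K r k * r = K - 1 - k + e :=
            ⟨rE K r k * r - (K - 1 - k), by have := rE_ge (K := K) (k := k) hr; rw [mul_comm] at this; omega⟩
          have he2 : e ≤ r := by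
            have := rE_mul_le K r k
            rw [mul_comm] at this
            omega
          rw [he, pow_add]
          refine mul_le_mul_of_nonneg_left ?_ (by positivity)
          exact (pow_le_pow_left₀ (norm_nonneg _) (hx _) _).trans
            (pow_le_pow_right₀ (by norm_num) he2)
      _ = (∏ k ∈ range K, ‖z ^ (k + 1) - 1‖ ^ (K - 1 - k)) * (2 ^ r) ^ K := by
          rw [Finset.prod_mul_distrib, Finset.prod_const, Finset.card_range]
      _ ≤ (2 ^ r) ^ K * (2 ^ r) ^ K := by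
          refine mul_le_mul_of_nonneg_right ((root_vand K z hz).trans ?_) (by positivity)
          have h3 : K ! ≤ (2 ^ r) ^ K := (Nat.factorial_le_pow K).trans (Nat.pow_le_pow_left hK K)
          exact_mod_cast h3
      _ = (4 ^ K) ^ r := by
          rw [← pow_mul, ← pow_add, ← pow_mul, show (4 : ℝ) = 2 ^ 2 by norm_num, ← pow_mul]
          congr 1
          ring
  exact (pow_le_pow_iff_left₀ (norm_nonneg _) (by positivity) hr.ne').mp h2

private theorem root_iter (P : ℂ[X]) (n : ℕ) :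
    iteratedDeriv n (fun z => P.eval z) = fun z => (derivative^[n] P).eval z := by
  induction n with
  | zero => simp
  | succ n ih =>
    rw [iteratedDeriv_succ, ih]
    funext z
    rw [Polynomial.deriv, Function.iterate_succ_apply']

/-- Cauchy's estimate. -/
theorem coeff_le_of_circle (P : ℂ[X]) {M : ℝ} (h : ∀ z : ℂ, ‖z‖ = 1 → ‖P.eval z‖ ≤ M) (i : ℕ) :
    ‖P.coeff i‖ ≤ M := by
  have h1 := Complex.norm_iteratedDeriv_le_of_forall_mem_sphere_norm_le (c := 0) (R := 1) (C := M)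
    (f := fun z => P.eval z) i one_pos (P.differentiable.diffContOnCl) (fun z hz => h z (by simpa using hz))
  rw [root_iter, one_pow, div_one] at h1
  simp only at h1
  rw [← coeff_zero_eq_eval_zero, coeff_iterate_derivative, zero_add, Nat.descFactorial_self,
    nsmul_eq_mul, norm_mul, Complex.norm_natCast] at h1
  have h2 : (0 : ℝ) < i ! := by exact_mod_cast Nat.factorial_pos i
  exact le_of_mul_le_mul_left h1 h2

theorem coeff_rP_le {K r : ℕ} (hr : 0 < r) (hK : K ≤ 2 ^ r) (i : ℕ) :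
    |(rP K r).coeff i| ≤ 4 ^ K := by
  have h1 := coeff_le_of_circle ((rP K r).map (Int.castRingHom ℂ)) (M := 4 ^ K) (fun z hz => by
    rw [eval_map, ← algebraMap_int_eq, ← aeval_def]
    exact norm_rP_le hr hK z hz) i
  rw [coeff_map, eq_intCast, Complex.norm_intCast] at h1
  exact_mod_cast h1

theorem sum_coeff_rP_le {K r : ℕ} (hr : 0 < r) (hK : K ≤ 2 ^ r) :
    ∑ i ∈ range ((rP K r).natDegree + 1), |(rP K r).coeff i| ≤ ((K ^ 3 + 1) * 4 ^ K : ℕ) := by
  calc ∑ i ∈ range ((rP K r).natDegree + 1), |(rP K r).coeff i| ≤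
        ∑ _i ∈ range ((rP K r).natDegree + 1), (4 : ℤ) ^ K :=
        Finset.sum_le_sum fun i _ => coeff_rP_le hr hK i
    _ = ((rP K r).natDegree + 1 : ℕ) * 4 ^ K := by
        rw [Finset.sum_const, Finset.card_range, nsmul_eq_mul]
    _ ≤ ((K ^ 3 + 1 : ℕ) : ℤ) * 4 ^ K := by
        refine mul_le_mul_of_nonneg_right ?_ (by positivity)
        exact_mod_cast Nat.add_le_add_right (rP_natDegree hr) 1
    _ = ((K ^ 3 + 1) * 4 ^ K : ℕ) := by push_cast; ring

end Pool.Agent.Lib.MP_efea25_an.LW
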