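import Pool.Agent.Lib.MP_efea25_an.LW.Key
import Pool.Agent.Lib.MP_efea25_an.LW.Root

/-! # The numbers of the sharp version -/

set_option autoImplicit false

namespace Pool.Agent.Lib.MP_efea25_an.LW

open Polynomial Finset
open scoped Nat

private theorem numS_log_le {x : ℝ} (hx : 0 < x) : Real.log x ≤ x / 4 + 1 / 2 := by
  have h1 := Real.log_le_sub_one_of_pos (show 0 < x / 4 by positivity)
  have h2 : Real.log x = Real.log (x / 4) + Real.log 4 := by
    rw [← Real.log_mul (by positivity) (by norm_num)]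
    congr 1
    ring
  have h3 : Real.log 4 ≤ 1.4 := by
    have h4 : Real.log 4 = 2 * Real.log 2 := by
      rw [show (4 : ℝ) = 2 ^ 2 by norm_num, Real.log_pow]
      norm_num
    have h5 := Real.log_two_lt_d9
    rw [h4]
    linarith
  rw [h2]
  linarith

/-- The bound `l` of the sum of the coefficients. -/
def nL (κ : ℕ) : ℕ := (κ ^ 3 + 1) * 4 ^ κ

/-- The number `T`. -/
def nT (κ : ℕ) : ℕ := (16 * κ ^ 14 + 1) * (κ ^ 6 * nL κ ^ 2 + 1)

/-- The number `N`. -/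
def nN (κ ρ : ℕ) : ℕ := Nat.lcmUpto κ * 2 ^ (2 * ρ + 1) * nT κ

private theorem numS_log_N {κ ρ : ℕ} (hκ : κ = 2 ^ ρ) (hρ : 5 ≤ ρ) :
    0 < nN κ ρ ∧ (κ : ℝ) ≤ Real.log (nN κ ρ - 1 : ℝ) ∧ Real.log (nN κ ρ) ≤ 20 * κ := by
  have hκ32 : 32 ≤ κ := by
    rw [hκ]
    calc 32 = 2 ^ 5 := by norm_num
      _ ≤ 2 ^ ρ := Nat.pow_le_pow_right (by norm_num) hρ
  have hκR : (32 : ℝ) ≤ κ := by exact_mod_cast hκ32
  have hκ1 : (1 : ℝ) ≤ κ := by linarith
  have hκ0 : (0 : ℝ) < κ := by linarith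
  have hQ : 0 < Nat.lcmUpto κ := Nat.lcmUpto_pos κ
  have hT : 0 < nT κ := by unfold nT; positivity
  have hL : 0 < nL κ := by unfold nL; positivity
  have hN : 0 < nN κ ρ := by unfold nN; positivity
  have hlog4 : Real.log 4 ≤ 1.4 := by
    have h4 : Real.log 4 = 2 * Real.log 2 := by
      rw [show (4 : ℝ) = 2 ^ 2 by norm_num, Real.log_pow]
      norm_num
    have h5 := Real.log_two_lt_d9
    rw [h4]
    linarith
  have hlog4' : 1 ≤ Real.log 4 := by
    have h4 : Real.log 4 = 2 * Real.log 2 := by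
      rw [show (4 : ℝ) = 2 ^ 2 by norm_num, Real.log_pow]
      norm_num
    have h5 := Real.log_two_gt_d9
    rw [h4]
    linarith
  have hlogκ : Real.log κ ≤ κ / 4 + 1 / 2 := numS_log_le hκ0
  have hlogκ0 : 0 ≤ Real.log κ := Real.log_nonneg hκ1
  refine ⟨hN, ?_, ?_⟩
  · -- lower bound
    have h1 : (4 : ℝ) ^ κ + 1 ≤ nN κ ρ := by
      have h2 : 4 ^ κ + 1 ≤ nN κ ρ := by
        have h3 : 4 ^ κ ≤ nL κ := by
          unfold nL
          exact Nat.le_mul_of_pos_left _ (by positivity)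
        have h4 : nL κ ≤ κ ^ 6 * nL κ ^ 2 := by
          have h5 : nL κ ≤ nL κ ^ 2 := Nat.le_self_pow (by norm_num) _
          exact h5.trans (Nat.le_mul_of_pos_left _ (by positivity))
        have h6 : κ ^ 6 * nL κ ^ 2 + 1 ≤ nT κ := by
          unfold nT
          exact Nat.le_mul_of_pos_left _ (by positivity)
        have h7 : nT κ ≤ nN κ ρ := by
          unfold nN
          exact Nat.le_mul_of_pos_left _ (by positivity)
        omega
      exact_mod_cast h2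
    have h8 : Real.log ((4 : ℝ) ^ κ) ≤ Real.log (nN κ ρ - 1 : ℝ) :=
      Real.log_le_log (by positivity) (by linarith)
    rw [Real.log_pow] at h8
    nlinarith
  · -- upper bound
    have hlogQ : Real.log (Nat.lcmUpto κ) ≤ (1.4 + 4) * κ := by
      rw [← Chebyshev.psi_eq_log_lcmUpto]
      refine (Chebyshev.psi_le_const_mul_self hκ0.le).trans ?_
      nlinarith
    have hlogs : Real.log ((2 : ℝ) ^ (2 * ρ + 1)) ≤ 3 * Real.log κ := by
      have h1 : ((2 : ℝ) ^ (2 * ρ + 1)) ≤ (κ : ℝ) ^ 3 := by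
        have h2 : 2 ^ (2 * ρ + 1) ≤ κ ^ 3 := by
          rw [hκ, ← pow_mul]
          exact Nat.pow_le_pow_right (by norm_num) (by omega)
        exact_mod_cast h2
      have h3 := Real.log_le_log (by positivity) h1
      rwa [Real.log_pow κ 3] at h3
    have hlogL : Real.log (nL κ) ≤ 4 * Real.log κ + 1.4 * κ := by
      have h1 : (nL κ : ℝ) ≤ (κ : ℝ) ^ 4 * 4 ^ κ := by
        have h2 : nL κ ≤ κ ^ 4 * 4 ^ κ := by
          unfold nL
          refine Nat.mul_le_mul_right _ ?_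
          calc κ ^ 3 + 1 ≤ κ ^ 3 + κ ^ 3 := by
                have : 1 ≤ κ ^ 3 := Nat.one_le_pow _ _ (by omega)
                omega
            _ = 2 * κ ^ 3 := by ring
            _ ≤ κ * κ ^ 3 := Nat.mul_le_mul_right _ (by omega)
            _ = κ ^ 4 := by ring
        exact_mod_cast h2
      have h3 := Real.log_le_log (by exact_mod_cast hL) h1
      rw [Real.log_mul (by positivity) (by positivity), Real.log_pow, Real.log_pow] at h3
      push_cast at h3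
      nlinarith
    have hlogT : Real.log (nT κ) ≤ 23 * Real.log κ + 2 * Real.log (nL κ) := by
      have h1 : nT κ ≤ κ ^ 15 * (κ ^ 7 * nL κ ^ 2) * κ := by
        unfold nT
        have h2 : 16 * κ ^ 14 + 1 ≤ κ ^ 15 := by
          calc 16 * κ ^ 14 + 1 ≤ 16 * κ ^ 14 + κ ^ 14 := by
                have : 1 ≤ κ ^ 14 := Nat.one_le_pow _ _ (by omega)
                omega
            _ = 17 * κ ^ 14 := by ring
            _ ≤ κ * κ ^ 14 := Nat.mul_le_mul_right _ (by omega)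
            _ = κ ^ 15 := by ring
        have h3 : κ ^ 6 * nL κ ^ 2 + 1 ≤ κ ^ 7 * nL κ ^ 2 := by
          have h4 : 1 ≤ κ ^ 6 * nL κ ^ 2 := Nat.one_le_iff_ne_zero.mpr (by positivity)
          calc κ ^ 6 * nL κ ^ 2 + 1 ≤ κ ^ 6 * nL κ ^ 2 + κ ^ 6 * nL κ ^ 2 := by omega
            _ = 2 * (κ ^ 6 * nL κ ^ 2) := by ring
            _ ≤ κ * (κ ^ 6 * nL κ ^ 2) := Nat.mul_le_mul_right _ (by omega)
            _ = κ ^ 7 * nL κ ^ 2 := by ring
        calc (16 * κ ^ 14 + 1) * (κ ^ 6 * nL κ ^ 2 + 1) ≤ κ ^ 15 * (κ ^ 7 * nL κ ^ 2) :=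
              Nat.mul_le_mul h2 h3
          _ ≤ κ ^ 15 * (κ ^ 7 * nL κ ^ 2) * κ := Nat.le_mul_of_pos_right _ (by omega)
      have h5 : (nT κ : ℝ) ≤ (κ : ℝ) ^ 23 * (nL κ : ℝ) ^ 2 := by
        have h6 : (nT κ : ℝ) ≤ (κ : ℝ) ^ 15 * ((κ : ℝ) ^ 7 * (nL κ : ℝ) ^ 2) * κ := by
          exact_mod_cast h1
        refine h6.trans (le_of_eq ?_)
        ring
      have h7 := Real.log_le_log (by exact_mod_cast hT) h5
      have hLR : (nL κ : ℝ) ≠ 0 := by exact_mod_cast hL.ne'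
      rw [Real.log_mul (by positivity) (pow_ne_zero _ hLR), Real.log_pow, Real.log_pow] at h7
      push_cast at h7
      exact h7
    have h1 : Real.log (nN κ ρ) = Real.log (Nat.lcmUpto κ) + Real.log ((2 : ℝ) ^ (2 * ρ + 1)) +
        Real.log (nT κ) := by
      unfold nN
      have hQR : (Nat.lcmUpto κ : ℝ) ≠ 0 := by exact_mod_cast hQ.ne'
      have hTR : (nT κ : ℝ) ≠ 0 := by exact_mod_cast hT.ne'
      push_cast
      rw [Real.log_mul (mul_ne_zero hQR (by positivity)) hTR, Real.log_mul hQR (by positivity)]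
    rw [h1]
    linarith

/-- The sharp point: a Littlewood polynomial of degree `N - 1`. -/
theorem sharp_point {ρ : ℕ} (hρ : 5 ≤ ρ) : ∃ (N : ℕ) (a : ℕ → ℤ), 2 ≤ N ∧
    ((2 : ℝ) ^ ρ ≤ Real.log (N - 1 : ℝ)) ∧ Real.log N ≤ 20 * 2 ^ ρ ∧
    (∀ j, a j = 1 ∨ a j = -1) ∧
    (2 : ℝ) ^ ρ * 2 ^ ρ / (4 * ρ) ≤
      (∑ j ∈ range N, C (a j : ℝ) * X ^ j : ℝ[X]).rootMultiplicity 1 := by
  set κ : ℕ := 2 ^ ρ with hκ
  have hρ0 : 0 < ρ := by omega
  have hκ32 : 32 ≤ κ := by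
    rw [hκ]
    calc 32 = 2 ^ 5 := by norm_num
      _ ≤ 2 ^ ρ := Nat.pow_le_pow_right (by norm_num) hρ
  have hκR : (32 : ℝ) ≤ κ := by exact_mod_cast hκ32
  have hκ0 : (0 : ℝ) < κ := by linarith
  obtain ⟨hN0, hNlow, hNup⟩ := numS_log_N hκ hρ
  set N := nN κ ρ with hN
  have hNR0 : (0 : ℝ) < N := by exact_mod_cast hN0
  have hm1 := rM_ge (K := κ) hρ0
  have hm2 := rM_le (K := κ) hρ0
  set m := rM κ ρ with hm
  have hmpos : 0 < m := by
    rcases Nat.eq_zero_or_pos m with h | h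
    · rw [h] at hm1
      have : 0 < κ * (κ - 1) := Nat.mul_pos (by omega) (by omega)
      omega
    · exact h
  have hQ : 0 < Nat.lcmUpto κ := Nat.lcmUpto_pos κ
  have hNbig : (κ : ℝ) + 1 ≤ N := by
    have h1 : Real.exp κ ≤ N - 1 := by
      have h2 : (0 : ℝ) < N - 1 := by
        by_contra hcon
        push Not at hcon
        have h3 : Real.log (N - 1 : ℝ) ≤ 0 := by
          have h4 : (1 : ℝ) ≤ N := by exact_mod_cast hN0
          have h5 : (N : ℝ) - 1 = 0 := by linarith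
          rw [h5, Real.log_zero]
        linarith
      rw [← Real.log_le_log_iff (Real.exp_pos _) h2, Real.log_exp]
      exact hNlow
    have h6 := Real.add_one_le_exp (κ : ℝ)
    linarith
  have hN2 : 2 ≤ N := by
    have : (2 : ℝ) ≤ N := by linarith
    exact_mod_cast this
  obtain ⟨a, ha, hmult⟩ := engine (m := m) (Q := Nat.lcmUpto κ) (S₀ := κ ^ 6) (K := nL κ)
    (r := 2 * ρ + 1) (N := N) (rP κ ρ) hmpos hQ (rP_monic _ _) (rP_coeff_zero _ _) (dvd_rP _ _)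
    (rP_dvd _ _ fun k hk => Finset.dvd_lcm (f := id) (Finset.mem_Icc.mpr ⟨by omega, by omega⟩))
    (sum_coeff_rP_le hρ0 le_rfl)
    (by
      calc m + 1 ≤ κ * κ + 1 := by omega
        _ ≤ 2 * (κ * κ) := by nlinarith
        _ = 2 ^ (2 * ρ + 1) := by rw [hκ]; ring)
    (by rw [hN, nN]; exact dvd_mul_right _ _) (by positivity)
    (by
      have h1 : 16 * Nat.lcmUpto κ * m ^ 4 * κ ^ 6 + 1 ≤
          (Nat.lcmUpto κ * 2 ^ (2 * ρ + 1)) * (16 * κ ^ 14 + 1) := by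
        have h2 : m ^ 4 ≤ κ ^ 8 := by
          calc m ^ 4 ≤ (κ * κ) ^ 4 := Nat.pow_le_pow_left hm2 4
            _ = κ ^ 8 := by ring
        have h3 : 16 * Nat.lcmUpto κ * m ^ 4 * κ ^ 6 + 1 ≤ Nat.lcmUpto κ * (16 * κ ^ 14 + 1) := by
          calc 16 * Nat.lcmUpto κ * m ^ 4 * κ ^ 6 + 1 ≤
                16 * Nat.lcmUpto κ * κ ^ 8 * κ ^ 6 + Nat.lcmUpto κ := by gcongr; omega
            _ = Nat.lcmUpto κ * (16 * κ ^ 14 + 1) := by ring
        refine h3.trans ?_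
        rw [mul_right_comm]
        exact Nat.le_mul_of_pos_right _ (by positivity)
      calc (16 * Nat.lcmUpto κ * m ^ 4 * κ ^ 6 + 1) * (κ ^ 6 * nL κ ^ 2 + 1) ≤
            ((Nat.lcmUpto κ * 2 ^ (2 * ρ + 1)) * (16 * κ ^ 14 + 1)) * (κ ^ 6 * nL κ ^ 2 + 1) :=
            Nat.mul_le_mul_right _ h1
        _ = N := by rw [hN, nN, nT]; ring)
    (by
      have h1 : ((N : ℝ) ^ m + 1) ≤ (N : ℝ) ^ (m + 1) := by
        have h2 : (1 : ℝ) ≤ (N : ℝ) ^ m := one_le_pow₀ (by linarith)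
        have h3 : (2 : ℝ) * (N : ℝ) ^ m ≤ N * (N : ℝ) ^ m :=
          mul_le_mul_of_nonneg_right (by linarith) (by positivity)
        rw [pow_succ']
        linarith
      have h4 : ((N : ℝ) ^ m + 1) ^ m ≤ Real.exp ((m + 1) * m * Real.log N) := by
        calc ((N : ℝ) ^ m + 1) ^ m ≤ ((N : ℝ) ^ (m + 1)) ^ m :=
              pow_le_pow_left₀ (by positivity) h1 m
          _ = Real.exp ((m + 1) * m * Real.log N) := by
              rw [← pow_mul, ← Real.exp_log hNR0, ← Real.exp_nat_mul, Real.log_exp]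
              push_cast
              ring_nf
      refine lt_of_le_of_lt (mul_le_mul_of_nonneg_right h4 (Real.exp_pos _).le) ?_
      rw [← Real.exp_add, Real.exp_lt_one_iff]
      have h5 : ((m : ℝ) + 1) * m ≤ 2 * (κ : ℝ) ^ 4 := by
        have h6 : (m : ℝ) ≤ (κ : ℝ) * κ := by exact_mod_cast hm2
        have h7 : (1 : ℝ) ≤ m := by exact_mod_cast hmpos
        nlinarith
      have h8 : 0 ≤ Real.log N := Real.log_natCast_nonneg N
      have h9 : ((m : ℝ) + 1) * m * Real.log N ≤ 2 * (κ : ℝ) ^ 4 * (20 * κ) :=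
        mul_le_mul h5 hNup h8 (by positivity)
      have h10 : 2 * (κ : ℝ) ^ 4 * (20 * κ) < 2 * (κ : ℝ) ^ 6 := by
        have h11 : (0 : ℝ) < (κ : ℝ) ^ 5 := by positivity
        nlinarith
      push_cast
      linarith)
  refine ⟨N, a, hN2, ?_, ?_, ha, ?_⟩
  · calc ((2 : ℝ) ^ ρ) = κ := by rw [hκ]; push_cast; rfl
      _ ≤ _ := hNlow
  · calc Real.log N ≤ 20 * κ := hNup
      _ = 20 * 2 ^ ρ := by rw [hκ]; push_cast; rfl
  · have h1 : (2 : ℝ) ^ ρ = κ := by rw [hκ]; push_cast; rfl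
    rw [h1]
    have h2 : (m : ℝ) ≤ (∑ j ∈ range N, C (a j : ℝ) * X ^ j : ℝ[X]).rootMultiplicity 1 := by
      exact_mod_cast hmult
    refine le_trans ?_ h2
    rw [div_le_iff₀ (by positivity)]
    have h3 : (κ : ℝ) * (κ - 1) ≤ 2 * (ρ * m) := by
      have h4 : ((κ * (κ - 1) : ℕ) : ℝ) ≤ ((2 * (ρ * m) : ℕ) : ℝ) := by exact_mod_cast hm1
      rw [Nat.cast_mul, Nat.cast_sub (by omega)] at h4
      push_cast at h4
      exact h4
    nlinarith

end Pool.Agent.Lib.MP_efea25_an.LW
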