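import Pool.Agent.Lib.MP_efea25_an.LW.NumS

/-! # The sharp theorem: the order of the maximal multiplicity is `log² d / log log d` -/

set_option autoImplicit false

namespace Pool.Agent.Lib.MP_efea25_an.LW

open Polynomial Finset

/-- The polynomial with given signs is a Littlewood polynomial. -/
theorem sharp_littlewood (n : ℕ) (a : ℕ → ℤ) (ha : ∀ j, a j = 1 ∨ a j = -1) :
    (∑ j ∈ range (n + 1), C (a j : ℝ) * X ^ j : ℝ[X]).natDegree = n ∧
      ∀ j ≤ n, (∑ j ∈ range (n + 1), C (a j : ℝ) * X ^ j : ℝ[X]).coeff j = 1 ∨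
        (∑ j ∈ range (n + 1), C (a j : ℝ) * X ^ j : ℝ[X]).coeff j = -1 := by
  have hc : ∀ j, (∑ j ∈ range (n + 1), C (a j : ℝ) * X ^ j : ℝ[X]).coeff j =
      if j ≤ n then (a j : ℝ) else 0 := by
    intro j
    rw [finsetSum_coeff]
    simp only [coeff_C_mul, coeff_X_pow, mul_ite, mul_one, mul_zero]
    rw [sum_ite_eq]
    simp
  have hpm : ∀ j ≤ n, (∑ j ∈ range (n + 1), C (a j : ℝ) * X ^ j : ℝ[X]).coeff j = 1 ∨
      (∑ j ∈ range (n + 1), C (a j : ℝ) * X ^ j : ℝ[X]).coeff j = -1 := by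
    intro j hj
    rw [hc, if_pos hj]
    rcases ha j with h | h <;> rw [h]
    · left; norm_num
    · right; norm_num
  refine ⟨?_, hpm⟩
  apply natDegree_eq_of_le_of_coeff_ne_zero
  · rw [natDegree_le_iff_coeff_eq_zero]
    intro N hN
    rw [hc, if_neg (by omega)]
  · rcases hpm n le_rfl with h | h <;> rw [h] <;> norm_num

/-- A Littlewood polynomial of degree `1` with the zero `1`. -/
private theorem sharp_one : ∃ p : ℝ[X], p.natDegree = 1 ∧
    (∀ j ≤ 1, p.coeff j = 1 ∨ p.coeff j = -1) ∧ 1 ≤ p.rootMultiplicity 1 := by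
  refine ⟨X - C 1, natDegree_X_sub_C 1, ?_, ?_⟩
  · intro j hj
    rcases (show j = 0 ∨ j = 1 by omega) with rfl | rfl
    · right; simp
    · left; simp [coeff_one]
  · rw [rootMultiplicity_X_sub_C_self]

theorem sharp_order : ∃ c : ℝ, 0 < c ∧ ∀ d : ℕ, 3 ≤ d → ∃ n : ℕ, 1 ≤ n ∧ n ≤ d ∧
    ∃ p : ℝ[X], p.natDegree = n ∧ (∀ j ≤ n, p.coeff j = 1 ∨ p.coeff j = -1) ∧
      c * (Real.log d ^ 2 / Real.log (Real.log d)) ≤ p.rootMultiplicity 1 := by
  have hll3 : 0 < Real.log (Real.log 3) := by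
    apply Real.log_pos
    rw [Real.lt_log_iff_exp_lt (by norm_num)]
    exact Real.exp_one_lt_three
  refine ⟨min (1 / 10000) (Real.log (Real.log 3) / 640 ^ 2), by positivity, fun d hd => ?_⟩
  have hdR : (3 : ℝ) ≤ d := by exact_mod_cast hd
  have hl3 : 1 < Real.log 3 := by
    rw [Real.lt_log_iff_exp_lt (by norm_num)]
    exact Real.exp_one_lt_three
  have hld : Real.log 3 ≤ Real.log d := Real.log_le_log (by norm_num) hdR
  have hld1 : 1 < Real.log d := by linarith
  have hlld : Real.log (Real.log 3) ≤ Real.log (Real.log d) :=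
    Real.log_le_log (by linarith) hld
  have hlld0 : 0 < Real.log (Real.log d) := by linarith
  have hq0 : 0 ≤ Real.log d ^ 2 / Real.log (Real.log d) := by positivity
  rcases lt_or_ge (Real.log d) 640 with hsmall | hbig
  · obtain ⟨p, hp1, hp2, hp3⟩ := sharp_one
    refine ⟨1, le_rfl, by omega, p, hp1, hp2, ?_⟩
    have h1 : (1 : ℝ) ≤ p.rootMultiplicity 1 := by exact_mod_cast hp3
    refine le_trans ?_ h1
    calc min (1 / 10000) (Real.log (Real.log 3) / 640 ^ 2) *
          (Real.log d ^ 2 / Real.log (Real.log d)) ≤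
          (Real.log (Real.log 3) / 640 ^ 2) * (Real.log d ^ 2 / Real.log (Real.log d)) :=
          mul_le_mul_of_nonneg_right (min_le_right _ _) hq0
      _ = (Real.log (Real.log 3) * Real.log d ^ 2) / (640 ^ 2 * Real.log (Real.log d)) := by
          rw [div_mul_div_comm]
      _ ≤ 1 := by
          rw [div_le_one (by positivity)]
          calc Real.log (Real.log 3) * Real.log d ^ 2 ≤ Real.log (Real.log d) * 640 ^ 2 := by
                gcongr
            _ = _ := by ring
  · obtain ⟨ρ, hρ1, hρ2⟩ := exists_nat_pow_near (x := Real.log d / 20) (y := 2)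
      (by linarith) (by norm_num)
    have hρ5 : 5 ≤ ρ := by
      have h1 : (2 : ℝ) ^ 5 < 2 ^ (ρ + 1) := by
        refine lt_of_le_of_lt ?_ hρ2
        linarith
      have h2 := (pow_lt_pow_iff_right₀ (by norm_num : (1 : ℝ) < 2)).mp h1
      omega
    obtain ⟨N, a, hN2, hlow, hup, ha, hmult⟩ := sharp_point hρ5
    obtain ⟨n, rfl⟩ : ∃ n, N = n + 1 := ⟨N - 1, by omega⟩
    have hn := sharp_littlewood n a ha
    refine ⟨n, by omega, ?_, _, hn.1, hn.2, ?_⟩
    · have h1 : Real.log ((n + 1 : ℕ) : ℝ) ≤ Real.log d := by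
        rw [le_div_iff₀ (by norm_num)] at hρ1
        linarith
      have h2 := (Real.log_le_log_iff (by positivity) (by linarith)).mp h1
      have h3 : n + 1 ≤ d := by exact_mod_cast h2
      omega
    · refine le_trans ?_ hmult
      have hρR : (5 : ℝ) ≤ ρ := by exact_mod_cast hρ5
      have h1 : Real.log d < 40 * 2 ^ ρ := by
        rw [div_lt_iff₀ (by norm_num), pow_succ] at hρ2
        linarith
      have h2 : (ρ : ℝ) * Real.log 2 ≤ Real.log (Real.log d) := by
        rw [← Real.log_pow]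
        refine Real.log_le_log (by positivity) ?_
        have h3 : Real.log d / 20 ≤ Real.log d := by linarith
        exact hρ1.trans h3
      have hlog2 := Real.log_two_gt_d9
      have h4 : (ρ : ℝ) * 0.69 ≤ Real.log (Real.log d) := by nlinarith
      calc min (1 / 10000) (Real.log (Real.log 3) / 640 ^ 2) *
            (Real.log d ^ 2 / Real.log (Real.log d)) ≤
            (1 / 10000) * (Real.log d ^ 2 / Real.log (Real.log d)) :=
            mul_le_mul_of_nonneg_right (min_le_left _ _) hq0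
        _ ≤ (1 / 10000) * ((40 * 2 ^ ρ) ^ 2 / (ρ * 0.69)) := by gcongr
        _ ≤ (2 : ℝ) ^ ρ * 2 ^ ρ / (4 * ρ) := by
            have h5 : (0 : ℝ) < 2 ^ ρ * 2 ^ ρ := by positivity
            have h6 : (1 / 10000 : ℝ) * ((40 * 2 ^ ρ) ^ 2 / (ρ * 0.69)) =
                (1600 / 6900) * (2 ^ ρ * 2 ^ ρ) / ρ := by
              field_simp
              ring
            have h7 : (2 : ℝ) ^ ρ * 2 ^ ρ / (4 * ρ) = (1 / 4) * (2 ^ ρ * 2 ^ ρ) / ρ := by
              field_simp
            rw [h6, h7]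
            exact div_le_div_of_nonneg_right (mul_le_mul_of_nonneg_right (by norm_num) h5.le)
              (by linarith)

theorem sharp_negated (c : ℝ) : ∃ n : ℕ, 2 ≤ n ∧
    ∃ p : ℝ[X], p.natDegree = n ∧ (∀ j ≤ n, p.coeff j = 1 ∨ p.coeff j = -1) ∧
      c * Real.log n < p.rootMultiplicity 1 := by
  obtain ⟨k, hk⟩ := exists_nat_gt (max 3 (160 * c))
  have hk3 : (3 : ℝ) < k := (le_max_left _ _).trans_lt hk
  have hkc : 160 * c < k := (le_max_right _ _).trans_lt hk
  have hk3' : 3 < k := by exact_mod_cast hk3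
  obtain ⟨N, a, hN2, hlow, hup, ha, hmult⟩ := sharp_point (ρ := 2 * k) (by omega)
  obtain ⟨n, rfl⟩ : ∃ n, N = n + 1 := ⟨N - 1, by omega⟩
  have hn := sharp_littlewood n a ha
  have hcast : (((n + 1 : ℕ) : ℝ) - 1) = n := by push_cast; ring
  rw [hcast] at hlow
  have hk2 : (k : ℝ) < 2 ^ k := by exact_mod_cast Nat.lt_two_pow_self
  have hpow : (2 : ℝ) ^ (2 * k) = 2 ^ k * 2 ^ k := by rw [two_mul, pow_add]
  have hn0 : 0 < n := by omega
  have hn1 : (0 : ℝ) < n := by exact_mod_cast hn0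
  have hn2 : 2 ≤ n := by
    have h1 := Real.log_le_sub_one_of_pos hn1
    have h2 : (2 : ℝ) ≤ n := by nlinarith
    exact_mod_cast h2
  refine ⟨n, hn2, _, hn.1, hn.2, lt_of_lt_of_le ?_ hmult⟩
  have hlogn : Real.log n ≤ 20 * 2 ^ (2 * k) := by
    refine le_trans (Real.log_le_log hn1 ?_) hup
    push_cast
    linarith
  have hlogn0 : 0 ≤ Real.log n := Real.log_natCast_nonneg n
  have h3 : c * Real.log n ≤ (k / 160) * (20 * 2 ^ (2 * k)) := by
    calc c * Real.log n ≤ (k / 160) * Real.log n :=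
          mul_le_mul_of_nonneg_right (by linarith) hlogn0
      _ ≤ (k / 160) * (20 * 2 ^ (2 * k)) := by gcongr
  refine lt_of_le_of_lt h3 ?_
  push_cast
  rw [lt_div_iff₀ (by positivity)]
  have h4 : (k : ℝ) * k < 2 ^ (2 * k) := by
    rw [hpow]
    nlinarith
  have h5 : (0 : ℝ) < 2 ^ (2 * k) := by positivity
  nlinarith

end Pool.Agent.Lib.MP_efea25_an.LW
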