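import Pool.Agent.Lib.MP_efea25_an.LW.Defs

/-!
The polynomial `sB K = ∏_{1 ≤ i ≤ 2^K} ∏_{1 ≤ d ≤ K i} (X^d - 1)`: with `n = K 2^K` it has a zero of multiplicity
`sM K ≥ n^2 / (2 K)` at `1`, divides `(X^Q - 1)^(sM K)` with `Q = lcm(1, ..., n)`, and its coefficients are at most `32^n`.
-/

set_option autoImplicit false

namespace Pool.Agent.Lib.MP_efea25_an.LW

open Polynomial Finset
open scoped Nat

/-- `(X - 1)(X^2 - 1)...(X^D - 1)` -/
noncomputable def sbP (D : ℕ) : ℤ[X] := ∏ d ∈ range D, (X ^ (d + 1) - 1)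

/-- The product of the `sbP (K i)`, `1 ≤ i ≤ 2^K`. -/
noncomputable def sB (K : ℕ) : ℤ[X] := ∏ i ∈ range (2 ^ K), sbP (K * (i + 1))

/-- The multiplicity of the zero of `sB K` at `1`. -/
def sM (K : ℕ) : ℕ := ∑ i ∈ range (2 ^ K), K * (i + 1)

theorem sb_monic (d : ℕ) : (X ^ (d + 1) - 1 : ℤ[X]).Monic := by
  have h := monic_X_pow_sub_C (1 : ℤ) (Nat.succ_ne_zero d)
  rwa [map_one] at h

theorem sbP_monic (D : ℕ) : (sbP D).Monic := monic_prod_of_monic _ _ fun d _ => sb_monic d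

theorem sB_monic (K : ℕ) : (sB K).Monic := monic_prod_of_monic _ _ fun _ _ => sbP_monic _

theorem sb_unit (d : ℕ) : IsUnit ((X ^ (d + 1) - 1 : ℤ[X]).coeff 0) := by
  rw [coeff_zero_eq_eval_zero]
  simp

theorem sbP_unit (D : ℕ) : IsUnit ((sbP D).coeff 0) := by
  unfold sbP
  induction D with
  | zero => simp
  | succ D ih =>
    rw [prod_range_succ, mul_coeff_zero]
    exact ih.mul (sb_unit D)

theorem sB_unit (K : ℕ) : IsUnit ((sB K).coeff 0) := by
  unfold sB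
  induction 2 ^ K with
  | zero => simp
  | succ a ih =>
    rw [prod_range_succ, mul_coeff_zero]
    exact ih.mul (sbP_unit _)

theorem sbP_natDegree (D : ℕ) : (sbP D).natDegree ≤ D ^ 2 := by
  unfold sbP
  rw [natDegree_prod_of_monic _ _ fun d _ => sb_monic d]
  have h : ∀ d ∈ range D, (X ^ (d + 1) - 1 : ℤ[X]).natDegree ≤ D := by
    intro d hd
    have h1 : (X ^ (d + 1) - 1 : ℤ[X]).natDegree = d + 1 := by
      have h2 := natDegree_X_pow_sub_C (R := ℤ) (n := d + 1) (r := 1)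
      rwa [map_one] at h2
    rw [h1]
    exact mem_range.1 hd
  calc ∑ d ∈ range D, (X ^ (d + 1) - 1 : ℤ[X]).natDegree ≤ ∑ _d ∈ range D, D := sum_le_sum h
    _ = D ^ 2 := by rw [sum_const, card_range, smul_eq_mul, sq]

theorem sB_natDegree (K : ℕ) (hK : 1 ≤ K) : (sB K).natDegree ≤ (K * 2 ^ K) ^ 3 := by
  unfold sB
  rw [natDegree_prod_of_monic _ _ fun i _ => sbP_monic _]
  calc ∑ i ∈ range (2 ^ K), (sbP (K * (i + 1))).natDegree
      ≤ ∑ _i ∈ range (2 ^ K), (K * 2 ^ K) ^ 2 := by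
        refine sum_le_sum fun i hi => (sbP_natDegree _).trans ?_
        apply Nat.pow_le_pow_left
        apply Nat.mul_le_mul_left
        exact mem_range.1 hi
    _ = 2 ^ K * (K * 2 ^ K) ^ 2 := by rw [sum_const, card_range, smul_eq_mul]
    _ ≤ (K * 2 ^ K) * (K * 2 ^ K) ^ 2 := by
        apply Nat.mul_le_mul_right
        exact Nat.le_mul_of_pos_left _ hK
    _ = (K * 2 ^ K) ^ 3 := by ring

theorem dvd_sbP (D : ℕ) : (X - 1) ^ D ∣ sbP D := by
  unfold sbP
  calc (X - 1 : ℤ[X]) ^ D = ∏ _d ∈ range D, (X - 1 : ℤ[X]) := by rw [prod_const, card_range]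
    _ ∣ _ := prod_dvd_prod_of_dvd _ _ fun d _ => by
        have h := sub_dvd_pow_sub_pow (X : ℤ[X]) 1 (d + 1)
        rwa [one_pow] at h

theorem dvd_sB (K : ℕ) : (X - 1) ^ (sM K) ∣ sB K := by
  unfold sB sM
  rw [← prod_pow_eq_pow_sum]
  exact prod_dvd_prod_of_dvd _ _ fun i _ => dvd_sbP _

theorem sbP_dvd (D Q : ℕ) (hQ : ∀ d, 1 ≤ d → d ≤ D → d ∣ Q) : sbP D ∣ (X ^ Q - 1) ^ D := by
  unfold sbP
  calc ∏ d ∈ range D, (X ^ (d + 1) - 1 : ℤ[X]) ∣ ∏ _d ∈ range D, (X ^ Q - 1 : ℤ[X]) :=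
        prod_dvd_prod_of_dvd _ _ fun d hd => by
          obtain ⟨c, rfl⟩ := hQ (d + 1) (Nat.succ_pos d) (mem_range.1 hd)
          have h := sub_dvd_pow_sub_pow (X ^ (d + 1) : ℤ[X]) 1 c
          rwa [one_pow, ← pow_mul] at h
    _ = _ := by rw [prod_const, card_range]

theorem sB_dvd (K Q : ℕ) (hQ : ∀ d, 1 ≤ d → d ≤ K * 2 ^ K → d ∣ Q) :
    sB K ∣ (X ^ Q - 1) ^ (sM K) := by
  unfold sB sM
  rw [← prod_pow_eq_pow_sum]
  refine prod_dvd_prod_of_dvd _ _ fun i hi => sbP_dvd _ _ fun d h1 h2 => hQ d h1 (h2.trans ?_)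
  exact Nat.mul_le_mul_left _ (mem_range.1 hi)

theorem sM_ge (K : ℕ) : K * (2 ^ K) ^ 2 ≤ 2 * sM K := by
  unfold sM
  rw [← mul_sum]
  have h1 := Finset.sum_range_id_mul_two (2 ^ K + 1)
  rw [sum_range_succ', add_zero, Nat.add_sub_cancel] at h1
  calc K * (2 ^ K) ^ 2 ≤ K * ((2 ^ K + 1) * 2 ^ K) := by
        apply Nat.mul_le_mul_left
        rw [sq]
        exact Nat.mul_le_mul_right _ (Nat.le_succ _)
    _ = 2 * (K * ∑ i ∈ range (2 ^ K), (i + 1)) := by rw [← h1]; ring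

theorem sM_le (K : ℕ) : sM K ≤ K * (2 ^ K) ^ 2 := by
  unfold sM
  calc ∑ i ∈ range (2 ^ K), K * (i + 1) ≤ ∑ _i ∈ range (2 ^ K), K * 2 ^ K := by
        refine sum_le_sum fun i hi => Nat.mul_le_mul_left _ (mem_range.1 hi)
    _ = _ := by rw [sum_const, card_range, smul_eq_mul]; ring

/-! ### The bound on the unit circle -/

section circle

variable (z : ℂ)

/-- `|z - 1||z^2 - 1|...|z^D - 1|` -/
noncomputable def sbN (D : ℕ) : ℝ := ∏ d ∈ range D, ‖z ^ (d + 1) - 1‖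

variable {z}

theorem sbN_nonneg (D : ℕ) : 0 ≤ sbN z D := prod_nonneg fun _ _ => norm_nonneg _

theorem sb_le_two (hz : ‖z‖ = 1) (d : ℕ) : ‖z ^ (d + 1) - 1‖ ≤ 2 := by
  refine (norm_sub_le _ _).trans ?_
  rw [norm_pow, hz, one_pow, norm_one]
  norm_num

theorem sbN_add (hz : ‖z‖ = 1) (D j : ℕ) : sbN z (D + j) ≤ 2 ^ j * sbN z D := by
  induction j with
  | zero => simp
  | succ j ih =>
    have h : sbN z (D + (j + 1)) = sbN z (D + j) * ‖z ^ (D + j + 1) - 1‖ := by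
      unfold sbN
      rw [← add_assoc, prod_range_succ]
    rw [h]
    calc sbN z (D + j) * ‖z ^ (D + j + 1) - 1‖ ≤ (2 ^ j * sbN z D) * 2 :=
          mul_le_mul ih (sb_le_two hz _) (norm_nonneg _) (by positivity [sbN_nonneg (z := z) D])
      _ = _ := by ring

theorem sb_vand (hz : ‖z‖ = 1) (n : ℕ) : ∏ D ∈ range (n + 1), sbN z D ≤ (n + 1)! := by
  have h1 : ‖(Matrix.vandermonde (fun i : Fin (n + 1) => z ^ (i : ℕ))).det‖ ≤ ((n + 1)! : ℝ) := by
    have h := Matrix.det_le (A := Matrix.vandermonde (fun i : Fin (n + 1) => z ^ (i : ℕ)))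
      (abv := NormedField.toAbsoluteValue ℂ) (x := (1 : ℝ)) (fun i j => by
        show ‖(Matrix.vandermonde (fun i : Fin (n + 1) => z ^ (i : ℕ))) i j‖ ≤ 1
        rw [Matrix.vandermonde_apply, norm_pow, norm_pow, hz, one_pow, one_pow])
    rw [Fintype.card_fin, one_pow, nsmul_eq_mul, mul_one] at h
    exact h
  have h2 : ‖(Matrix.vandermonde (fun i : Fin (n + 1) => z ^ (i : ℕ))).det‖ =
      ∏ D ∈ range (n + 1), sbN z D := by
    rw [Matrix.det_vandermonde, norm_prod]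
    have h3 : ∀ i : Fin (n + 1), ‖∏ j ∈ Ioi i, (z ^ (j : ℕ) - z ^ (i : ℕ))‖ =
        sbN z (n - (i : ℕ)) := by
      intro i
      rw [norm_prod]
      have h4 : ∀ j ∈ Ioi i, ‖z ^ (j : ℕ) - z ^ (i : ℕ)‖ = ‖z ^ ((j : ℕ) - (i : ℕ)) - 1‖ := by
        intro j hj
        have hij : (i : ℕ) ≤ (j : ℕ) := le_of_lt (Fin.lt_def.1 (mem_Ioi.1 hj))
        have h5 : z ^ (j : ℕ) - z ^ (i : ℕ) = z ^ (i : ℕ) * (z ^ ((j : ℕ) - (i : ℕ)) - 1) := by
          rw [mul_sub, ← pow_add, mul_one, Nat.add_sub_cancel' hij]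
        rw [h5, norm_mul, norm_pow, hz, one_pow, one_mul]
      rw [prod_congr rfl h4]
      unfold sbN
      symm
      refine prod_bij' (fun d hd => (⟨(i : ℕ) + (d + 1), by
          have := mem_range.1 hd
          omega⟩ : Fin (n + 1))) (fun j _ => (j : ℕ) - (i : ℕ) - 1) ?_ ?_ ?_ ?_ ?_
      · intro d hd
        rw [mem_Ioi, Fin.lt_def]
        show (i : ℕ) < (i : ℕ) + (d + 1)
        omega
      · intro j hj
        have hij : (i : ℕ) < (j : ℕ) := Fin.lt_def.1 (mem_Ioi.1 hj)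
        rw [mem_range]
        have := j.isLt
        omega
      · intro d hd
        show (i : ℕ) + (d + 1) - (i : ℕ) - 1 = d
        omega
      · intro j hj
        have hij : (i : ℕ) < (j : ℕ) := Fin.lt_def.1 (mem_Ioi.1 hj)
        apply Fin.ext
        show (i : ℕ) + ((j : ℕ) - (i : ℕ) - 1 + 1) = (j : ℕ)
        omega
      · intro d hd
        show ‖z ^ (d + 1) - 1‖ = ‖z ^ ((i : ℕ) + (d + 1) - (i : ℕ)) - 1‖
        rw [Nat.add_sub_cancel_left]
    rw [prod_congr rfl fun i _ => h3 i,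
      Fin.prod_univ_eq_prod_range (fun i => sbN z (n - i)) (n + 1)]
    have h6 := prod_range_reflect (fun D => sbN z D) (n + 1)
    rw [← h6]
    refine prod_congr rfl fun i hi => ?_
    have := mem_range.1 hi
    have e : n + 1 - 1 - i = n - i := by omega
    rw [e]
  rw [← h2]
  exact h1

theorem sb_group (f : ℕ → ℝ) (K a : ℕ) :
    ∏ i ∈ range a, ∏ j ∈ range K, f (K * i + j) = ∏ D ∈ range (K * a), f D := by
  induction a with
  | zero => simp
  | succ a ih => rw [prod_range_succ, ih, Nat.mul_succ, prod_range_add]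

/-- The bound on the unit circle: with `n = K 2^K` the product is at most `32^n`. -/
theorem sb_sup (hz : ‖z‖ = 1) (K : ℕ) (hK : 1 ≤ K) :
    ∏ i ∈ range (2 ^ K), sbN z (K * (i + 1)) ≤ 32 ^ (K * 2 ^ K) := by
  set a := 2 ^ K with ha
  set n := K * a with hn
  have h0 : 0 ≤ ∏ i ∈ range a, sbN z (K * (i + 1)) := prod_nonneg fun _ _ => sbN_nonneg _
  have h1 : (∏ i ∈ range a, sbN z (K * (i + 1))) ^ K ≤
      ∏ i ∈ range a, ∏ j ∈ range K, (2 ^ K * sbN z (K * i + j + 1)) := by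
    rw [← prod_pow]
    refine prod_le_prod (fun i _ => pow_nonneg (sbN_nonneg _) _) fun i _ => ?_
    calc sbN z (K * (i + 1)) ^ K = ∏ _j ∈ range K, sbN z (K * (i + 1)) := by
          rw [prod_const, card_range]
      _ ≤ _ := by
          refine prod_le_prod (fun _ _ => sbN_nonneg _) fun j hj => ?_
          have hj' := mem_range.1 hj
          have e : K * (i + 1) = (K * i + j + 1) + (K - 1 - j) := by
            rw [Nat.mul_succ]
            omega
          rw [e]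
          refine (sbN_add hz _ _).trans ?_
          apply mul_le_mul_of_nonneg_right _ (sbN_nonneg _)
          exact pow_le_pow_right₀ (by norm_num) (by omega)
  have h2 : ∏ i ∈ range a, ∏ j ∈ range K, (2 ^ K * sbN z (K * i + j + 1)) =
      (2 : ℝ) ^ (K * n) * ∏ D ∈ range n, sbN z (D + 1) := by
    rw [sb_group (fun D => 2 ^ K * sbN z (D + 1)) K a, prod_mul_distrib, prod_const, card_range,
      ← pow_mul]
  have h3 : ∏ D ∈ range n, sbN z (D + 1) ≤ ((n + 1)! : ℝ) := by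
    have h := sb_vand hz n
    rw [prod_range_succ'] at h
    have e : sbN z 0 = 1 := by simp [sbN]
    rwa [e, mul_one] at h
  have hn1 : n + 1 ≤ 4 ^ K := by
    have h4 : K < 2 ^ K := Nat.lt_two_pow_self
    have h5 : (4 : ℕ) ^ K = 2 ^ K * 2 ^ K := by
      rw [← mul_pow]
      norm_num
    rw [h5, hn, ha]
    have h6 : 0 < 2 ^ K := by positivity
    nlinarith
  have hn0 : 1 ≤ n := by
    rw [hn, ha]
    exact Nat.mul_pos hK (by positivity)
  have h4 : (n + 1)! ≤ (16 ^ n) ^ K := by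
    calc (n + 1)! ≤ (n + 1) ^ (n + 1) := Nat.factorial_le_pow _
      _ ≤ (4 ^ K) ^ (n + 1) := Nat.pow_le_pow_left hn1 _
      _ ≤ (4 ^ K) ^ (2 * n) := Nat.pow_le_pow_right (by positivity) (by omega)
      _ = (16 ^ n) ^ K := by
          rw [← pow_mul, ← pow_mul, show (16 : ℕ) = 4 ^ 2 by norm_num, ← pow_mul]
          congr 1
          ring
  have h5 : (∏ i ∈ range a, sbN z (K * (i + 1))) ^ K ≤ (32 ^ n) ^ K := by
    refine h1.trans ?_
    rw [h2]
    calc (2 : ℝ) ^ (K * n) * ∏ D ∈ range n, sbN z (D + 1)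
        ≤ (2 : ℝ) ^ (K * n) * (16 ^ n) ^ K := by
          apply mul_le_mul_of_nonneg_left _ (by positivity)
          refine h3.trans ?_
          exact_mod_cast h4
      _ = (32 ^ n) ^ K := by
          rw [mul_comm K n, pow_mul, ← mul_pow, ← mul_pow]
          norm_num
  exact le_of_pow_le_pow_left₀ (by omega) (by positivity) h5

theorem sB_eval (K : ℕ) : ‖((sB K).map (Int.castRingHom ℂ)).eval z‖ =
    ∏ i ∈ range (2 ^ K), sbN z (K * (i + 1)) := by
  unfold sB sbP sbN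
  simp only [Polynomial.map_prod, eval_prod, norm_prod, Polynomial.map_sub, Polynomial.map_pow,
    map_X, Polynomial.map_one, eval_sub, eval_pow, eval_X, eval_one]

end circle

theorem sb_coeff (p : ℤ[X]) (M : ℝ) (hM : ∀ z : ℂ, ‖z‖ = 1 →
    ‖(p.map (Int.castRingHom ℂ)).eval z‖ ≤ M) (i : ℕ) : |(p.coeff i : ℝ)| ≤ M := by
  have hM0 : 0 ≤ M := (norm_nonneg _).trans (hM 1 norm_one)
  set q := p.map (Int.castRingHom ℂ) with hq
  have hc : ‖q.coeff i‖ = |(p.coeff i : ℝ)| := by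
    rw [hq, coeff_map, eq_intCast, Complex.norm_intCast]
  rw [← hc]
  by_cases hi : i ∈ q.support
  · have h1 : ‖q.coeff i‖ ^ 2 ≤ M ^ 2 := by
      calc ‖q.coeff i‖ ^ 2 ≤ ∑ i ∈ q.support, ‖q.coeff i‖ ^ 2 :=
            single_le_sum (f := fun i => ‖q.coeff i‖ ^ 2) (fun _ _ => by positivity) hi
        _ = Real.circleAverage (fun θ ↦ ‖q.eval θ‖ ^ 2) 0 1 :=
            q.sum_sq_norm_coeff_eq_circleAverage
        _ ≤ M ^ 2 := by
            apply Real.circleAverage_mono_on_of_le_circle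
            · apply ContinuousOn.circleIntegrable (by norm_num)
              exact (q.continuous.norm.pow 2).continuousOn
            · intro x hx
              rw [mem_sphere_iff_norm, sub_zero, abs_one] at hx
              exact pow_le_pow_left₀ (norm_nonneg _) (hM x hx) 2
    exact le_of_sq_le_sq h1 hM0
  · rw [notMem_support_iff.1 hi, norm_zero]
    exact hM0

theorem sB_coeff (K : ℕ) (hK : 1 ≤ K) (i : ℕ) : |((sB K).coeff i : ℝ)| ≤ 32 ^ (K * 2 ^ K) :=
  sb_coeff _ _ (fun z hz => by rw [sB_eval]; exact sb_sup hz K hK) i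

theorem sB_l1 (K : ℕ) (hK : 1 ≤ K) :
    ∑ i ∈ range ((sB K).natDegree + 1), |((sB K).coeff i : ℝ)| ≤
      ((K * 2 ^ K) ^ 3 + 1) * 32 ^ (K * 2 ^ K) := by
  refine (sum_le_card_nsmul _ _ _ fun i _ => sB_coeff K hK i).trans ?_
  rw [card_range, nsmul_eq_mul]
  apply mul_le_mul_of_nonneg_right _ (by positivity)
  exact_mod_cast Nat.succ_le_succ (sB_natDegree K hK)

/-! ### The least common multiple -/

theorem sb_lcm_dvd (n d : ℕ) (h1 : 1 ≤ d) (h2 : d ≤ n) : d ∣ Nat.lcmUpto n := by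
  unfold Nat.lcmUpto
  exact Finset.dvd_lcm (f := id) (mem_Icc.2 ⟨h1, h2⟩)

theorem sb_lcm_le (n : ℕ) : (Nat.lcmUpto n : ℝ) ≤ Real.exp ((Real.log 4 + 4) * n) := by
  have h1 := Chebyshev.psi_le_const_mul_self (x := (n : ℝ)) (by positivity)
  rw [Chebyshev.psi_eq_log_lcmUpto] at h1
  have h2 : (0 : ℝ) < Nat.lcmUpto n := by exact_mod_cast Nat.lcmUpto_pos n
  rw [← Real.exp_log h2]
  exact Real.exp_le_exp.2 h1

end Pool.Agent.Lib.MP_efea25_an.LW
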