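import Pool.Agent.Lib.MP_efea25_an.LW.KeyG
import Pool.Agent.Lib.MP_efea25_an.LW.SB
import Pool.Agent.Lib.MP_efea25_an.LW.Four
import Pool.Agent.Lib.MP_efea25_an.LW.Mult

/-!
The sharp family: with `n = K 2^K`, `M = sM K ≥ n^2 / (2K)` and `log N ≤ 53 n` there is a Littlewood polynomial with `N`
coefficients and a zero of multiplicity at least `M` at `1`.
-/

set_option autoImplicit false

namespace Pool.Agent.Lib.MP_efea25_an.LW

open Polynomial Finset

theorem sh_lt (K : ℕ) : K * 2 ^ K < 4 ^ K := by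
  have h4 : K < 2 ^ K := Nat.lt_two_pow_self
  have h5 : (4 : ℕ) ^ K = 2 ^ K * 2 ^ K := by
    rw [← mul_pow]
    norm_num
  rw [h5]
  exact Nat.mul_lt_mul_of_pos_right h4 (by positivity)

/-- The family, with all parameters. -/
theorem sh_family (K : ℕ) (hK : 4 ≤ K) : ∃ (N : ℕ) (a : ℕ → ℤ), 0 < N ∧
    (∀ j, a j = 1 ∨ a j = -1) ∧
    sM K ≤ (∑ j ∈ range N, C (a j : ℝ) * X ^ j : ℝ[X]).rootMultiplicity 1 ∧
    Real.log N ≤ 53 * ((K * 2 ^ K : ℕ) : ℝ) ∧ ((K * 2 ^ K : ℕ) : ℝ) ≤ Real.log N := by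
  set n := K * 2 ^ K with hn
  have hK1 : 1 ≤ K := by omega
  have hn64 : 64 ≤ n := by
    have h16 : 2 ^ 4 ≤ 2 ^ K := Nat.pow_le_pow_right (by norm_num) hK
    rw [hn]
    calc 64 = 4 * 2 ^ 4 := by norm_num
      _ ≤ K * 2 ^ K := Nat.mul_le_mul hK h16
  have hnR : (64 : ℝ) ≤ n := by exact_mod_cast hn64
  set M := sM K with hM
  have hMlo : K * (2 ^ K) ^ 2 ≤ 2 * M := sM_ge K
  have hMhi : M ≤ n ^ 2 := by
    refine (sM_le K).trans ?_
    rw [hn, mul_pow]
    exact Nat.mul_le_mul_right _ (Nat.le_self_pow (by norm_num) K)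
  have hM0 : 0 < M := by
    have h1 : 0 < K * (2 ^ K) ^ 2 := by positivity
    omega
  set Q := Nat.lcmUpto n with hQdef
  have hQ0 : 0 < Q := Nat.lcmUpto_pos n
  have hlog4 : Real.log 4 ≤ 2 := by
    have h1 : Real.log 4 = 2 * Real.log 2 := by
      rw [show (4 : ℝ) = 2 ^ 2 by norm_num, Real.log_pow]
      norm_num
    have h2 := Real.log_two_lt_d9
    rw [h1]
    linarith
  have hQle : (Q : ℝ) ≤ Real.exp (6 * n) := by
    refine (sb_lcm_le n).trans (Real.exp_le_exp.2 ?_)
    apply mul_le_mul_of_nonneg_right _ (by positivity)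
    linarith
  set S₀ := n ^ 6 with hS₀
  set S := 16 * M ^ 2 * S₀ with hS
  set Λ : ℕ := (n ^ 3 + 1) * 32 ^ n with hΛ
  set b := S₀ * Λ ^ 2 with hb
  set L := Q * (S * M ^ 2) + 1 with hL
  set N := Q * 2 ^ (4 * K) * (L * b) with hN
  have hb0 : 0 < b := by rw [hb, hS₀, hΛ]; positivity
  have hL0 : 0 < L := by rw [hL]; omega
  have hN0 : 0 < N := by rw [hN]; positivity
  have hs : M + 1 ≤ 2 ^ (4 * K) := by
    have h1 := sh_lt K
    have h2 : (2 : ℕ) ^ (4 * K) = 4 ^ K * 4 ^ K := by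
      rw [← mul_pow, pow_mul]
      norm_num
    rw [h2]
    calc M + 1 ≤ n ^ 2 + 1 := by omega
      _ ≤ 4 ^ K * 4 ^ K := by
          have h3 : n + 1 ≤ 4 ^ K := h1
          nlinarith
  have hS1 : n ^ 3 ≤ Q * (S * M ^ 2) := by
    have h1 : n ^ 3 ≤ S₀ := by
      rw [hS₀]
      exact Nat.pow_le_pow_right (by omega) (by norm_num)
    have h2 : S₀ ≤ S := by
      rw [hS]
      exact Nat.le_mul_of_pos_left _ (by positivity)
    calc n ^ 3 ≤ S := h1.trans h2
      _ ≤ S * M ^ 2 := Nat.le_mul_of_pos_right _ (by positivity)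
      _ ≤ _ := Nat.le_mul_of_pos_left _ hQ0
  -- the size of `N`
  have hn0 : (0 : ℝ) < n := by linarith
  have hexpn : (n : ℝ) ≤ Real.exp n := by
    have := Real.add_one_le_exp (n : ℝ)
    linarith
  have hMR : (M : ℝ) ≤ (n : ℝ) ^ 2 := by exact_mod_cast hMhi
  have hNle : (N : ℝ) ≤ Real.exp (53 * n) := by
    have hLle : (L : ℝ) ≤ 17 * (n : ℝ) ^ 14 * Real.exp (6 * n) := by
      have h1 : (L : ℝ) = Q * (16 * (M : ℝ) ^ 4 * (n : ℝ) ^ 6) + 1 := by
        rw [hL, hS, hS₀]
        push_cast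
        ring
      have h2 : (M : ℝ) ^ 4 ≤ (n : ℝ) ^ 8 := by
        calc (M : ℝ) ^ 4 ≤ ((n : ℝ) ^ 2) ^ 4 := pow_le_pow_left₀ (by positivity) hMR 4
          _ = _ := by ring
      have h3 : (1 : ℝ) ≤ (n : ℝ) ^ 14 * Real.exp (6 * n) := by
        have h4 : (1 : ℝ) ≤ (n : ℝ) ^ 14 := one_le_pow₀ (by linarith)
        have h5 : (1 : ℝ) ≤ Real.exp (6 * n) := Real.one_le_exp (by positivity)
        nlinarith
      rw [h1]
      calc (Q : ℝ) * (16 * (M : ℝ) ^ 4 * (n : ℝ) ^ 6) + 1
          ≤ Real.exp (6 * n) * (16 * (n : ℝ) ^ 8 * (n : ℝ) ^ 6) + (n : ℝ) ^ 14 * Real.exp (6 * n) := by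
            apply add_le_add _ h3
            apply mul_le_mul hQle _ (by positivity) (by positivity)
            apply mul_le_mul_of_nonneg_right _ (by positivity)
            apply mul_le_mul_of_nonneg_left h2 (by norm_num)
        _ = _ := by ring
    have h32 : ((32 : ℝ) ^ n) ≤ Real.exp (4 * n) := by
      have h1 : (32 : ℝ) ≤ Real.exp 4 := by
        have h2 := Real.exp_one_gt_d9
        have h3 : Real.exp 4 = Real.exp 1 ^ 4 := by
          rw [← Real.exp_nat_mul]
          norm_num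
        rw [h3]
        have h4 : (2.7 : ℝ) ^ 4 ≤ Real.exp 1 ^ 4 := pow_le_pow_left₀ (by norm_num) (by linarith) 4
        have h5 : (32 : ℝ) ≤ (2.7 : ℝ) ^ 4 := by norm_num
        exact h5.trans h4
      calc (32 : ℝ) ^ n ≤ (Real.exp 4) ^ n := pow_le_pow_left₀ (by norm_num) h1 n
        _ = Real.exp (4 * n) := by
            rw [← Real.exp_nat_mul]
            congr 1
            ring
    have hble : (b : ℝ) ≤ 4 * (n : ℝ) ^ 12 * Real.exp (8 * n) := by
      have h1 : (b : ℝ) = (n : ℝ) ^ 6 * (((n : ℝ) ^ 3 + 1) * (32 : ℝ) ^ n) ^ 2 := by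
        rw [hb, hS₀, hΛ]
        push_cast
        ring
      have h2 : (n : ℝ) ^ 3 + 1 ≤ 2 * (n : ℝ) ^ 3 := by
        have h4 : (1 : ℝ) ≤ (n : ℝ) ^ 3 := one_le_pow₀ (by linarith)
        linarith
      rw [h1]
      calc (n : ℝ) ^ 6 * (((n : ℝ) ^ 3 + 1) * (32 : ℝ) ^ n) ^ 2
          ≤ (n : ℝ) ^ 6 * ((2 * (n : ℝ) ^ 3) * Real.exp (4 * n)) ^ 2 := by
            apply mul_le_mul_of_nonneg_left _ (by positivity)
            apply pow_le_pow_left₀ (by positivity)
            exact mul_le_mul h2 h32 (by positivity) (by positivity)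
        _ = 4 * (n : ℝ) ^ 12 * (Real.exp (4 * n) ^ 2) := by ring
        _ = _ := by
            rw [← Real.exp_nat_mul]
            congr 2
            push_cast
            ring
    have h16 : ((2 : ℝ) ^ (4 * K)) ≤ (n : ℝ) ^ 4 := by
      have h1 : (2 : ℕ) ^ (4 * K) ≤ n ^ 4 := by
        rw [mul_comm 4 K, pow_mul]
        apply Nat.pow_le_pow_left
        rw [hn]
        exact Nat.le_mul_of_pos_left _ hK1
      exact_mod_cast h1
    have h68 : (68 : ℝ) ≤ Real.exp 64 := by
      have := Real.add_one_le_exp (64 : ℝ)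
      have h2 : Real.exp 64 = Real.exp 32 * Real.exp 32 := by
        rw [← Real.exp_add]
        norm_num
      have h3 := Real.add_one_le_exp (32 : ℝ)
      nlinarith
    calc (N : ℝ) = Q * (2 : ℝ) ^ (4 * K) * (L * b) := by
          rw [hN]
          push_cast
          ring
      _ ≤ Real.exp (6 * n) * (n : ℝ) ^ 4 * ((17 * (n : ℝ) ^ 14 * Real.exp (6 * n)) *
            (4 * (n : ℝ) ^ 12 * Real.exp (8 * n))) := by
          apply mul_le_mul _ _ (by positivity) (by positivity)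
          · exact mul_le_mul hQle h16 (by positivity) (by positivity)
          · exact mul_le_mul hLle hble (by positivity) (by positivity)
      _ = 68 * (n : ℝ) ^ 30 * (Real.exp (6 * n) * Real.exp (6 * n) * Real.exp (8 * n)) := by ring
      _ ≤ Real.exp n * Real.exp n ^ 30 * (Real.exp (6 * n) * Real.exp (6 * n) * Real.exp (8 * n)) := by
          apply mul_le_mul_of_nonneg_right _ (by positivity)
          apply mul_le_mul _ _ (by positivity) (by positivity)
          · exact h68.trans (Real.exp_le_exp.2 hnR)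
          · exact pow_le_pow_left₀ (by positivity) hexpn 30
      _ = Real.exp (51 * n) := by
          rw [← Real.exp_nat_mul, ← Real.exp_add, ← Real.exp_add, ← Real.exp_add, ← Real.exp_add]
          congr 1
          push_cast
          ring
      _ ≤ _ := Real.exp_le_exp.2 (by nlinarith)
  have hNR : (0 : ℝ) < N := by exact_mod_cast hN0
  have hlogN : Real.log N ≤ 53 * n := by
    rw [Real.log_le_iff_le_exp hNR]
    exact hNle
  have hlogN2 : (n : ℝ) ≤ Real.log N := by
    rw [Real.le_log_iff_exp_le hNR]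
    have h1 : (32 : ℕ) ^ n ≤ N := by
      have h2 : (32 : ℕ) ^ n ≤ Λ := by
        rw [hΛ]
        exact Nat.le_mul_of_pos_left _ (by positivity)
      have h3 : Λ ≤ b := by
        rw [hb]
        calc Λ ≤ Λ ^ 2 := Nat.le_self_pow (by norm_num) _
          _ ≤ _ := Nat.le_mul_of_pos_left _ (by positivity)
      have h4 : b ≤ N := by
        rw [hN, ← mul_assoc]
        exact Nat.le_mul_of_pos_left _ (by positivity)
      exact h2.trans (h3.trans h4)
    have h5 : Real.exp n ≤ (32 : ℝ) ^ n := by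
      have h6 : Real.exp 1 ≤ 32 := by
        have := Real.exp_one_lt_d9
        linarith
      calc Real.exp n = Real.exp 1 ^ n := by
            rw [← Real.exp_nat_mul, mul_one]
        _ ≤ _ := pow_le_pow_left₀ (Real.exp_pos _).le h6 n
    refine h5.trans ?_
    exact_mod_cast h1
  -- the analytic condition
  have hδ : ((N : ℝ) ^ M + 1) ^ M * Real.exp (-(2 * (S₀ : ℕ))) < 1 := by
    have h1 : (N : ℝ) ^ M + 1 ≤ Real.exp (54 * n * M) := by
      have h2 : (N : ℝ) ^ M ≤ Real.exp (53 * n * M) := by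
        calc (N : ℝ) ^ M ≤ (Real.exp (53 * n)) ^ M := pow_le_pow_left₀ hNR.le hNle M
          _ = _ := by
              rw [← Real.exp_nat_mul]
              congr 1
              ring
      have hM1 : (1 : ℝ) ≤ M := by exact_mod_cast hM0
      have h3 : (1 : ℝ) ≤ Real.exp (53 * n * M) := Real.one_le_exp (by positivity)
      have h4 : (2 : ℝ) ≤ Real.exp (n * M) := by
        have h5 := Real.add_one_le_exp ((n : ℝ) * M)
        have h6 : (64 : ℝ) * 1 ≤ (n : ℝ) * M := mul_le_mul hnR hM1 (by norm_num) (by positivity)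
        linarith
      calc (N : ℝ) ^ M + 1 ≤ Real.exp (53 * n * M) * 2 := by linarith
        _ ≤ Real.exp (53 * n * M) * Real.exp (n * M) := by
            apply mul_le_mul_of_nonneg_left h4 (Real.exp_pos _).le
        _ = _ := by
            rw [← Real.exp_add]
            congr 1
            ring
    calc ((N : ℝ) ^ M + 1) ^ M * Real.exp (-(2 * (S₀ : ℕ)))
        ≤ (Real.exp (54 * n * M)) ^ M * Real.exp (-(2 * (S₀ : ℕ))) := by
          apply mul_le_mul_of_nonneg_right _ (Real.exp_pos _).le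
          exact pow_le_pow_left₀ (by positivity) h1 M
      _ = Real.exp (54 * n * (M : ℝ) ^ 2 - 2 * (n : ℝ) ^ 6) := by
          rw [← Real.exp_nat_mul, ← Real.exp_add]
          congr 1
          rw [hS₀]
          push_cast
          ring
      _ < 1 := by
          rw [Real.exp_lt_one_iff]
          have h2 : (M : ℝ) ^ 2 ≤ (n : ℝ) ^ 4 := by
            calc (M : ℝ) ^ 2 ≤ ((n : ℝ) ^ 2) ^ 2 := pow_le_pow_left₀ (by positivity) hMR 2
              _ = _ := by ring
          have h3 : 54 * (n : ℝ) * (M : ℝ) ^ 2 ≤ 54 * (n : ℝ) * (n : ℝ) ^ 4 :=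
            mul_le_mul_of_nonneg_left h2 (by positivity)
          have h4 : 54 * (n : ℝ) * (n : ℝ) ^ 4 < 2 * (n : ℝ) ^ 6 := by
            have h5 : 0 < (n : ℝ) ^ 5 := by positivity
            have h6 : 54 * (n : ℝ) ^ 5 < (2 * n) * (n : ℝ) ^ 5 := by
              apply mul_lt_mul_of_pos_right _ h5
              linarith
            calc 54 * (n : ℝ) * (n : ℝ) ^ 4 = 54 * (n : ℝ) ^ 5 := by ring
              _ < (2 * n) * (n : ℝ) ^ 5 := h6
              _ = _ := by ring
          linarith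
  have hΛl1 : ∑ i ∈ range ((sB K).natDegree + 1), |((sB K).coeff i : ℝ)| ≤ (Λ : ℝ) := by
    refine (sB_l1 K hK1).trans (le_of_eq ?_)
    rw [hΛ, hn]
    push_cast
    ring
  have hkey : ∀ G : ℝ[X], G.natDegree < M → -Real.exp (-(2 * (S₀ : ℕ))) ≤
      ∏ j ∈ range N, Real.cos (Real.pi * G.eval (j : ℝ)) := by
    intro G hG
    refine keyG (M := M) (Q := Q) (S := S) (S₀ := S₀) (N := N) (s := 4 * K) (b := b) (Λ : ℝ)
      (sB K) hM0 hQ0 (sB_unit K) (sB_monic K)
      (sB_dvd K Q fun d h1 h2 => sb_lcm_dvd n d h1 h2) (dvd_sB K) hΛl1 hs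
      (Dvd.intro _ rfl) le_rfl ((sB_natDegree K hK1).trans hS1) ?_ ?_ G hG
    · rw [hb]
      push_cast
      exact le_rfl
    · rw [hN]
      exact Nat.le_mul_of_pos_left _ (by positivity)
  obtain ⟨a, ha, ha2⟩ := exists_signs (N := N) (m := M) (Real.exp (-(2 * (S₀ : ℕ)))) hδ hkey hM0 hN0
  exact ⟨N, a, hN0, ha, rootMultiplicity_ge hN0 a ha ha2, hlogN, hlogN2⟩

end Pool.Agent.Lib.MP_efea25_an.LW
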